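import Pool.Agent.H67.Blow.Basic

open Finset Fintype

namespace H67Blow

variable {V W : Type*} [Fintype V] [Fintype W]

lemma toSubgraph_adj {V W : Type*} {H : SimpleGraph W} {G : SimpleGraph V} (f : H.Copy G) (x y : V) :
    f.toSubgraph.Adj x y ↔ ∃ a b, H.Adj a b ∧ f a = x ∧ f b = y := by
  simp [SimpleGraph.Copy.toSubgraph, Relation.Map]

lemma toSubgraph_verts {V W : Type*} {H : SimpleGraph W} {G : SimpleGraph V} (f : H.Copy G) (x : V) :
    x ∈ f.toSubgraph.verts ↔ ∃ a, f a = x := by
  simp [SimpleGraph.Copy.toSubgraph]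

lemma exists_aut {V W : Type*} {H : SimpleGraph W} {G : SimpleGraph V} (f₀ f : H.Copy G)
    (h : f.toSubgraph = f₀.toSubgraph) : ∃ α : H ≃g H, ∀ a, f a = f₀ (α a) := by
  have hinj₀ : Function.Injective f₀ := f₀.injective
  have hinj : Function.Injective f := f.injective
  have h1 : ∀ a, ∃ b, f₀ b = f a := by
    intro a
    have : f a ∈ f₀.toSubgraph.verts := by rw [← h, toSubgraph_verts]; exact ⟨a, rfl⟩
    exact (toSubgraph_verts f₀ _).mp this
  have h2 : ∀ a, ∃ b, f b = f₀ a := by
    intro a
    have : f₀ a ∈ f.toSubgraph.verts := by rw [h, toSubgraph_verts]; exact ⟨a, rfl⟩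
    exact (toSubgraph_verts f _).mp this
  choose p hp using h1
  choose q hq using h2
  refine ⟨⟨⟨p, q, fun a => ?_, fun a => ?_⟩, ?_⟩, fun a => (hp a).symm⟩
  · apply hinj; rw [hq, hp]
  · apply hinj₀; rw [hp, hq]
  · intro a b
    change H.Adj (p a) (p b) ↔ H.Adj a b
    constructor
    · intro hab
      have : f₀.toSubgraph.Adj (f a) (f b) := by
        rw [toSubgraph_adj]; exact ⟨p a, p b, hab, hp a, hp b⟩
      rw [← h, toSubgraph_adj] at this
      obtain ⟨c, d, hcd, hc, hd⟩ := this
      rwa [hinj hc, hinj hd] at hcd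
    · intro hab
      have : f.toSubgraph.Adj (f a) (f b) := by
        rw [toSubgraph_adj]; exact ⟨a, b, hab, rfl, rfl⟩
      rw [h, toSubgraph_adj] at this
      obtain ⟨c, d, hcd, hc, hd⟩ := this
      have e1 : c = p a := hinj₀ (by rw [hc, hp])
      have e2 : d = p b := hinj₀ (by rw [hd, hp])
      rwa [e1, e2] at hcd

noncomputable instance autFintype (H : SimpleGraph W) : Fintype (H ≃g H) := by
  classical
  exact Fintype.ofInjective (fun e : H ≃g H => (e : W → W)) DFunLike.coe_injective

open Classical in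
lemma num_eq_copyCount (H : SimpleGraph W) (G : SimpleGraph V) :
    num H G = G.copyCount H * Fintype.card (H ≃g H) := by
  rw [SimpleGraph.copyCount_eq_card_image_copyToSubgraph]
  have h1 : num H G = #(univ : Finset (H.Copy G)) := by
    unfold num
    symm
    apply Finset.card_bij (fun (f : H.Copy G) _ => (f : W → V))
    · intro f _
      simp only [injs, mem_filter, mem_univ, true_and]
      exact ⟨f.injective, fun a b hab => f.toHom.map_adj hab⟩
    · intro f _ g _ h
      exact DFunLike.coe_injective h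
    · intro f hf
      simp only [injs, mem_filter, mem_univ, true_and] at hf
      exact ⟨⟨⟨f, fun {a b} hab => hf.2 a b hab⟩, hf.1⟩, mem_univ _, rfl⟩
  rw [h1, Finset.card_eq_sum_card_image (fun f : H.Copy G => f.toSubgraph) univ, Finset.card_eq_sum_ones, Finset.sum_mul]
  apply Finset.sum_congr rfl
  intro G' hG'
  rw [one_mul]
  rw [Finset.mem_image] at hG'
  obtain ⟨f₀, _, hf₀⟩ := hG'
  rw [← Finset.card_univ]
  symm
  apply Finset.card_bij (fun (α : H ≃g H) _ => f₀.comp α.toCopy)
  · intro α _
    simp only [mem_filter, mem_univ, true_and]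
    rw [← hf₀]
    ext x y
    · rw [toSubgraph_verts, toSubgraph_verts]
      constructor
      · rintro ⟨a, ha⟩
        exact ⟨α a, ha⟩
      · rintro ⟨a, ha⟩
        refine ⟨α.symm a, ?_⟩
        rw [← ha]
        change f₀ (α (α.symm a)) = f₀ a
        rw [α.apply_symm_apply]
    · rw [toSubgraph_adj, toSubgraph_adj]
      constructor
      · rintro ⟨a, b, hab, ha, hb⟩
        exact ⟨α a, α b, α.map_adj_iff.mpr hab, ha, hb⟩
      · rintro ⟨a, b, hab, ha, hb⟩
        refine ⟨α.symm a, α.symm b, α.symm.map_adj_iff.mpr hab, ?_, ?_⟩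
        · rw [← ha]; change f₀ (α (α.symm a)) = f₀ a; rw [α.apply_symm_apply]
        · rw [← hb]; change f₀ (α (α.symm b)) = f₀ b; rw [α.apply_symm_apply]
  · intro α _ β _ hαβ
    ext a
    have := congrArg (fun f : H.Copy G => f a) hαβ
    exact f₀.injective this
  · intro f hf
    simp only [mem_filter, mem_univ, true_and] at hf
    obtain ⟨α, hα⟩ := exists_aut f₀ f (by rw [hf, hf₀])
    refine ⟨α, mem_univ _, ?_⟩
    ext a
    exact (hα a).symm

lemma copyCount_le_of_num (H : SimpleGraph W) (G G' : SimpleGraph V) (h : num H G ≤ num H G') :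
    G.copyCount H ≤ G'.copyCount H := by
  classical
  rw [num_eq_copyCount, num_eq_copyCount] at h
  have : 0 < Fintype.card (H ≃g H) := Fintype.card_pos_iff.mpr ⟨SimpleGraph.Iso.refl⟩
  exact Nat.le_of_mul_le_mul_right h this

end H67Blow
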