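import Pool.Agent.H67.Blow.Fold

open Finset Fintype

namespace H67Blow

variable {V W : Type*} [Fintype V] [Fintype W]

open Classical in
/-- clean maps -/
noncomputable def clean (H : SimpleGraph W) (G : SimpleGraph V) (u v w : W) (x x' y : V)
    (D : Finset V) : Finset (W → V) :=
  univ.filter (fun g => (g u = x ∧ g v = x ∧ g w = y ∧ IsHom H G g) ∧ (∀ a, a ≠ v → g a ≠ x') ∧
    (∀ a b, a ≠ v → b ≠ v → g a = g b → a = b) ∧ (∀ a, a ≠ u → a ≠ v → a ≠ w → g a ∉ D))

open Classical in
lemma clean_count [Nonempty V] (H : SimpleGraph W) (u v w : W) (huv : u ≠ v) (hwu : H.Adj w u)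
    (hwv : H.Adj w v) (G : SimpleGraph V) (κ : ℝ)
    (x x' y : V) (hp : κ * ((card V : ℝ) ^ (card W) / (card V : ℝ) ^ 3) ≤
      (#(univ.filter (fun g : W → V => g u = x ∧ g v = x ∧ g w = y ∧ IsHom H G g)) : ℝ))
    (hxy : G.Adj x y) (hxx' : x ≠ x') (hyx' : y ≠ x') (D : Finset V) :
    κ * ((card V : ℝ) ^ (card W) / (card V : ℝ) ^ 3)
      - ((card W : ℝ) + (card W : ℝ) ^ 2 + (card W : ℝ) * #D) *
        ((card V : ℝ) ^ (card W) / (card V : ℝ) ^ 4)
    ≤ (#(clean H G u v w x x' y D) : ℝ) := by
  have huw : u ≠ w := hwu.ne'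
  have hvw : v ≠ w := hwv.ne'
  set P := univ.filter (fun g : W → V => g u = x ∧ g v = x ∧ g w = y ∧ IsHom H G g) with hPdef
  set c4 : ℝ := (card V : ℝ) ^ (card W) / (card V : ℝ) ^ 4 with hc4
  have hc4' : 0 ≤ c4 := by positivity
  let O : Finset W := univ.filter (fun a => a ≠ u ∧ a ≠ v ∧ a ≠ w)
  have hO : (#O : ℝ) ≤ card W := by
    have : #O ≤ card W := by
      refine (Finset.card_filter_le _ _).trans ?_
      rw [Finset.card_univ]
    exact_mod_cast this
  let E1 : Finset (W → V) := O.biUnion (fun a => P.filter (fun g => g a = x'))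
  let E2 : Finset (W → V) := (O ×ˢ (univ : Finset W)).biUnion
    (fun p => P.filter (fun g => p.1 ≠ p.2 ∧ g p.1 = g p.2))
  let E3 : Finset (W → V) := O.biUnion (fun a => P.filter (fun g => g a ∈ D))
  have hcover : P ⊆ ((clean H G u v w x x' y D ∪ E1) ∪ E2) ∪ E3 := by
    intro g hg
    by_contra hcon
    simp only [mem_union, not_or] at hcon
    obtain ⟨⟨⟨h0, h1⟩, h2⟩, h3⟩ := hcon
    apply h0
    have hg' : g u = x ∧ g v = x ∧ g w = y ∧ IsHom H G g := by
      simpa [hPdef] using hg
    simp only [clean, mem_filter, mem_univ, true_and]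
    refine ⟨hg', ?_, ?_, ?_⟩
    · intro a hav hax'
      by_cases hau : a = u
      · rw [hau, hg'.1] at hax'; exact hxx' hax'
      by_cases haw : a = w
      · rw [haw, hg'.2.2.1] at hax'; exact hyx' hax'
      apply h1
      simp only [E1, mem_biUnion, mem_filter]
      exact ⟨a, by simp [O, hau, hav, haw], hg, hax'⟩
    · intro a b hav hbv hab
      by_contra hne
      by_cases haO : a ∈ O
      · apply h2
        simp only [E2, mem_biUnion, mem_filter, mem_product]
        exact ⟨(a, b), ⟨haO, mem_univ _⟩, hg, hne, hab⟩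
      by_cases hbO : b ∈ O
      · apply h2
        simp only [E2, mem_biUnion, mem_filter, mem_product]
        exact ⟨(b, a), ⟨hbO, mem_univ _⟩, hg, fun h => hne h.symm, hab.symm⟩
      have ha : a = u ∨ a = w := by
        by_contra! h
        exact haO (by simp [O, h.1, hav, h.2])
      have hb : b = u ∨ b = w := by
        by_contra! h
        exact hbO (by simp [O, h.1, hbv, h.2])
      have hxy' : x ≠ y := hxy.ne
      rcases ha with rfl | rfl <;> rcases hb with rfl | rfl
      · exact hne rfl
      · rw [hg'.1, hg'.2.2.1] at hab; exact hxy' hab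
      · rw [hg'.1, hg'.2.2.1] at hab; exact hxy' hab.symm
      · exact hne rfl
    · intro a hau hav haw haD
      apply h3
      simp only [E3, mem_biUnion, mem_filter]
      exact ⟨a, by simp [O, hau, hav, haw], hg, haD⟩
  have hPpins : ∀ g ∈ P, g u ∈ ({x} : Finset V) ∧ g v ∈ ({x} : Finset V) ∧ g w ∈ ({y} : Finset V) := by
    intro g hg
    have hg' : g u = x ∧ g v = x ∧ g w = y ∧ IsHom H G g := by
      simpa [hPdef] using hg
    simp [hg'.1, hg'.2.1, hg'.2.2.1]
  have b1 : (#E1 : ℝ) ≤ (card W : ℝ) * c4 := by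
    have h1 : (#E1 : ℝ) ≤ ∑ a ∈ O, (#(P.filter (fun g => g a = x')) : ℝ) := by
      exact_mod_cast Finset.card_biUnion_le
    refine h1.trans ((Finset.sum_le_sum (g := fun _ => c4) ?_).trans ?_)
    · intro a ha
      simp only [O, mem_filter, mem_univ, true_and] at ha
      have := pin4 (V := V) u v w a huv huw ha.1.symm hvw ha.2.1.symm ha.2.2.symm {x} {x} {y} {x'}
        (P.filter (fun g => g a = x')) (by
          intro g hg
          rw [mem_filter] at hg
          obtain ⟨p1, p2, p3⟩ := hPpins g hg.1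
          exact ⟨p1, p2, p3, by simp [hg.2]⟩)
      simpa using this
    · rw [Finset.sum_const, nsmul_eq_mul]
      exact mul_le_mul_of_nonneg_right hO hc4'
  have b2 : (#E2 : ℝ) ≤ (card W : ℝ) ^ 2 * c4 := by
    have h1 : (#E2 : ℝ) ≤ ∑ p ∈ O ×ˢ (univ : Finset W),
        (#(P.filter (fun g => p.1 ≠ p.2 ∧ g p.1 = g p.2)) : ℝ) := by
      exact_mod_cast Finset.card_biUnion_le
    refine h1.trans ((Finset.sum_le_sum (g := fun _ => c4) ?_).trans ?_)
    · rintro ⟨a, b⟩ hab
      simp only [O, mem_product, mem_filter, mem_univ, true_and, and_true] at hab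
      by_cases hne : a = b
      · subst hne
        simp [hc4']
      have := pin3_eq (V := V) u v w huv huw hvw {x} {x} {y} a b hab.1 hab.2.1 hab.2.2 hne
        (P.filter (fun g => (a, b).1 ≠ (a, b).2 ∧ g (a, b).1 = g (a, b).2)) (by
          intro g hg
          rw [mem_filter] at hg
          exact ⟨hPpins g hg.1, hg.2.2⟩)
      simpa using this
    · rw [Finset.sum_const, nsmul_eq_mul]
      apply mul_le_mul_of_nonneg_right _ hc4'
      rw [Finset.card_product, Finset.card_univ]
      push_cast
      nlinarith [hO, (Nat.cast_nonneg (card W) : (0:ℝ) ≤ card W)]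
  have b3 : (#E3 : ℝ) ≤ (card W : ℝ) * #D * c4 := by
    have h1 : (#E3 : ℝ) ≤ ∑ a ∈ O, (#(P.filter (fun g => g a ∈ D)) : ℝ) := by
      exact_mod_cast Finset.card_biUnion_le
    refine h1.trans ((Finset.sum_le_sum (g := fun _ => (#D : ℝ) * c4) ?_).trans ?_)
    · intro a ha
      simp only [O, mem_filter, mem_univ, true_and] at ha
      have := pin4 (V := V) u v w a huv huw ha.1.symm hvw ha.2.1.symm ha.2.2.symm {x} {x} {y} D
        (P.filter (fun g => g a ∈ D)) (by
          intro g hg
          rw [mem_filter] at hg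
          obtain ⟨p1, p2, p3⟩ := hPpins g hg.1
          exact ⟨p1, p2, p3, hg.2⟩)
      simpa using this
    · rw [Finset.sum_const, nsmul_eq_mul, mul_assoc]
      exact mul_le_mul_of_nonneg_right hO (by positivity)
  have htot : (#P : ℝ) ≤ #(clean H G u v w x x' y D) + #E1 + #E2 + #E3 := by
    have h1 := Finset.card_le_card hcover
    have h2 := Finset.card_union_le ((clean H G u v w x x' y D ∪ E1) ∪ E2) E3
    have h3 := Finset.card_union_le (clean H G u v w x x' y D ∪ E1) E2
    have h4 := Finset.card_union_le (clean H G u v w x x' y D) E1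
    have : #P ≤ #(clean H G u v w x x' y D) + #E1 + #E2 + #E3 := by omega
    exact_mod_cast this
  have hp' : κ * ((card V : ℝ) ^ (card W) / (card V : ℝ) ^ 3) ≤ (#P : ℝ) := hp
  nlinarith [hp', htot, b1, b2, b3]

open Classical in
/-- a clean map gives a good map -/
lemma clean_good (H : SimpleGraph W) (G : SimpleGraph V) (u v w : W)
    (huv : u ≠ v) (hwu : H.Adj w u) (hwv : H.Adj w v) (x x' y : V) (hxx' : x ≠ x')
    (hnadj : ¬ G.Adj x x') (hxy : G.Adj x y) (hx'y : ¬ G.Adj x' y)
    (g : W → V) (hg : g ∈ clean H G u v w x x' y (dif G x x')) :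
    (Function.update g v x' ∈ both W x x' ∧ few G x x' (Function.update g v x') ∧
      (IsHom H G (fun a => cl x' x (Function.update g v x' a)) ∨
        IsHom H G (fun a => cl x x' (Function.update g v x' a))) ∧
      ¬ IsHom H G (Function.update g v x') ∧
      ¬ IsHom H G (fun a => Equiv.swap x x' (Function.update g v x' a))) := by
  simp only [clean, mem_filter, mem_univ, true_and] at hg
  obtain ⟨⟨g1, g2, g3, g4⟩, g5, g6, g7⟩ := hg
  have hwv' : w ≠ v := hwv.ne
  have hyx : y ≠ x := hxy.ne'
  have hyx' : y ≠ x' := by rintro rfl; exact hnadj hxy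
  have fu : Function.update g v x' u = x := by rw [Function.update_of_ne huv, g1]
  have fv : Function.update g v x' v = x' := by simp
  have fw : Function.update g v x' w = y := by rw [Function.update_of_ne hwv', g3]
  have hxD : x ∉ dif G x x' := by
    rw [mem_dif]
    have h1 : ¬ G.Adj x x := G.irrefl
    have h2 : ¬ G.Adj x' x := fun h => hnadj h.symm
    tauto
  have hx'D : x' ∉ dif G x x' := by
    rw [mem_dif]
    have h1 : ¬ G.Adj x' x' := G.irrefl
    tauto
  refine ⟨?_, ?_, ?_, ?_, ?_⟩
  · simp only [both, mem_filter, mem_univ, true_and]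
    refine ⟨?_, ⟨u, fu⟩, ⟨v, fv⟩⟩
    intro a b hab
    by_cases ha : a = v
    · by_cases hb : b = v
      · rw [ha, hb]
      · rw [ha, fv, Function.update_of_ne hb] at hab
        exact absurd hab.symm (g5 b hb)
    · by_cases hb : b = v
      · rw [hb, fv, Function.update_of_ne ha] at hab
        exact absurd hab (g5 a ha)
      · rw [Function.update_of_ne ha, Function.update_of_ne hb] at hab
        exact g6 a b ha hb hab
  · intro a b ha hb
    have key : ∀ c, Function.update g v x' c ∈ dif G x x' → c = w := by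
      intro c hc
      by_contra hcw
      by_cases hcv : c = v
      · rw [hcv, fv] at hc; exact hx'D hc
      · by_cases hcu : c = u
        · rw [hcu, fu] at hc; exact hxD hc
        · rw [Function.update_of_ne hcv] at hc
          exact g7 c hcu hcv hcw hc
    rw [key a ha, key b hb]
  · left
    have : (fun a => cl x' x (Function.update g v x' a)) = g := by
      funext a
      by_cases ha : a = v
      · rw [ha, fv, cl_self, g2]
      · rw [Function.update_of_ne ha, cl_of_ne (g5 a ha)]
    rw [this]; exact g4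
  · intro h
    have := h w v hwv
    rw [fw, fv] at this
    exact hx'y this.symm
  · intro h
    have := h w u hwu
    simp only [fw, fu, Equiv.swap_apply_left, Equiv.swap_apply_of_ne_of_ne hyx hyx'] at this
    exact hx'y this.symm

open Classical in
/-- bound for the number of bad maps -/
lemma bad_le [Nonempty V] (G : SimpleGraph V) (x x' : V) (hxx' : x ≠ x') (hnadj : ¬ G.Adj x x') :
    (#((both W x x').filter (fun f => ¬ few G x x' f)) : ℝ) ≤
      (card W : ℝ) ^ 4 * ((#(dif G x x') : ℝ) ^ 2 * ((card V : ℝ) ^ (card W) / (card V : ℝ) ^ 4)) := by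
  have hxD : x ∉ dif G x x' := by
    rw [mem_dif]
    have h1 : ¬ G.Adj x x := G.irrefl
    have h2 : ¬ G.Adj x' x := fun h => hnadj h.symm
    tauto
  have hx'D : x' ∉ dif G x x' := by
    rw [mem_dif]
    have h1 : ¬ G.Adj x' x' := G.irrefl
    tauto
  let Qd : Finset (W × W × W × W) := univ.filter (fun p => p.1 ≠ p.2.1 ∧ p.1 ≠ p.2.2.1 ∧
    p.1 ≠ p.2.2.2 ∧ p.2.1 ≠ p.2.2.1 ∧ p.2.1 ≠ p.2.2.2 ∧ p.2.2.1 ≠ p.2.2.2)
  have h1 : (both W x x').filter (fun f => ¬ few G x x' f) ⊆
      Qd.biUnion (fun p => univ.filter (fun f : W → V => f p.1 = x ∧ f p.2.1 = x' ∧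
        f p.2.2.1 ∈ dif G x x' ∧ f p.2.2.2 ∈ dif G x x')) := by
    intro f hf
    simp only [mem_filter, both, mem_univ, true_and, few, not_forall] at hf
    obtain ⟨⟨hi, ⟨u, hu⟩, ⟨v, hv⟩⟩, a, b, ha, hb, hab⟩ := hf
    simp only [mem_biUnion, mem_filter, mem_univ, true_and, Qd]
    refine ⟨(u, v, a, b), ⟨?_, ?_, ?_, ?_, ?_, hab⟩, hu, hv, ha, hb⟩
    · intro h; have h' : u = v := h; rw [h', hv] at hu; exact hxx' hu.symm
    · intro h; have h' : u = a := h; rw [← h', hu] at ha; exact hxD ha
    · intro h; have h' : u = b := h; rw [← h', hu] at hb; exact hxD hb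
    · intro h; have h' : v = a := h; rw [← h', hv] at ha; exact hx'D ha
    · intro h; have h' : v = b := h; rw [← h', hv] at hb; exact hx'D hb
  have h2 : (#((both W x x').filter (fun f => ¬ few G x x' f)) : ℝ) ≤
      ∑ p ∈ Qd, (#(univ.filter (fun f : W → V => f p.1 = x ∧ f p.2.1 = x' ∧
        f p.2.2.1 ∈ dif G x x' ∧ f p.2.2.2 ∈ dif G x x')) : ℝ) := by
    exact_mod_cast (Finset.card_le_card h1).trans Finset.card_biUnion_le
  refine h2.trans ((Finset.sum_le_sum (g := fun _ => (#(dif G x x') : ℝ) ^ 2 *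
    ((card V : ℝ) ^ (card W) / (card V : ℝ) ^ 4)) ?_).trans ?_)
  · rintro ⟨a, b, c, d⟩ hp
    simp only [Qd, mem_filter, mem_univ, true_and] at hp
    obtain ⟨n1, n2, n3, n4, n5, n6⟩ := hp
    have := pin4 (V := V) a b c d n1 n2 n3 n4 n5 n6 {x} {x'} (dif G x x') (dif G x x')
      (univ.filter (fun f : W → V => f a = x ∧ f b = x' ∧ f c ∈ dif G x x' ∧ f d ∈ dif G x x'))
      (by intro f hf; simpa using hf)
    simp only [card_singleton, Nat.cast_one, one_mul] at this
    refine this.trans (le_of_eq ?_)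
    ring
  · rw [Finset.sum_const, nsmul_eq_mul]
    apply mul_le_mul_of_nonneg_right _ (by positivity)
    have : #Qd ≤ card W ^ 4 := by
      refine (Finset.card_filter_le _ _).trans ?_
      rw [Finset.card_univ]
      simp only [Fintype.card_prod]
      apply le_of_eq; ring
    exact_mod_cast this

open Classical in
/-- **Gap lemma**: in an extremal graph, distinct nonadjacent vertices are twins or far apart. -/
lemma gap [Nonempty V] (H : SimpleGraph W) (u v w : W) (huv : u ≠ v) (hwu : H.Adj w u)
    (hwv : H.Adj w v) (G : SimpleGraph V) (hG : Ext H G) (κ : ℝ)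
    (hfold : ∀ x y : V, G.Adj x y → κ * ((card V : ℝ) ^ (card W) / (card V : ℝ) ^ 3) ≤
      (#(univ.filter (fun g : W → V => g u = x ∧ g v = x ∧ g w = y ∧ IsHom H G g)) : ℝ))
    (x x' : V) (hxx' : x ≠ x') (hnadj : ¬ G.Adj x x') (hD : (dif G x x').Nonempty) :
    κ * card V ≤ ((card W : ℝ) + (card W : ℝ) ^ 2) +
      ((card W : ℝ) + 2 * (card W : ℝ) ^ 4) * #(dif G x x') := by
  have hwv' : w ≠ v := hwv.ne
  set D := dif G x x' with hDdef
  let gy : V → Finset (W → V) := fun y =>
    if G.Adj x y then (clean H G u v w x x' y D).image (fun g => Function.update g v x')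
    else (clean H G u v w x' x y D).image (fun g => Function.update g v x)
  have hgy_good : ∀ y ∈ D, ∀ f ∈ gy y, (f ∈ both W x x' ∧ few G x x' f ∧
      (IsHom H G (fun a => cl x' x (f a)) ∨ IsHom H G (fun a => cl x x' (f a))) ∧
      ¬ IsHom H G f ∧ ¬ IsHom H G (fun a => Equiv.swap x x' (f a))) ∧ f w = y := by
    intro y hy f hf
    rw [hDdef, mem_dif] at hy
    by_cases hxy : G.Adj x y
    · have hx'y : ¬ G.Adj x' y := by tauto
      simp only [gy, hxy, if_true, mem_image] at hf
      obtain ⟨g, hg, rfl⟩ := hf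
      refine ⟨clean_good H G u v w huv hwu hwv x x' y hxx' hnadj hxy hx'y g hg, ?_⟩
      simp only [clean, mem_filter, mem_univ, true_and] at hg
      rw [Function.update_of_ne hwv']; exact hg.1.2.2.1
    · have hx'y : G.Adj x' y := by tauto
      simp only [gy, hxy, if_false, mem_image] at hf
      obtain ⟨g, hg, rfl⟩ := hf
      have hg2 : g ∈ clean H G u v w x' x y (dif G x' x) := by
        rw [dif_comm G x' x]; exact hg
      have := clean_good H G u v w huv hwu hwv x' x y hxx'.symm (fun h => hnadj h.symm) hx'y hxy g hg2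
      obtain ⟨t1, t2, t3, t4, t5⟩ := this
      refine ⟨⟨by rw [both_comm]; exact t1, ?_, t3.symm, t4, ?_⟩, ?_⟩
      · unfold few; rw [dif_comm G x x']; exact t2
      · rw [Equiv.swap_comm]; exact t5
      · simp only [clean, mem_filter, mem_univ, true_and] at hg
        rw [Function.update_of_ne hwv']; exact hg.1.2.2.1
  let Good : Finset (W → V) := D.biUnion gy
  have hgood := good_le_bad H G hG x x' hxx' hnadj Good (by
    intro f hf
    simp only [Good, mem_biUnion] at hf
    obtain ⟨y, hy, hf⟩ := hf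
    exact (hgy_good y hy f hf).1)
  have hcard : #Good = ∑ y ∈ D, #(gy y) := by
    apply Finset.card_biUnion
    intro y hy y' hy' hne
    rw [Function.onFun, Finset.disjoint_left]
    intro f hf hf'
    have e1 := (hgy_good y hy f hf).2
    have e2 := (hgy_good y' hy' f hf').2
    exact hne (e1.symm.trans e2)
  set c3 : ℝ := (card V : ℝ) ^ (card W) / (card V : ℝ) ^ 3 with hc3
  set c4 : ℝ := (card V : ℝ) ^ (card W) / (card V : ℝ) ^ 4 with hc4
  have hn : (0 : ℝ) < card V := by positivity
  have hc4pos : 0 < c4 := by positivity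
  have hc34 : c3 = card V * c4 := by rw [hc3, hc4]; field_simp
  have hgy_card : ∀ y ∈ D, κ * c3
      - ((card W : ℝ) + (card W : ℝ) ^ 2 + (card W : ℝ) * #D) * c4 ≤ (#(gy y) : ℝ) := by
    intro y hy
    rw [hDdef, mem_dif] at hy
    by_cases hxy : G.Adj x y
    · have hx'y : ¬ G.Adj x' y := by tauto
      have hyx' : y ≠ x' := by rintro rfl; exact hnadj hxy
      have := clean_count H u v w huv hwu hwv G κ x x' y (hfold x y hxy) hxy hxx' hyx' D
      simp only [gy, hxy, if_true]
      rw [Finset.card_image_of_injOn]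
      · exact this
      · intro g hg g' hg' h
        simp only [clean, coe_filter, mem_univ, true_and, Set.mem_ofPred_eq] at hg hg'
        funext a
        by_cases ha : a = v
        · rw [ha, hg.1.2.1, hg'.1.2.1]
        · have := congrFun h a
          simpa [Function.update_of_ne ha] using this
    · have hx'y : G.Adj x' y := by tauto
      have hyx : y ≠ x := by rintro rfl; exact hnadj hx'y.symm
      have := clean_count H u v w huv hwu hwv G κ x' x y (hfold x' y hx'y) hx'y hxx'.symm hyx D
      simp only [gy, hxy, if_false]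
      rw [Finset.card_image_of_injOn]
      · exact this
      · intro g hg g' hg' h
        simp only [clean, coe_filter, mem_univ, true_and, Set.mem_ofPred_eq] at hg hg'
        funext a
        by_cases ha : a = v
        · rw [ha, hg.1.2.1, hg'.1.2.1]
        · have := congrFun h a
          simpa [Function.update_of_ne ha] using this
  have hsum : (#D : ℝ) * (κ * c3
      - ((card W : ℝ) + (card W : ℝ) ^ 2 + (card W : ℝ) * #D) * c4) ≤ (#Good : ℝ) := by
    rw [hcard]; push_cast
    calc _ = ∑ y ∈ D, (κ * c3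
      - ((card W : ℝ) + (card W : ℝ) ^ 2 + (card W : ℝ) * #D) * c4) := by
          rw [Finset.sum_const, nsmul_eq_mul]
      _ ≤ _ := Finset.sum_le_sum hgy_card
  have hbad := bad_le (W := W) G x x' hxx' hnadj
  have hgood' : (#Good : ℝ) ≤ 2 * #((both W x x').filter (fun f => ¬ few G x x' f)) := by
    exact_mod_cast hgood
  have hDpos : (0 : ℝ) < #D := by exact_mod_cast hD.card_pos
  have hfin : (#D : ℝ) * (κ * c3
      - ((card W : ℝ) + (card W : ℝ) ^ 2 + (card W : ℝ) * #D) * c4) ≤
      2 * ((card W : ℝ) ^ 4 * ((#D : ℝ) ^ 2 * c4)) := by linarith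
  rw [hc34] at hfin
  have hfin2 : ((#D : ℝ) * c4) * (κ * card V) ≤
      ((#D : ℝ) * c4) * (((card W : ℝ) + (card W : ℝ) ^ 2) +
      ((card W : ℝ) + 2 * (card W : ℝ) ^ 4) * #D) := by nlinarith
  exact le_of_mul_le_mul_left hfin2 (by positivity)

end H67Blow
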