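import Pool.Agent.H67.Blow.Regular
import Pool.Agent.H67.Blow.Gap
import Pool.Agent.H67.Blow.CopyCount

open Finset Fintype

namespace H67Blow

variable {V W : Type*} [Fintype V] [Fintype W]

/-- being twins -/
def Twin {V : Type*} (G : SimpleGraph V) (x x' : V) : Prop := ∀ y, G.Adj x y ↔ G.Adj x' y

open Classical in
/-- if near vertices are twins and `G` is close to `G'`, which is defined on few parts,
then `G` is a blow-up of a graph with few vertices. -/
lemma few_classes [Nonempty V] (G : SimpleGraph V) (θ : ℝ) (hθ : 0 < θ)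
    (hnear : ∀ x x' : V, (#(dif G x x') : ℝ) < θ * card V → Twin G x x')
    (P : Finpartition (univ : Finset V)) (G' : SimpleGraph V)
    (hG' : ∀ U ∈ P.parts, ∀ a ∈ U, ∀ a' ∈ U, ∀ b, G'.Adj a b ↔ G'.Adj a' b)
    (hclose : (#(univ.filter (fun p : V × V => ¬ (G.Adj p.1 p.2 ↔ G'.Adj p.1 p.2))) : ℝ) ≤
      (θ / 4) ^ 2 * (card V : ℝ) ^ 2) (B : ℕ) (hB : #P.parts ≤ B) :
    ∃ (R : SimpleGraph (Fin (B + 2 ^ B))) (φ : V → Fin (B + 2 ^ B)), G = R.comap φ := by
  have hn : (0 : ℝ) < card V := by positivity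
  let bad : V → Finset V := fun x => univ.filter (fun y => ¬ (G.Adj x y ↔ G'.Adj x y))
  let core : Finset V := univ.filter (fun x => (#(bad x) : ℝ) ≤ θ / 4 * card V)
  have hsum : (#(univ.filter (fun p : V × V => ¬ (G.Adj p.1 p.2 ↔ G'.Adj p.1 p.2))) : ℝ) =
      ∑ x : V, (#(bad x) : ℝ) := by
    have : #(univ.filter (fun p : V × V => ¬ (G.Adj p.1 p.2 ↔ G'.Adj p.1 p.2))) =
      ∑ x : V, #(bad x) := by
      rw [← Finset.univ_product_univ]
      simp only [bad, Finset.card_filter]
      rw [Finset.sum_product]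
    rw [this]; push_cast; rfl
  -- the complement of the core is small
  have hcompl : (#(univ.filter (fun x => x ∉ core)) : ℝ) ≤ θ / 4 * card V := by
    have h1 : (#(univ.filter (fun x => x ∉ core)) : ℝ) * (θ / 4 * card V) ≤
        ∑ x : V, (#(bad x) : ℝ) := by
      calc (#(univ.filter (fun x => x ∉ core)) : ℝ) * (θ / 4 * card V)
          = ∑ _x ∈ univ.filter (fun x => x ∉ core), (θ / 4 * card V) := by
            rw [Finset.sum_const, nsmul_eq_mul]
        _ ≤ ∑ x ∈ univ.filter (fun x => x ∉ core), (#(bad x) : ℝ) := by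
            apply Finset.sum_le_sum
            intro x hx
            simp only [core, mem_filter, mem_univ, true_and, not_le] at hx
            exact hx.le
        _ ≤ ∑ x : V, (#(bad x) : ℝ) :=
            Finset.sum_le_sum_of_subset_of_nonneg (Finset.filter_subset _ _)
              (fun _ _ _ => Nat.cast_nonneg _)
    have h2 : (#(univ.filter (fun x => x ∉ core)) : ℝ) * (θ / 4 * card V) ≤
        (θ / 4 * card V) * (θ / 4 * card V) := by
      calc _ ≤ ∑ x : V, (#(bad x) : ℝ) := h1
        _ = _ := hsum.symm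
        _ ≤ _ := hclose
        _ = _ := by ring
    exact le_of_mul_le_mul_right h2 (by positivity)
  -- core vertices in the same part are twins
  have hcore : ∀ U ∈ P.parts, ∀ x ∈ U, ∀ x' ∈ U, x ∈ core → x' ∈ core → Twin G x x' := by
    intro U hU x hx x' hx' hxc hx'c
    apply hnear
    have h1 : dif G x x' ⊆ bad x ∪ bad x' := by
      intro y hy
      rw [mem_dif] at hy
      simp only [bad, mem_union, mem_filter, mem_univ, true_and]
      have := hG' U hU x hx x' hx' y
      tauto
    have h2 : (#(dif G x x') : ℝ) ≤ #(bad x) + #(bad x') := by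
      exact_mod_cast (Finset.card_le_card h1).trans (Finset.card_union_le _ _)
    simp only [core, mem_filter, mem_univ, true_and] at hxc hx'c
    have : 0 < θ * card V := by positivity
    linarith
  -- the key
  let τ : V → Finset (Finset V) := fun x => P.parts.filter (fun U => ∃ y ∈ U, y ∈ core ∧ G.Adj x y)
  have hnoncore : ∀ x x', τ x = τ x' → Twin G x x' := by
    intro x x' hτ
    apply hnear
    have h1 : dif G x x' ⊆ univ.filter (fun x => x ∉ core) := by
      intro y hy
      rw [mem_dif] at hy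
      simp only [mem_filter, mem_univ, true_and]
      intro hyc
      apply hy
      have hyU : y ∈ P.part y := P.mem_part (mem_univ y)
      have hU : P.part y ∈ P.parts := P.part_mem.mpr (mem_univ y)
      have key : ∀ z z' : V, τ z = τ z' → G.Adj z y → G.Adj z' y := by
        intro z z' hzz hzy
        have : P.part y ∈ τ z := by
          simp only [τ, mem_filter]
          exact ⟨hU, y, hyU, hyc, hzy⟩
        rw [hzz] at this
        simp only [τ, mem_filter] at this
        obtain ⟨_, y', hy'U, hy'c, hy'⟩ := this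
        have := hcore _ hU y' hy'U y hyU hy'c hyc z'
        exact (this.mp hy'.symm).symm
      exact ⟨key x x' hτ, key x' x hτ.symm⟩
    have h2 : (#(dif G x x') : ℝ) ≤ #(univ.filter (fun x => x ∉ core)) := by
      exact_mod_cast Finset.card_le_card h1
    have : 0 < θ * card V := by positivity
    linarith
  let key : V → (Finset V) ⊕ (Finset (Finset V)) := fun x =>
    if x ∈ core then Sum.inl (P.part x) else Sum.inr (τ x)
  have hkey : ∀ x x', key x = key x' → Twin G x x' := by
    intro x x' h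
    by_cases hx : x ∈ core
    · by_cases hx' : x' ∈ core
      · simp only [key, hx, hx', if_true, Sum.inl.injEq] at h
        have hU : P.part x ∈ P.parts := P.part_mem.mpr (mem_univ x)
        refine hcore _ hU x (P.mem_part (mem_univ x)) x' ?_ hx hx'
        rw [h]; exact P.mem_part (mem_univ x')
      · simp [key, hx, hx'] at h
    · by_cases hx' : x' ∈ core
      · simp [key, hx, hx'] at h
      · simp only [key, hx, hx', if_false, Sum.inr.injEq] at h
        exact hnoncore x x' h
  have himg : #(univ.image key) ≤ B + 2 ^ B := by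
    have h1 : univ.image key ⊆ P.parts.image Sum.inl ∪ P.parts.powerset.image Sum.inr := by
      intro k hk
      simp only [mem_image, mem_univ, true_and] at hk
      obtain ⟨x, rfl⟩ := hk
      simp only [mem_union, mem_image]
      by_cases hx : x ∈ core
      · left
        exact ⟨P.part x, P.part_mem.mpr (mem_univ x), by simp [key, hx]⟩
      · right
        refine ⟨τ x, ?_, by simp [key, hx]⟩
        rw [Finset.mem_powerset]
        exact Finset.filter_subset _ _
    calc #(univ.image key) ≤ #(P.parts.image Sum.inl ∪ P.parts.powerset.image Sum.inr) :=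
          Finset.card_le_card h1
      _ ≤ #(P.parts.image Sum.inl : Finset ((Finset V) ⊕ (Finset (Finset V)))) +
          #(P.parts.powerset.image Sum.inr : Finset ((Finset V) ⊕ (Finset (Finset V)))) :=
          Finset.card_union_le _ _
      _ ≤ #P.parts + #P.parts.powerset := Nat.add_le_add Finset.card_image_le Finset.card_image_le
      _ = #P.parts + 2 ^ #P.parts := by rw [Finset.card_powerset]
      _ ≤ B + 2 ^ B := Nat.add_le_add hB (Nat.pow_le_pow_right (by norm_num) hB)
  -- a map to Fin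
  let I := univ.image key
  let e : I → Fin (B + 2 ^ B) := fun i => Fin.castLE himg (I.equivFin i)
  have he : Function.Injective e := by
    intro i j h
    exact I.equivFin.injective (Fin.castLE_injective himg h)
  let φ : V → Fin (B + 2 ^ B) := fun x => e ⟨key x, Finset.mem_image_of_mem key (mem_univ x)⟩
  have hφ : ∀ x x', φ x = φ x' → Twin G x x' := by
    intro x x' h
    apply hkey
    have := he h
    exact congrArg Subtype.val this
  let R : SimpleGraph (Fin (B + 2 ^ B)) :=
    { Adj := fun i j => ∃ x y, φ x = i ∧ φ y = j ∧ G.Adj x y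
      symm := ⟨by rintro i j ⟨x, y, hx, hy, hxy⟩; exact ⟨y, x, hy, hx, hxy.symm⟩⟩
      loopless := ⟨by
        rintro i ⟨x, y, hx, hy, hxy⟩
        have := hφ x y (hx.trans hy.symm) y
        exact G.irrefl (this.mp hxy)⟩ }
  refine ⟨R, φ, ?_⟩
  ext x y
  rw [SimpleGraph.comap_adj]
  constructor
  · intro h; exact ⟨x, y, rfl, rfl, h⟩
  · rintro ⟨x', y', hx, hy, h⟩
    have h1 := (hφ x' x hx y').mp h
    exact ((hφ y' y hy x).mp h1.symm).symm

open Classical in
/-- boundedly many twin classes in extremal graphs -/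
lemma main_bound (H : SimpleGraph W) (col : W → Bool)
    (hcol : ∀ a b, H.Adj a b → col a ≠ col b) (u v w : W) (huv : u ≠ v) (hwu : H.Adj w u)
    (hwv : H.Adj w v) :
    ∃ (B n₀ : ℕ), ∀ (V : Type) [Fintype V] (G : SimpleGraph V), n₀ ≤ card V → Ext H G →
      ∃ (R : SimpleGraph (Fin B)) (φ : V → Fin B), G = R.comap φ := by
  have hH : ∃ a b, H.Adj a b := ⟨w, u, hwu⟩
  have hWne : Nonempty W := ⟨w⟩
  have hh : (1 : ℝ) ≤ card W := by
    have : 1 ≤ card W := Fintype.card_pos
    exact_mod_cast this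
  set h : ℝ := (card W : ℝ) with hhdef
  set c : ℝ := (1 / 3 : ℝ) ^ ((card W) ^ 2) with hc
  have hcpos : 0 < c := by positivity
  have hc1 : c ≤ 1 := pow_le_one₀ (by norm_num) (by norm_num)
  set δ : ℝ := c / (2 * h) with hδ
  have hδ0 : 0 < δ := by positivity
  have hδ1 : δ ≤ 1 := by
    rw [hδ, div_le_one (by positivity)]; linarith
  set τ : ℝ := c ^ 2 / (384 * h ^ 5) with hτ
  have hτ0 : 0 < τ := by positivity
  have hτ1 : τ ≤ 1 := by
    rw [hτ, div_le_one (by positivity)]
    have h1 : c ^ 2 ≤ 1 := pow_le_one₀ hcpos.le hc1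
    have h2 : (1 : ℝ) ≤ h ^ 5 := one_le_pow₀ hh
    linarith
  set κ : ℝ := τ ^ ((card W) ^ 2) with hκ
  have hκ0 : 0 < κ := by positivity
  set K1 : ℝ := h + h ^ 2 with hK1
  set K2 : ℝ := h + 2 * h ^ 4 with hK2
  have hK1pos : 0 < K1 := by positivity
  have hK2pos : 0 < K2 := by positivity
  set θ : ℝ := min δ (κ / (2 * K2)) with hθdef
  have hθ : 0 < θ := lt_min hδ0 (by positivity)
  have hθδ : θ ≤ δ := min_le_left _ _
  have hθκ : θ ≤ κ / (2 * K2) := min_le_right _ _
  set t : ℝ := (θ / 4) ^ 2 / 4 with ht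
  have ht0 : 0 < t := by positivity
  have ht1 : t ≤ 1 := by
    have : θ ≤ 1 := hθδ.trans hδ1
    rw [ht]; nlinarith
  set s : ℝ := t ^ ((card W) ^ 2) with hs
  have hs0 : 0 < s := by positivity
  set ε : ℝ := min t (s / (4 * h ^ 2)) with hε
  have hε0 : 0 < ε := lt_min ht0 (by positivity)
  have hεt : ε ≤ t := min_le_left _ _
  have hεs : ε ≤ s / (4 * h ^ 2) := min_le_right _ _
  have hε1 : ε ≤ 1 := hεt.trans ht1
  let B₀ := SzemerediRegularity.bound (ε / 8) ⌈4 / ε⌉₊
  let n₀ : ℕ := ⌈16 * h ^ 2 / c⌉₊ + ⌈2 * K1 / κ⌉₊ + ⌈2 * h ^ 2 / s⌉₊ + ⌈4 / ε⌉₊ + 2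
  refine ⟨B₀ + 2 ^ B₀, n₀, ?_⟩
  intro V _ G hn hG
  have hVpos : 2 ≤ card V := by omega
  have hVne : Nonempty V := Fintype.card_pos_iff.mp (by omega)
  set n : ℝ := (card V : ℝ) with hndef
  have hnpos : 0 < n := by positivity
  have hn1 : 16 * h ^ 2 / c ≤ n := by
    refine (Nat.le_ceil _).trans ?_
    have : ⌈16 * h ^ 2 / c⌉₊ ≤ card V := by omega
    rw [hndef]; exact_mod_cast this
  have hn2 : 2 * K1 / κ ≤ n := by
    refine (Nat.le_ceil _).trans ?_
    have : ⌈2 * K1 / κ⌉₊ ≤ card V := by omega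
    rw [hndef]; exact_mod_cast this
  have hn3 : 2 * h ^ 2 / s ≤ n := by
    refine (Nat.le_ceil _).trans ?_
    have : ⌈2 * h ^ 2 / s⌉₊ ≤ card V := by omega
    rw [hndef]; exact_mod_cast this
  have hn4 : ⌈4 / ε⌉₊ ≤ card V := by omega
  have hn1' : 16 * h ^ 2 ≤ c * n := by
    rw [div_le_iff₀ hcpos] at hn1; linarith
  -- degrees
  have hdeg : ∀ x : V, δ * card V ≤ (#(univ.filter (fun p => G.Adj p x)) : ℝ) := by
    intro x
    refine ext_degree H hH col hcol G hG hVpos ?_ x
    have : 0 ≤ h ^ 2 := by positivity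
    have h4 : 4 * h ^ 2 ≤ 16 * h ^ 2 := by linarith
    exact h4.trans hn1'
  -- folded copies
  have hfold : ∀ x y : V, G.Adj x y → κ * ((card V : ℝ) ^ (card W) / (card V : ℝ) ^ 3) ≤
      (#(univ.filter (fun g : W → V => g u = x ∧ g v = x ∧ g w = y ∧ IsHom H G g)) : ℝ) := by
    intro x y hxy
    have hcr := cross_lower H hH col hcol G hG hVpos hn1' x y hxy
    exact fold_count H col hcol u v w huv hwu hwv G hG.1 τ hτ0 hτ1 x y hxy hcr
  -- near vertices are twins
  have hnear : ∀ x x' : V, (#(dif G x x') : ℝ) < θ * card V → Twin G x x' := by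
    intro x x' hd
    by_cases hxx' : x = x'
    · subst hxx'; intro y; rfl
    by_cases hadj : G.Adj x x'
    · exfalso
      have h1 : univ.filter (fun p => G.Adj p x) ⊆ dif G x x' := by
        intro y hy
        simp only [mem_filter, mem_univ, true_and] at hy
        rw [mem_dif]
        intro h
        exact tf_not G hG.1 hadj hy.symm (h.mp hy.symm)
      have h2 : (#(univ.filter (fun p => G.Adj p x)) : ℝ) ≤ #(dif G x x') := by
        exact_mod_cast Finset.card_le_card h1
      have h3 := hdeg x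
      have h4 : θ * n ≤ δ * n := mul_le_mul_of_nonneg_right hθδ hnpos.le
      linarith
    · by_contra hnt
      have hne : (dif G x x').Nonempty := by
        unfold Twin at hnt
        push Not at hnt
        obtain ⟨y, hy⟩ := hnt
        refine ⟨y, ?_⟩
        rw [mem_dif]; tauto
      have hg := gap H u v w huv hwu hwv G hG κ hfold x x' hxx' hadj hne
      have h1 : (#(dif G x x') : ℝ) < κ / (2 * K2) * n :=
        lt_of_lt_of_le hd (mul_le_mul_of_nonneg_right hθκ hnpos.le)
      have h2 : K2 * (#(dif G x x') : ℝ) < κ * n / 2 := by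
        calc K2 * (#(dif G x x') : ℝ) < K2 * (κ / (2 * K2) * n) :=
              mul_lt_mul_of_pos_left h1 hK2pos
          _ = κ * n / 2 := by field_simp
      have h3 : 2 * K1 ≤ κ * n := by
        rw [div_le_iff₀ hκ0] at hn2; linarith
      have h4 : κ * n ≤ K1 + K2 * #(dif G x x') := hg
      linarith
  -- regularity
  obtain ⟨P, G', hPB, hG'tf, hG'part, hold⟩ := exists_reduced G hG.1 ε hε0 hε1 hn4
  have hnew := few_new H hH col hcol G hG G' hG'tf (2 * ε) hold
  set N := #(univ.filter (fun p : V × V => G'.Adj p.1 p.2 ∧ ¬ G.Adj p.1 p.2)) with hN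
  set O := #(univ.filter (fun p : V × V => G.Adj p.1 p.2 ∧ ¬ G'.Adj p.1 p.2)) with hO
  have hNt : (N : ℝ) / n ^ 2 ≤ t := by
    by_contra hcon
    push Not at hcon
    have h1 : s < ((N : ℝ) / n ^ 2) ^ ((card W) ^ 2) := by
      rw [hs]
      apply pow_lt_pow_left₀ hcon ht0.le
      have : 0 < card W := Fintype.card_pos
      positivity
    have h2 : h ^ 2 / n ≤ s / 2 := by
      rw [div_le_iff₀ hs0] at hn3
      rw [div_le_div_iff₀ hnpos (by norm_num)]
      nlinarith
    have h3 : h ^ 2 * (2 * ε) ≤ s / 2 := by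
      rw [le_div_iff₀ (by positivity)] at hεs
      nlinarith
    have h4 : ((N : ℝ) / n ^ 2) ^ ((card W) ^ 2) ≤ h ^ 2 / n + h ^ 2 * (2 * ε) := hnew
    linarith
  have hclose : (#(univ.filter (fun p : V × V => ¬ (G.Adj p.1 p.2 ↔ G'.Adj p.1 p.2))) : ℝ) ≤
      (θ / 4) ^ 2 * (card V : ℝ) ^ 2 := by
    have h1 : univ.filter (fun p : V × V => ¬ (G.Adj p.1 p.2 ↔ G'.Adj p.1 p.2)) ⊆
        univ.filter (fun p : V × V => G.Adj p.1 p.2 ∧ ¬ G'.Adj p.1 p.2) ∪
        univ.filter (fun p : V × V => G'.Adj p.1 p.2 ∧ ¬ G.Adj p.1 p.2) := by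
      intro p hp
      simp only [mem_union, mem_filter, mem_univ, true_and] at hp ⊢
      tauto
    have h2 : (#(univ.filter (fun p : V × V => ¬ (G.Adj p.1 p.2 ↔ G'.Adj p.1 p.2))) : ℝ) ≤
        O + N := by
      exact_mod_cast (Finset.card_le_card h1).trans (Finset.card_union_le _ _)
    have h3 : (O : ℝ) ≤ 2 * ε * n ^ 2 := hold
    have h4 : (N : ℝ) ≤ t * n ^ 2 := by
      rwa [div_le_iff₀ (by positivity)] at hNt
    have h5 : 2 * ε * n ^ 2 ≤ 2 * t * n ^ 2 := by
      apply mul_le_mul_of_nonneg_right _ (by positivity)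
      linarith
    have h6 : (θ / 4) ^ 2 * (card V : ℝ) ^ 2 = 4 * t * n ^ 2 := by rw [ht]; ring
    rw [h6]
    have : 0 ≤ t * n ^ 2 := by positivity
    linarith
  exact few_classes G θ hθ hnear P G' hG'part hclose B₀ hPB

/-- existence of an extremal graph -/
lemma exists_ext (H : SimpleGraph W) (V : Type*) [Fintype V] : ∃ G : SimpleGraph V, Ext H G := by
  classical
  have hne : Nonempty {G : SimpleGraph V // G.CliqueFree 3} :=
    ⟨⟨⊥, by
      intro t ht
      rw [SimpleGraph.is3Clique_iff] at ht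
      obtain ⟨a, b, c, hab, _⟩ := ht
      exact hab⟩⟩
  obtain ⟨⟨G, hG⟩, hmax⟩ := Finite.exists_max (fun G : {G : SimpleGraph V // G.CliqueFree 3} => num H G.1)
  exact ⟨G, hG, fun G' hG' => hmax ⟨G', hG'⟩⟩

/-- **Theorem**, labelled version. -/
theorem blowup_num (H : SimpleGraph W) (col : W → Bool)
    (hcol : ∀ a b, H.Adj a b → col a ≠ col b) (u v w : W) (huv : u ≠ v) (hwu : H.Adj w u)
    (hwv : H.Adj w v) :
    ∃ (m : ℕ) (G₀ : SimpleGraph (Fin m)) (n₀ : ℕ), ∀ n ≥ n₀, ∃ φ : Fin n → Fin m,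
      Ext H (G₀.comap φ) := by
  classical
  obtain ⟨B, n₀, hB⟩ := main_bound H col hcol u v w huv hwu hwv
  -- universal graph
  let X := (SimpleGraph (Fin B)) × Fin B
  let U : SimpleGraph X :=
    { Adj := fun p q => p.1 = q.1 ∧ p.1.Adj p.2 q.2
      symm := ⟨by rintro ⟨R, i⟩ ⟨R', j⟩ ⟨h1, h2⟩; subst h1; exact ⟨rfl, h2.symm⟩⟩
      loopless := ⟨by rintro ⟨R, i⟩ ⟨_, h⟩; exact R.irrefl h⟩ }
  have : Fintype X := Fintype.ofFinite X
  let e : X ≃ Fin (card X) := Fintype.equivFin X
  refine ⟨card X, U.comap e.symm, n₀, ?_⟩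
  intro n hn
  obtain ⟨G, hG⟩ := exists_ext H (Fin n)
  obtain ⟨R, φ, hR⟩ := hB (Fin n) G (by simpa using hn) hG
  refine ⟨fun x => e (R, φ x), ?_⟩
  have : (U.comap e.symm).comap (fun x => e (R, φ x)) = G := by
    rw [hR]
    ext x y
    simp [U]
  rw [this]; exact hG

end H67Blow
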