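import Mathlib

/-!
Counting lemmas for generalized Turán problems in triangle-free graphs.
-/

open Finset Fintype

namespace H67Blow

open Classical in
/-- injective homomorphisms `H → G`, as functions. -/
noncomputable def injs {V W : Type*} [Fintype V] [Fintype W]
    (H : SimpleGraph W) (G : SimpleGraph V) : Finset (W → V) :=
  univ.filter (fun f => Function.Injective f ∧ ∀ a b, H.Adj a b → G.Adj (f a) (f b))

/-- number of labelled copies of `H` in `G`. -/
noncomputable def num {V W : Type*} [Fintype V] [Fintype W]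
    (H : SimpleGraph W) (G : SimpleGraph V) : ℕ := (injs H G).card

def IsHom {V W : Type*} (H : SimpleGraph W) (G : SimpleGraph V) (f : W → V) : Prop :=
  ∀ a b, H.Adj a b → G.Adj (f a) (f b)

lemma jensen' {ι : Type*} (s : Finset ι) (f : ι → ℝ) (hf : ∀ i ∈ s, 0 ≤ f i) (a : ℝ) (ha : 0 ≤ a)
    (h : (#s : ℝ) * a ≤ ∑ i ∈ s, f i) (m : ℕ) : (#s : ℝ) * a ^ m ≤ ∑ i ∈ s, f i ^ m := by
  rcases s.eq_empty_or_nonempty with rfl | hs
  · simp
  have hc : (0 : ℝ) < #s := by exact_mod_cast hs.card_pos
  have key := Real.pow_arith_mean_le_arith_mean_pow s (fun _ => (1 : ℝ) / #s) f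
    (fun _ _ => by positivity) (by rw [Finset.sum_const, nsmul_eq_mul]; field_simp) hf m
  rw [← Finset.mul_sum, ← Finset.mul_sum] at key
  have h1 : a ^ m ≤ (1 / (#s : ℝ) * ∑ i ∈ s, f i) ^ m := by
    apply pow_le_pow_left₀ ha
    rw [one_div, inv_mul_eq_div, le_div_iff₀ hc]
    linarith
  have h2 : a ^ m ≤ 1 / (#s : ℝ) * ∑ i ∈ s, f i ^ m := h1.trans key
  rw [one_div, inv_mul_eq_div, le_div_iff₀ hc] at h2
  linarith

section kst
variable {V : Type*} [Fintype V] 

open Classical in
/-- Kővári–Sós–Turán type counting: number of (ordered, possibly degenerate) `K_{L,R}` with the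
`R`-side inside `T`. -/
lemma kst (G : SimpleGraph V) (T : Finset V) (β : ℝ) (hβ : 0 ≤ β)
    (hT : β * card V * #T ≤ ∑ t ∈ T, (#(univ.filter (fun p => G.Adj p t)) : ℝ))
    (L R : Type*) [Fintype L] [Fintype R] :
    β ^ (card L * card R) * (card V : ℝ) ^ (card L) * (#T : ℝ) ^ (card R) ≤
      (#(univ.filter (fun pt : (L → V) × (R → V) =>
        (∀ j, pt.2 j ∈ T) ∧ ∀ i j, G.Adj (pt.1 i) (pt.2 j))) : ℝ) := by
  -- common neighbourhoods
  let CN : (R → V) → Finset V := fun t => univ.filter (fun p => ∀ j, G.Adj p (t j))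
  let TR : Finset (R → V) := Fintype.piFinset (fun _ => T)
  have hTR : (#TR : ℝ) = (#T : ℝ) ^ (card R) := by
    simp [TR, Fintype.card_piFinset]
  -- count as sum
  have hcount : (#(univ.filter (fun pt : (L → V) × (R → V) =>
        (∀ j, pt.2 j ∈ T) ∧ ∀ i j, G.Adj (pt.1 i) (pt.2 j))) : ℝ)
      = ∑ t ∈ TR, (#(CN t) : ℝ) ^ (card L) := by
    have h1 : (univ.filter (fun pt : (L → V) × (R → V) =>
        (∀ j, pt.2 j ∈ T) ∧ ∀ i j, G.Adj (pt.1 i) (pt.2 j)))
        = TR.biUnion (fun t => (Fintype.piFinset (fun _ : L => CN t)).image (fun p => (p, t))) := by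
      ext ⟨p, t⟩
      simp only [mem_filter, mem_univ, true_and, mem_biUnion, mem_image, TR, CN,
        Fintype.mem_piFinset, Prod.mk.injEq]
      constructor
      · rintro ⟨h1, h2⟩
        exact ⟨t, h1, p, fun i j => h2 i j, rfl, rfl⟩
      · rintro ⟨t', h1, p', h2, rfl, rfl⟩
        exact ⟨h1, fun i j => h2 i j⟩
    rw [h1, Finset.card_biUnion]
    · push_cast
      apply Finset.sum_congr rfl
      intro t _
      rw [Finset.card_image_of_injective _ (fun a b h => (Prod.mk.inj h).1)]
      simp [Fintype.card_piFinset]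
    · intro t _ t' _ htt'
      rw [Function.onFun, Finset.disjoint_left]
      rintro ⟨p, s⟩ h1 h2
      simp only [mem_image, Prod.mk.injEq] at h1 h2
      obtain ⟨_, _, _, rfl⟩ := h1
      obtain ⟨_, _, _, rfl⟩ := h2
      exact htt' rfl
  rw [hcount]
  -- sum of codegrees
  have hsum : ∑ t ∈ TR, (#(CN t) : ℝ) = ∑ p : V, (#(T.filter (fun t => G.Adj p t)) : ℝ) ^ (card R) := by
    have h1 : ∀ t ∈ TR, (#(CN t) : ℝ) = ∑ p : V, (if ∀ j, G.Adj p (t j) then (1:ℝ) else 0) := by
      intro t _
      simp [CN, Finset.sum_boole]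
    rw [Finset.sum_congr rfl h1, Finset.sum_comm]
    apply Finset.sum_congr rfl
    intro p _
    rw [Finset.sum_boole]
    have : TR.filter (fun t => ∀ j, G.Adj p (t j))
        = Fintype.piFinset (fun _ : R => T.filter (fun t => G.Adj p t)) := by
      ext t
      simp [TR, Fintype.mem_piFinset, forall_and]
    rw [this, Fintype.card_piFinset]
    simp
  have hdeg : ∑ p : V, (#(T.filter (fun t => G.Adj p t)) : ℝ)
      = ∑ t ∈ T, (#(univ.filter (fun p => G.Adj p t)) : ℝ) := by
    have h1 : ∀ p ∈ (univ : Finset V), (#(T.filter (fun t => G.Adj p t)) : ℝ)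
        = ∑ t ∈ T, (if G.Adj p t then (1:ℝ) else 0) := by
      intro p _; rw [Finset.sum_boole]
    rw [Finset.sum_congr rfl h1, Finset.sum_comm]
    apply Finset.sum_congr rfl
    intro t _
    rw [Finset.sum_boole]
  have hJ1 : (card V : ℝ) * (β * #T) ^ (card R) ≤ ∑ t ∈ TR, (#(CN t) : ℝ) := by
    rw [hsum]
    have := jensen' (univ : Finset V) (fun p => (#(T.filter (fun t => G.Adj p t)) : ℝ))
      (fun _ _ => by positivity) (β * #T) (by positivity)
      (by rw [hdeg, Finset.card_univ]; linarith) (card R)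
    rwa [Finset.card_univ] at this
  have hJ2 := jensen' TR (fun t => (#(CN t) : ℝ)) (fun _ _ => by positivity)
    (β ^ (card R) * card V) (by positivity)
    (by
      rw [hTR]
      calc (#T : ℝ) ^ (card R) * (β ^ (card R) * card V) = (card V : ℝ) * (β * #T) ^ (card R) := by
            rw [mul_pow]; ring
        _ ≤ _ := hJ1) (card L)
  rw [hTR] at hJ2
  calc β ^ (card L * card R) * (card V : ℝ) ^ (card L) * (#T : ℝ) ^ (card R)
      = (#T : ℝ) ^ (card R) * (β ^ (card R) * card V) ^ (card L) := by
        rw [mul_pow, ← pow_mul, Nat.mul_comm (card R)]; ring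
    _ ≤ _ := hJ2

open Classical in
/-- rooted counting of bipartite graphs in graphs of linear minimum degree. -/
lemma rooted (G : SimpleGraph V) (δ : ℝ) (hδ0 : 0 < δ) (hδ1 : δ ≤ 1)
    (hdeg : ∀ x : V, δ * card V ≤ (#(univ.filter (fun p => G.Adj p x)) : ℝ))
    (Q : Type*) [Fintype Q] (K : SimpleGraph Q) (col : Q → Bool)
    (hcol : ∀ a b, K.Adj a b → col a ≠ col b) (q : Q) (x : V) :
    δ ^ ((card Q) ^ 2) * (card V : ℝ) ^ (card Q - 1) ≤
      (#(univ.filter (fun g : Q → V => g q = x ∧ ∀ a b, K.Adj a b → G.Adj (g a) (g b))) : ℝ) := by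
  let L := {a : Q // col a = col q ∧ a ≠ q}
  let R := {a : Q // col a ≠ col q}
  let T : Finset V := univ.filter (fun p => G.Adj p x)
  have hT : δ * card V * #T ≤ ∑ t ∈ T, (#(univ.filter (fun p => G.Adj p t)) : ℝ) := by
    calc δ * card V * #T = ∑ t ∈ T, δ * card V := by rw [Finset.sum_const, nsmul_eq_mul]; ring
      _ ≤ _ := Finset.sum_le_sum (fun t _ => hdeg t)
  have hk := kst G T δ hδ0.le hT L R
  have hTc : δ * card V ≤ (#T : ℝ) := hdeg x
  -- cardinalities
  have hLR : card L + card R = card Q - 1 := by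
    have h1 : card L + card R + 1 = card Q := by
      have hs : card {a : Q // col a = col q} + card {a : Q // ¬ col a = col q} = card Q := by
        have h1 := Fintype.card_subtype_compl (fun a : Q => col a = col q)
        have h2 := Fintype.card_subtype_le (fun a : Q => col a = col q)
        omega
      have h2 : card {a : Q // col a = col q} = card L + 1 := by
        rw [Fintype.card_subtype, Fintype.card_subtype]
        have : (univ.filter (fun a : Q => col a = col q ∧ a ≠ q))
            = (univ.filter (fun a : Q => col a = col q)).erase q := by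
          ext a; simp [and_comm]
        rw [this, Finset.card_erase_of_mem (by simp)]
        have : 0 < #(univ.filter (fun a : Q => col a = col q)) :=
          Finset.card_pos.mpr ⟨q, by simp⟩
        omega
      change card L + card {a : Q // col a ≠ col q} + 1 = card Q
      have h3 : card {a : Q // col a ≠ col q} = card {a : Q // ¬ col a = col q} := rfl
      omega
    omega
  -- the injection
  let Φ : (L → V) × (R → V) → (Q → V) := fun pt a =>
    if h : col a ≠ col q then pt.2 ⟨a, h⟩
    else if h' : a = q then x else pt.1 ⟨a, not_not.mp h, h'⟩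
  have hinj : Function.Injective Φ := by
    rintro ⟨p, t⟩ ⟨p', t'⟩ h
    ext ⟨a, ha⟩
    · have := congrFun h a
      simpa [Φ, ha.1, ha.2] using this
    · have := congrFun h a
      simpa [Φ, ha] using this
  have hle : #(univ.filter (fun pt : (L → V) × (R → V) =>
        (∀ j, pt.2 j ∈ T) ∧ ∀ i j, G.Adj (pt.1 i) (pt.2 j))) ≤
      #(univ.filter (fun g : Q → V => g q = x ∧ ∀ a b, K.Adj a b → G.Adj (g a) (g b))) := by
    apply Finset.card_le_card_of_injOn Φ _ (hinj.injOn)
    rintro ⟨p, t⟩ hpt
    simp only [coe_filter, mem_univ, true_and, Set.mem_ofPred_eq] at hpt ⊢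
    obtain ⟨h1, h2⟩ := hpt
    have hTm : ∀ j, G.Adj (t j) x := fun j => by
      have := h1 j
      simpa [T] using this
    refine ⟨by simp [Φ], ?_⟩
    have key : ∀ a b, col a = col q → col b ≠ col q → G.Adj (Φ (p, t) a) (Φ (p, t) b) := by
      intro a b ha hb
      by_cases haq : a = q
      · subst haq
        simp only [Φ, ne_eq, not_true_eq_false, dite_false, dite_true, hb, not_false_eq_true]
        exact (hTm _).symm
      · simp only [Φ, ne_eq, ha, not_true_eq_false, dite_false, haq, hb, not_false_eq_true,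
          dite_true]
        exact h2 _ _
    intro a b hab
    have hc := hcol a b hab
    by_cases ha : col a = col q
    · exact key a b ha (fun h => hc (ha.trans h.symm))
    · have hb : col b = col q := by
        revert ha hc
        cases col a <;> cases col b <;> cases col q <;> simp
      exact (key b a hb ha).symm
  have hle' : ((#(univ.filter (fun pt : (L → V) × (R → V) =>
        (∀ j, pt.2 j ∈ T) ∧ ∀ i j, G.Adj (pt.1 i) (pt.2 j))) : ℕ) : ℝ) ≤
      (#(univ.filter (fun g : Q → V => g q = x ∧ ∀ a b, K.Adj a b → G.Adj (g a) (g b))) : ℝ) := by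
    exact_mod_cast hle
  refine le_trans ?_ (le_trans (hk.trans_eq (by congr <;> exact Subsingleton.elim _ _)) hle')
  have hn0 : (0:ℝ) ≤ card V := by positivity
  have e1 : (δ * card V) ^ (card R) ≤ (#T : ℝ) ^ (card R) :=
    pow_le_pow_left₀ (by positivity) hTc _
  calc δ ^ ((card Q) ^ 2) * (card V : ℝ) ^ (card Q - 1)
      ≤ δ ^ (card L * card R + card R) * (card V : ℝ) ^ (card Q - 1) := by
        apply mul_le_mul_of_nonneg_right _ (by positivity)
        apply pow_le_pow_of_le_one hδ0.le hδ1
        have hL : card L ≤ card Q - 1 := by omega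
        have hR : card R ≤ card Q := Fintype.card_subtype_le _
        have hq : 0 < card Q := Fintype.card_pos_iff.mpr ⟨q⟩
        calc card L * card R + card R = (card L + 1) * card R := by ring
          _ ≤ card Q * card Q := Nat.mul_le_mul (by omega) hR
          _ = (card Q) ^ 2 := by ring
    _ = δ ^ (card L * card R) * (card V : ℝ) ^ (card L) * (δ * card V) ^ (card R) := by
        rw [← hLR, pow_add, pow_add, mul_pow]; ring
    _ ≤ δ ^ (card L * card R) * (card V : ℝ) ^ (card L) * (#T : ℝ) ^ (card R) := by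
        apply mul_le_mul_of_nonneg_left e1 (by positivity)

end kst

end H67Blow
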