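import Pool.Agent.H67.Blow.Pins

open Finset Fintype

namespace H67Blow

variable {V W : Type*} [Fintype V] [Fintype W]

lemma cliqueFree_comap {V V' : Type*} (G : SimpleGraph V) (φ : V' → V) (hG : G.CliqueFree 3) :
    (G.comap φ).CliqueFree 3 := by
  classical
  intro t ht
  rw [SimpleGraph.is3Clique_iff] at ht
  obtain ⟨a, b, c, hab, hac, hbc, rfl⟩ := ht
  exact hG {φ a, φ b, φ c} (SimpleGraph.is3Clique_iff.mpr ⟨_, _, _, hab, hac, hbc, rfl⟩)

lemma tf_not {V : Type*} (G : SimpleGraph V) (hG : G.CliqueFree 3) {a b c : V}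
    (hab : G.Adj a b) (hac : G.Adj a c) (hbc : G.Adj b c) : False := by
  classical
  exact hG {a, b, c} (SimpleGraph.is3Clique_iff.mpr ⟨_, _, _, hab, hac, hbc, rfl⟩)

/-- `G` is an extremal triangle-free graph for `H`. -/
def Ext (H : SimpleGraph W) (G : SimpleGraph V) : Prop :=
  G.CliqueFree 3 ∧ ∀ G' : SimpleGraph V, G'.CliqueFree 3 → num H G' ≤ num H G

open Classical in
/-- collapse `x` to `z` -/
noncomputable def cl (x z : V) : V → V := fun a => if a = x then z else a

lemma cl_of_ne {V : Type*} {x z a : V} (h : a ≠ x) : cl x z a = a := by simp [cl, h]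
lemma cl_self {V : Type*} {x z : V} : cl x z x = z := by simp [cl]

lemma mem_injs {H : SimpleGraph W} {G : SimpleGraph V} {f : W → V} :
    f ∈ injs H G ↔ Function.Injective f ∧ ∀ a b, H.Adj a b → G.Adj (f a) (f b) := by
  simp [injs]

open Classical in
/-- copies hitting `x` with a non-isolated vertex -/
noncomputable def hits (H : SimpleGraph W) (G : SimpleGraph V) (x : V) : Finset (W → V) :=
  (injs H G).filter (fun f => ∃ a, (∃ b, H.Adj a b) ∧ f a = x)

open Classical in
lemma clone_ineq (H : SimpleGraph W) (G : SimpleGraph V) (hG : Ext H G) (x z : V) (hxz : x ≠ z) :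
    #((hits H G z).filter (fun f => ¬ ∃ a, (∃ b, H.Adj a b) ∧ f a = x)) ≤ #(hits H G x) := by
  have hext := hG.2 (G.comap (cl x z)) (cliqueFree_comap _ _ hG.1)
  let A := (injs H G).filter (fun f => ¬ ∃ a, (∃ b, H.Adj a b) ∧ f a = x)
  let B := (hits H G z).filter (fun f => ¬ ∃ a, (∃ b, H.Adj a b) ∧ f a = x)
  let sw : (W → V) → (W → V) := fun f a => Equiv.swap z x (f a)
  have hsw : Function.Injective sw := by
    intro f g h
    funext a
    have := congrFun h a
    exact (Equiv.swap z x).injective this
  have hsub : A ∪ B.image sw ⊆ injs H (G.comap (cl x z)) := by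
    intro f hf
    rw [mem_union] at hf
    rcases hf with hf | hf
    · simp only [A, mem_filter, mem_injs, not_exists, not_and] at hf
      rw [mem_injs]
      refine ⟨hf.1.1, fun a b hab => ?_⟩
      rw [SimpleGraph.comap_adj, cl_of_ne (hf.2 a ⟨b, hab⟩), cl_of_ne (hf.2 b ⟨a, hab.symm⟩)]
      exact hf.1.2 a b hab
    · rw [mem_image] at hf
      obtain ⟨g, hg, rfl⟩ := hf
      simp only [B, hits, mem_filter, mem_injs, not_exists, not_and] at hg
      rw [mem_injs]
      refine ⟨fun a b h => hg.1.1.1 ((Equiv.swap z x).injective h), fun a b hab => ?_⟩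
      have key : ∀ c d, H.Adj c d → cl x z (sw g c) = g c := by
        intro c d hcd
        have h1 := hg.2 c ⟨d, hcd⟩
        by_cases h2 : g c = z
        · simp only [sw, h2, Equiv.swap_apply_left, cl_self]
        · simp only [sw, Equiv.swap_apply_of_ne_of_ne h2 h1]
          exact cl_of_ne h1
      rw [SimpleGraph.comap_adj, key a b hab, key b a hab.symm]
      exact hg.1.1.2 a b hab
  have hdisj : Disjoint A (B.image sw) := by
    rw [Finset.disjoint_left]
    intro f hf hf'
    rw [mem_image] at hf'
    obtain ⟨g, hg, rfl⟩ := hf'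
    simp only [A, B, hits, mem_filter, not_exists, not_and] at hf hg
    obtain ⟨⟨_, a, ⟨b, hab⟩, ha⟩, _⟩ := hg
    exact hf.2 a ⟨b, hab⟩ (by simp [sw, ha])
  have h1 : #A + #B ≤ num H G := by
    calc #A + #B = #(A ∪ B.image sw) := by
          rw [Finset.card_union_of_disjoint hdisj, Finset.card_image_of_injective _ hsw]
      _ ≤ #(injs H (G.comap (cl x z))) := Finset.card_le_card hsub
      _ ≤ num H G := hext
  have h2 : #(hits H G x) + #A = num H G := by
    unfold num hits
    exact Finset.card_filter_add_card_filter_not _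
  change #B ≤ _
  omega

open Classical in
/-- minimum degree of an extremal graph -/
lemma min_degree [Nonempty V] (H : SimpleGraph W) (hH : ∃ a b, H.Adj a b) (G : SimpleGraph V)
    (hG : Ext H G) (x : V) :
    (num H G : ℝ) / card V ≤
      (card W : ℝ) * (#(univ.filter (fun p => G.Adj p x)) : ℝ) *
        ((card V : ℝ) ^ (card W) / (card V : ℝ) ^ 2)
      + (card W : ℝ) ^ 2 * ((card V : ℝ) ^ (card W) / (card V : ℝ) ^ 2) := by
  have hn : (0 : ℝ) < card V := by positivity
  -- a vertex with many copies
  obtain ⟨z, hz⟩ : ∃ z : V, num H G ≤ card V * #(hits H G z) := by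
    by_contra! hcon
    have h1 : num H G ≤ ∑ z : V, #(hits H G z) := by
      have : num H G = ∑ f ∈ injs H G, 1 := by simp [num]
      rw [this]
      have h2 : ∑ z : V, #(hits H G z) =
          ∑ f ∈ injs H G, #(univ.filter (fun z => ∃ a, (∃ b, H.Adj a b) ∧ f a = z)) := by
        simp only [hits, Finset.card_filter]
        rw [Finset.sum_comm]
      rw [h2]
      apply Finset.sum_le_sum
      intro f _
      obtain ⟨a, b, hab⟩ := hH
      exact Finset.card_pos.mpr ⟨f a, by simp only [mem_filter, mem_univ, true_and]; exact ⟨a, ⟨b, hab⟩, rfl⟩⟩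
    have h3 : card V * ∑ z : V, #(hits H G z) < card V * num H G := by
      rw [Finset.mul_sum]
      calc ∑ z : V, card V * #(hits H G z) < ∑ _z : V, num H G :=
            Finset.sum_lt_sum_of_nonempty univ_nonempty (fun z _ => hcon z)
        _ = card V * num H G := by simp [Finset.card_univ]
    have := Nat.mul_le_mul_left (card V) h1
    omega
  have hz' : (num H G : ℝ) / card V ≤ #(hits H G z) := by
    rw [div_le_iff₀ hn]
    have : (num H G : ℝ) ≤ (card V : ℝ) * #(hits H G z) := by exact_mod_cast hz
    linarith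
  -- from z to x
  have hzx : (#(hits H G z) : ℝ) ≤ #(hits H G x) +
      (card W : ℝ) ^ 2 * ((card V : ℝ) ^ (card W) / (card V : ℝ) ^ 2) := by
    by_cases hxz : x = z
    · subst hxz
      have : 0 ≤ (card W : ℝ) ^ 2 * ((card V : ℝ) ^ (card W) / (card V : ℝ) ^ 2) := by positivity
      linarith
    have h1 := clone_ineq H G hG x z hxz
    have h2 : #((hits H G z).filter (fun f => ∃ a, (∃ b, H.Adj a b) ∧ f a = x)) +
        #((hits H G z).filter (fun f => ¬ ∃ a, (∃ b, H.Adj a b) ∧ f a = x)) = #(hits H G z) :=
      Finset.card_filter_add_card_filter_not _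
    have h3 : (hits H G z).filter (fun f => ∃ a, (∃ b, H.Adj a b) ∧ f a = x) ⊆
        (univ.filter (fun p : W × W => p.1 ≠ p.2)).biUnion
          (fun p => univ.filter (fun f : W → V => f p.1 = z ∧ f p.2 = x)) := by
      intro f hf
      simp only [hits, mem_filter] at hf
      obtain ⟨⟨_, a, _, ha⟩, b, _, hb⟩ := hf
      simp only [mem_biUnion, mem_filter, mem_univ, true_and]
      refine ⟨(a, b), ?_, ha, hb⟩
      intro hab
      have hab' : a = b := hab
      rw [hab', hb] at ha
      exact hxz ha
    have h4 : (#((hits H G z).filter (fun f => ∃ a, (∃ b, H.Adj a b) ∧ f a = x)) : ℝ) ≤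
        ∑ p ∈ univ.filter (fun p : W × W => p.1 ≠ p.2),
          (#(univ.filter (fun f : W → V => f p.1 = z ∧ f p.2 = x)) : ℝ) := by
      exact_mod_cast (Finset.card_le_card h3).trans Finset.card_biUnion_le
    have h5 : (#((hits H G z).filter (fun f => ∃ a, (∃ b, H.Adj a b) ∧ f a = x)) : ℝ) ≤
        (card W : ℝ) ^ 2 * ((card V : ℝ) ^ (card W) / (card V : ℝ) ^ 2) := by
      refine h4.trans ((Finset.sum_le_sum (fun p hp => pin2 p.1 p.2 (by simpa using hp) {z} {x} _
        (fun f hf => by simpa using hf))).trans ?_)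
      rw [Finset.sum_const, nsmul_eq_mul]
      simp only [card_singleton, Nat.cast_one, one_mul]
      apply mul_le_mul_of_nonneg_right _ (by positivity)
      have : #(univ.filter (fun p : W × W => p.1 ≠ p.2)) ≤ card W ^ 2 := by
        refine (Finset.card_filter_le _ _).trans ?_
        rw [Finset.card_univ, Fintype.card_prod]; nlinarith
      exact_mod_cast this
    have h6 : (#(hits H G z) : ℝ) =
        #((hits H G z).filter (fun f => ∃ a, (∃ b, H.Adj a b) ∧ f a = x)) +
        #((hits H G z).filter (fun f => ¬ ∃ a, (∃ b, H.Adj a b) ∧ f a = x)) := by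
      exact_mod_cast h2.symm
    have h7 : (#((hits H G z).filter (fun f => ¬ ∃ a, (∃ b, H.Adj a b) ∧ f a = x)) : ℝ) ≤
        #(hits H G x) := by exact_mod_cast h1
    linarith
  -- upper bound on hits x
  have hx : (#(hits H G x) : ℝ) ≤ (card W : ℝ) * (#(univ.filter (fun p => G.Adj p x)) : ℝ) *
        ((card V : ℝ) ^ (card W) / (card V : ℝ) ^ 2) := by
    have h1 : hits H G x ⊆ (univ.filter (fun a : W => ∃ b, H.Adj a b)).biUnion
        (fun a => (injs H G).filter (fun f => f a = x)) := by
      intro f hf
      simp only [hits, mem_filter] at hf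
      obtain ⟨hf, a, ha, hfa⟩ := hf
      simp only [mem_biUnion, mem_filter, mem_univ, true_and]
      exact ⟨a, ha, hf, hfa⟩
    have h2 : (#(hits H G x) : ℝ) ≤ ∑ a ∈ univ.filter (fun a : W => ∃ b, H.Adj a b),
        (#((injs H G).filter (fun f => f a = x)) : ℝ) := by
      exact_mod_cast (Finset.card_le_card h1).trans Finset.card_biUnion_le
    refine h2.trans ?_
    have h3 : ∀ a ∈ univ.filter (fun a : W => ∃ b, H.Adj a b),
        (#((injs H G).filter (fun f => f a = x)) : ℝ) ≤
        (#(univ.filter (fun p => G.Adj p x)) : ℝ) *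
        ((card V : ℝ) ^ (card W) / (card V : ℝ) ^ 2) := by
      intro a ha
      simp only [mem_filter, mem_univ, true_and] at ha
      obtain ⟨b, hab⟩ := ha
      have := pin2 (V := V) a b hab.ne {x} (univ.filter (fun p => G.Adj p x))
        ((injs H G).filter (fun f => f a = x)) (by
          intro f hf
          simp only [mem_filter, mem_injs] at hf
          simp only [mem_singleton, mem_filter, mem_univ, true_and]
          refine ⟨hf.2, ?_⟩
          have := hf.1.2 b a hab.symm
          rwa [hf.2] at this)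
      simpa using this
    refine (Finset.sum_le_sum h3).trans ?_
    rw [Finset.sum_const, nsmul_eq_mul, mul_assoc]
    apply mul_le_mul_of_nonneg_right _ (by positivity)
    have : #(univ.filter (fun a : W => ∃ b, H.Adj a b)) ≤ card W := by
      refine (Finset.card_filter_le _ _).trans ?_
      rw [Finset.card_univ]
    exact_mod_cast this
  linarith

end H67Blow
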