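import Pool.Agent.H67.Blow.Clone

open Finset Fintype

namespace H67Blow

variable {V W : Type*} [Fintype V] [Fintype W]

open Classical in
/-- counting homomorphisms of a bipartite graph into a graph with given edge density -/
lemma hom_count [Nonempty V] (H : SimpleGraph W) (col : W → Bool)
    (hcol : ∀ a b, H.Adj a b → col a ≠ col b) (G : SimpleGraph V) (β : ℝ) (hβ0 : 0 ≤ β)
    (hβ1 : β ≤ 1)
    (hsum : β * card V * card V ≤ ∑ t : V, (#(univ.filter (fun p => G.Adj p t)) : ℝ)) :
    β ^ ((card W) ^ 2) * (card V : ℝ) ^ (card W) ≤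
      (#(univ.filter (fun g : W → V => IsHom H G g)) : ℝ) := by
  let L := {a : W // col a = true}
  let R := {a : W // ¬ col a = true}
  have hk := kst G (univ : Finset V) β hβ0 (by rw [Finset.card_univ]; exact hsum) L R
  have hLR : card L + card R = card W := by
    have h1 := Fintype.card_subtype_compl (fun a : W => col a = true)
    have h2 := Fintype.card_subtype_le (fun a : W => col a = true)
    change card {a : W // col a = true} + card {a : W // ¬ col a = true} = card W
    omega
  let Φ : (L → V) × (R → V) → (W → V) := fun pt a =>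
    if h : col a = true then pt.1 ⟨a, h⟩ else pt.2 ⟨a, h⟩
  have hinj : Function.Injective Φ := by
    rintro ⟨p, t⟩ ⟨p', t'⟩ h
    ext ⟨a, ha⟩
    · have := congrFun h a
      simpa [Φ, ha] using this
    · have := congrFun h a
      simpa [Φ, ha] using this
  have hle : #(univ.filter (fun pt : (L → V) × (R → V) =>
        (∀ j, pt.2 j ∈ (univ : Finset V)) ∧ ∀ i j, G.Adj (pt.1 i) (pt.2 j))) ≤
      #(univ.filter (fun g : W → V => IsHom H G g)) := by
    apply Finset.card_le_card_of_injOn Φ _ (hinj.injOn)
    rintro ⟨p, t⟩ hpt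
    simp only [coe_filter, mem_univ, true_and, Set.mem_ofPred_eq] at hpt ⊢
    obtain ⟨_, h2⟩ := hpt
    have key : ∀ a b, col a = true → ¬ col b = true → G.Adj (Φ (p, t) a) (Φ (p, t) b) := by
      intro a b ha hb
      simp only [Φ, ha, hb, dite_true]
      exact h2 _ _
    intro a b hab
    have hc := hcol a b hab
    by_cases ha : col a = true
    · exact key a b ha (fun h => hc (ha.trans h.symm))
    · have hb : col b = true := by
        revert ha hc
        cases col a <;> cases col b <;> simp
      exact (key b a hb ha).symm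
  have hle' : ((#(univ.filter (fun pt : (L → V) × (R → V) =>
        (∀ j, pt.2 j ∈ (univ : Finset V)) ∧ ∀ i j, G.Adj (pt.1 i) (pt.2 j))) : ℕ) : ℝ) ≤
      (#(univ.filter (fun g : W → V => IsHom H G g)) : ℝ) := by
    exact_mod_cast hle
  refine le_trans ?_ (le_trans (hk.trans_eq (by congr <;> exact Subsingleton.elim _ _)) hle')
  rw [Finset.card_univ]
  have e1 : β ^ ((card W) ^ 2) ≤ β ^ (card L * card R) := by
    apply pow_le_pow_of_le_one hβ0 hβ1
    calc card L * card R ≤ card W * card W := Nat.mul_le_mul (by omega) (by omega)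
      _ = (card W) ^ 2 := by ring
  calc β ^ ((card W) ^ 2) * (card V : ℝ) ^ (card W)
      = β ^ ((card W) ^ 2) * ((card V : ℝ) ^ (card L) * (card V : ℝ) ^ (card R)) := by
        rw [← pow_add, hLR]
    _ ≤ β ^ (card L * card R) * ((card V : ℝ) ^ (card L) * (card V : ℝ) ^ (card R)) :=
        mul_le_mul_of_nonneg_right e1 (by positivity)
    _ = _ := by ring

open Classical in
/-- injective ones -/
lemma inj_count [Nonempty V] (H : SimpleGraph W) (col : W → Bool)
    (hcol : ∀ a b, H.Adj a b → col a ≠ col b) (G : SimpleGraph V) (β : ℝ) (hβ0 : 0 ≤ β)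
    (hβ1 : β ≤ 1)
    (hsum : β * card V * card V ≤ ∑ t : V, (#(univ.filter (fun p => G.Adj p t)) : ℝ)) :
    β ^ ((card W) ^ 2) * (card V : ℝ) ^ (card W) -
      (card W : ℝ) ^ 2 * ((card V : ℝ) ^ (card W) / card V) ≤ (num H G : ℝ) := by
  have h1 := hom_count H col hcol G β hβ0 hβ1 hsum
  have h2 := noninj_card_le (V := V) (W := W)
  have h3 : univ.filter (fun g : W → V => IsHom H G g) ⊆
      injs H G ∪ univ.filter (fun f : W → V => ¬ Function.Injective f) := by
    intro f hf
    simp only [mem_filter, mem_univ, true_and, mem_union, mem_injs] at hf ⊢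
    by_cases hi : Function.Injective f
    · exact Or.inl ⟨hi, hf⟩
    · exact Or.inr hi
  have h4 : (#(univ.filter (fun g : W → V => IsHom H G g)) : ℝ) ≤
      (num H G : ℝ) + #(univ.filter (fun f : W → V => ¬ Function.Injective f)) := by
    have := (Finset.card_le_card h3).trans (Finset.card_union_le _ _)
    unfold num
    exact_mod_cast this
  linarith

lemma bool_cliqueFree : (⊤ : SimpleGraph Bool).CliqueFree 3 := by
  intro t ht
  have h1 := ht.card_eq
  have h2 : #t ≤ card Bool := Finset.card_le_univ t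
  simp at h2
  omega

open Classical in
/-- lower bound for the extremal number -/
lemma ext_lower (hV : 2 ≤ card V) (H : SimpleGraph W) (col : W → Bool)
    (hcol : ∀ a b, H.Adj a b → col a ≠ col b) (G : SimpleGraph V) (hG : Ext H G) :
    (1 / 3 : ℝ) ^ ((card W) ^ 2) * (card V : ℝ) ^ (card W) -
      (card W : ℝ) ^ 2 * ((card V : ℝ) ^ (card W) / card V) ≤ (num H G : ℝ) := by
  have : Nonempty V := Fintype.card_pos_iff.mp (by omega)
  obtain ⟨A, hA1, hA2⟩ := Finset.exists_subset_card_eq (s := (univ : Finset V)) (n := card V / 2)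
    (by rw [Finset.card_univ]; omega)
  let G0 : SimpleGraph V := (⊤ : SimpleGraph Bool).comap (fun a => decide (a ∈ A))
  have hG0 : G0.CliqueFree 3 := cliqueFree_comap _ _ bool_cliqueFree
  have hle := hG.2 G0 hG0
  have hdeg : ∀ t : V, (1 / 3 : ℝ) * card V ≤ (#(univ.filter (fun p => G0.Adj p t)) : ℝ) := by
    intro t
    have hcompl : #(univ.filter (fun p : V => p ∉ A)) = card V - card V / 2 := by
      have := Finset.card_filter_add_card_filter_not (s := (univ : Finset V)) (p := fun p => p ∈ A)
      have h2 : #(univ.filter (fun p : V => p ∈ A)) = card V / 2 := by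
        rw [← hA2]; congr 1; ext p; simp
      rw [h2, Finset.card_univ] at this
      omega
    by_cases ht : t ∈ A
    · have : univ.filter (fun p => G0.Adj p t) = univ.filter (fun p : V => p ∉ A) := by
        ext p; simp [G0, ht]
      rw [this, hcompl]
      have : card V ≤ 3 * (card V - card V / 2) := by omega
      have h3 : (card V : ℝ) ≤ 3 * ((card V - card V / 2 : ℕ) : ℝ) := by exact_mod_cast this
      linarith
    · have : univ.filter (fun p => G0.Adj p t) = A := by
        ext p; simp [G0, ht]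
      rw [this, hA2]
      have : card V ≤ 3 * (card V / 2) := by omega
      have h3 : (card V : ℝ) ≤ 3 * ((card V / 2 : ℕ) : ℝ) := by exact_mod_cast this
      linarith
  have h1 := inj_count H col hcol G0 (1 / 3) (by norm_num) (by norm_num) (by
    calc (1 / 3 : ℝ) * card V * card V = ∑ _t : V, (1 / 3 : ℝ) * card V := by
          rw [Finset.sum_const, nsmul_eq_mul, Finset.card_univ]; ring
      _ ≤ ∑ t : V, (#(univ.filter (fun p => G0.Adj p t)) : ℝ) :=
          Finset.sum_le_sum (fun t _ => hdeg t)
      _ = _ := Finset.sum_congr rfl (fun t _ => by congr <;> exact Subsingleton.elim _ _))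
  have h2 : (num H G0 : ℝ) ≤ num H G := by exact_mod_cast hle
  linarith

open Classical in
/-- minimum degree in an extremal graph -/
lemma ext_degree (H : SimpleGraph W) (hH : ∃ a b, H.Adj a b) (col : W → Bool)
    (hcol : ∀ a b, H.Adj a b → col a ≠ col b) (G : SimpleGraph V) (hG : Ext H G)
    (hV : 2 ≤ card V)
    (hlarge : 4 * (card W : ℝ) ^ 2 ≤ (1 / 3 : ℝ) ^ ((card W) ^ 2) * card V) (x : V) :
    (1 / 3 : ℝ) ^ ((card W) ^ 2) / (2 * card W) * card V ≤
      (#(univ.filter (fun p => G.Adj p x)) : ℝ) := by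
  have : Nonempty V := Fintype.card_pos_iff.mp (by omega)
  have : Nonempty W := by obtain ⟨a, _⟩ := hH; exact ⟨a⟩
  have h1 := min_degree H hH G hG x
  have h2 := ext_lower hV H col hcol G hG
  have hn : (0 : ℝ) < card V := by positivity
  have hh : (0 : ℝ) < card W := by positivity
  set X : ℝ := (card V : ℝ) ^ (card W) / (card V : ℝ) ^ 2 with hX
  have hXpos : 0 < X := by positivity
  have e1 : (card V : ℝ) ^ (card W) = card V * card V * X := by rw [hX]; field_simp
  have e2 : (card V : ℝ) ^ (card W) / card V = card V * X := by rw [hX]; field_simp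
  rw [e2] at h2
  rw [e1] at h2
  set c : ℝ := (1 / 3 : ℝ) ^ ((card W) ^ 2) with hc
  set d : ℝ := (#(univ.filter (fun p => G.Adj p x)) : ℝ) with hd
  -- num / n ≥ c n X - h² X
  have h3 : c * card V * X - (card W : ℝ) ^ 2 * X ≤ (num H G : ℝ) / card V := by
    rw [le_div_iff₀ hn]; nlinarith
  have h4 : X * (c * card V - 2 * (card W : ℝ) ^ 2) ≤ X * (card W * d) := by nlinarith
  have h5 := le_of_mul_le_mul_left h4 hXpos
  rw [div_mul_eq_mul_div, div_le_iff₀ (by positivity)]
  nlinarith

open Classical in
/-- pairs of values in a relation -/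
lemma pinrel [Nonempty V] (R : Finset (V × V)) (a b : W) (hab : a ≠ b) :
    (#(univ.filter (fun f : W → V => (f a, f b) ∈ R)) : ℝ) ≤
      #R * ((card V : ℝ) ^ (card W) / (card V : ℝ) ^ 2) := by
  have h1 : univ.filter (fun f : W → V => (f a, f b) ∈ R) ⊆
      R.biUnion (fun p => univ.filter (fun f : W → V => f a = p.1 ∧ f b = p.2)) := by
    intro f hf
    simp only [mem_filter, mem_univ, true_and] at hf
    simp only [mem_biUnion, mem_filter, mem_univ, true_and]
    exact ⟨_, hf, rfl, rfl⟩
  have h2 : (#(univ.filter (fun f : W → V => (f a, f b) ∈ R)) : ℝ) ≤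
      ∑ p ∈ R, (#(univ.filter (fun f : W → V => f a = p.1 ∧ f b = p.2)) : ℝ) := by
    exact_mod_cast (Finset.card_le_card h1).trans Finset.card_biUnion_le
  refine h2.trans ((Finset.sum_le_sum (g := fun _ =>
    ((card V : ℝ) ^ (card W) / (card V : ℝ) ^ 2)) ?_).trans ?_)
  · intro p _
    have := pin2 (V := V) a b hab {p.1} {p.2}
      (univ.filter (fun f : W → V => f a = p.1 ∧ f b = p.2)) (by intro f hf; simpa using hf)
    simpa using this
  · rw [Finset.sum_const, nsmul_eq_mul]

open Classical in
/-- if `G'` is triangle-free and misses few edges of the extremal graph `G`, then it has few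
extra edges. -/
lemma few_new [Nonempty V] (H : SimpleGraph W) (hH : ∃ a b, H.Adj a b) (col : W → Bool)
    (hcol : ∀ a b, H.Adj a b → col a ≠ col b) (G : SimpleGraph V) (hG : Ext H G)
    (G' : SimpleGraph V) (hG' : G'.CliqueFree 3) (ε : ℝ)
    (hold : (#(univ.filter (fun p : V × V => G.Adj p.1 p.2 ∧ ¬ G'.Adj p.1 p.2)) : ℝ)
      ≤ ε * (card V : ℝ) ^ 2) :
    ((#(univ.filter (fun p : V × V => G'.Adj p.1 p.2 ∧ ¬ G.Adj p.1 p.2)) : ℝ) /
      (card V : ℝ) ^ 2) ^ ((card W) ^ 2) ≤
      (card W : ℝ) ^ 2 / card V + (card W : ℝ) ^ 2 * ε := by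
  have hn : (0 : ℝ) < card V := by positivity
  set N := #(univ.filter (fun p : V × V => G'.Adj p.1 p.2 ∧ ¬ G.Adj p.1 p.2)) with hN
  let E : SimpleGraph V := G' \ G
  -- counting in E
  have hsumE : ((N : ℝ) / (card V : ℝ) ^ 2) * card V * card V ≤
      ∑ t : V, (#(univ.filter (fun p => E.Adj p t)) : ℝ) := by
    have h1 : (N : ℝ) = ∑ t : V, (#(univ.filter (fun p => E.Adj p t)) : ℝ) := by
      have h2 : N = ∑ t : V, #(univ.filter (fun p => E.Adj p t)) := by
        rw [hN, ← Finset.univ_product_univ]
        simp only [Finset.card_filter]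
        rw [Finset.sum_product_right]
        simp only [E, SimpleGraph.sdiff_adj]
      rw [h2]; push_cast; rfl
    rw [← h1]
    apply le_of_eq; field_simp
  have hN1 : (N : ℝ) / (card V : ℝ) ^ 2 ≤ 1 := by
    rw [div_le_one (by positivity)]
    have : N ≤ card V ^ 2 := by
      refine (Finset.card_filter_le _ _).trans ?_
      rw [Finset.card_univ, Fintype.card_prod]; nlinarith
    exact_mod_cast this
  have h1 := inj_count H col hcol E ((N : ℝ) / (card V : ℝ) ^ 2) (by positivity) hN1
    (hsumE.trans_eq (Finset.sum_congr rfl (fun t _ => by congr <;> exact Subsingleton.elim _ _)))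
  -- those of G inside G'
  have h2 : num H E + #((injs H G).filter (fun f => ∀ a b, H.Adj a b → G'.Adj (f a) (f b)))
      ≤ num H G' := by
    unfold num
    rw [← Finset.card_union_of_disjoint]
    · apply Finset.card_le_card
      intro f hf
      rw [mem_union, mem_filter, mem_injs, mem_injs] at hf
      rw [mem_injs]
      rcases hf with ⟨hi, hf⟩ | ⟨⟨hi, _⟩, hf⟩
      · exact ⟨hi, fun a b hab => (hf a b hab).1⟩
      · exact ⟨hi, hf⟩
    · rw [Finset.disjoint_left]
      intro f hf hf'
      rw [mem_filter, mem_injs] at hf'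
      rw [mem_injs] at hf
      obtain ⟨a, b, hab⟩ := hH
      exact (hf.2 a b hab).2 (hf'.1.2 a b hab)
  have h3 := hG.2 G' hG'
  have h4 : #((injs H G).filter (fun f => ∀ a b, H.Adj a b → G'.Adj (f a) (f b))) +
      #((injs H G).filter (fun f => ¬ ∀ a b, H.Adj a b → G'.Adj (f a) (f b))) = num H G :=
    Finset.card_filter_add_card_filter_not _
  have h5 : (#((injs H G).filter (fun f => ¬ ∀ a b, H.Adj a b → G'.Adj (f a) (f b))) : ℝ) ≤
      (card W : ℝ) ^ 2 * (ε * (card V : ℝ) ^ (card W)) := by
    let R := univ.filter (fun p : V × V => G.Adj p.1 p.2 ∧ ¬ G'.Adj p.1 p.2)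
    have s1 : (injs H G).filter (fun f => ¬ ∀ a b, H.Adj a b → G'.Adj (f a) (f b)) ⊆
        (univ.filter (fun p : W × W => p.1 ≠ p.2)).biUnion
          (fun p => univ.filter (fun f : W → V => (f p.1, f p.2) ∈ R)) := by
      intro f hf
      simp only [mem_filter, mem_injs, not_forall] at hf
      obtain ⟨⟨_, hf⟩, a, b, hab, hn⟩ := hf
      simp only [mem_biUnion, mem_filter, mem_univ, true_and, R]
      exact ⟨(a, b), hab.ne, hf a b hab, hn⟩
    have s2 : (#((injs H G).filter (fun f => ¬ ∀ a b, H.Adj a b → G'.Adj (f a) (f b))) : ℝ) ≤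
        ∑ p ∈ univ.filter (fun p : W × W => p.1 ≠ p.2),
          (#(univ.filter (fun f : W → V => (f p.1, f p.2) ∈ R)) : ℝ) := by
      exact_mod_cast (Finset.card_le_card s1).trans Finset.card_biUnion_le
    refine s2.trans ((Finset.sum_le_sum (g := fun _ => ε * (card V : ℝ) ^ (card W)) ?_).trans ?_)
    · intro p hp
      have := pinrel (W := W) R p.1 p.2 (by simpa using hp)
      refine this.trans ?_
      calc (#R : ℝ) * ((card V : ℝ) ^ (card W) / (card V : ℝ) ^ 2)
          ≤ (ε * (card V : ℝ) ^ 2) * ((card V : ℝ) ^ (card W) / (card V : ℝ) ^ 2) :=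
            mul_le_mul_of_nonneg_right hold (by positivity)
        _ = ε * (card V : ℝ) ^ (card W) := by field_simp
    · rw [Finset.sum_const, nsmul_eq_mul]
      have hε : 0 ≤ ε := by
        by_contra hneg
        push Not at hneg
        have : (0 : ℝ) ≤ ε * (card V : ℝ) ^ 2 := le_trans (by positivity) hold
        have h' : ε * (card V : ℝ) ^ 2 < 0 := mul_neg_of_neg_of_pos hneg (by positivity)
        linarith
      apply mul_le_mul_of_nonneg_right _ (by positivity)
      have : #(univ.filter (fun p : W × W => p.1 ≠ p.2)) ≤ card W ^ 2 := by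
        refine (Finset.card_filter_le _ _).trans ?_
        rw [Finset.card_univ, Fintype.card_prod]; nlinarith
      exact_mod_cast this
  have h2' : (num H E : ℝ) + (#((injs H G).filter (fun f => ∀ a b, H.Adj a b → G'.Adj (f a) (f b))) : ℝ)
      ≤ num H G' := by exact_mod_cast h2
  have h3' : (num H G' : ℝ) ≤ num H G := by exact_mod_cast h3
  have h4' : (#((injs H G).filter (fun f => ∀ a b, H.Adj a b → G'.Adj (f a) (f b))) : ℝ) +
      (#((injs H G).filter (fun f => ¬ ∀ a b, H.Adj a b → G'.Adj (f a) (f b))) : ℝ) = num H G := by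
    exact_mod_cast h4
  have hX : 0 < (card V : ℝ) ^ (card W) := by positivity
  have h6 : ((N : ℝ) / (card V : ℝ) ^ 2) ^ ((card W) ^ 2) * (card V : ℝ) ^ (card W) ≤
      ((card W : ℝ) ^ 2 / card V + (card W : ℝ) ^ 2 * ε) * (card V : ℝ) ^ (card W) := by
    have e : (card W : ℝ) ^ 2 * ((card V : ℝ) ^ (card W) / card V) =
      (card W : ℝ) ^ 2 / card V * (card V : ℝ) ^ (card W) := by ring
    rw [e] at h1
    nlinarith
  exact le_of_mul_le_mul_right h6 hX

end H67Blow
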