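import Pool.Agent.H67.Blow.Clone

open Finset Fintype

namespace H67Blow

variable {V W : Type*} [Fintype V] [Fintype W]

open Classical in
/-- injective maps hitting both `x` and `x'` -/
noncomputable def both (W : Type*) [Fintype W] (x x' : V) : Finset (W → V) :=
  univ.filter (fun f => Function.Injective f ∧ (∃ u, f u = x) ∧ (∃ v, f v = x'))

open Classical in
lemma num_eq (H : SimpleGraph W) (G : SimpleGraph V) :
    num H G = #(univ.filter (fun f : W → V => Function.Injective f ∧ IsHom H G f)) := by
  unfold num injs IsHom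
  congr

omit [Fintype V] [Fintype W] in
/-- if `x'` is not hit, collapsing does nothing -/
lemma cl_comp_of_not_hit {x x' : V} {f : W → V} (h : ¬ ∃ v, f v = x') :
    (fun a => cl x' x (f a)) = f := by
  funext a
  exact cl_of_ne (fun h' => h ⟨a, h'⟩)

open Classical in
/-- decomposition of `num` for the clone graph -/
lemma num_clone (H : SimpleGraph W) (G : SimpleGraph V) (x x' : V) :
    num H (G.comap (cl x' x)) =
      #(univ.filter (fun f : W → V => (Function.Injective f ∧ IsHom H G f) ∧ ¬ ∃ v, f v = x')) +
      #(univ.filter (fun f : W → V => (Function.Injective f ∧ IsHom H G f) ∧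
        (∃ v, f v = x) ∧ ¬ ∃ v, f v = x')) +
      #((both W x x').filter (fun f => IsHom H G (fun a => cl x' x (f a)))) := by
  have e0 : ∀ f : W → V, IsHom H (G.comap (cl x' x)) f ↔ IsHom H G (fun a => cl x' x (f a)) := by
    intro f; rfl
  rw [num_eq]
  let S := univ.filter (fun f : W → V => Function.Injective f ∧ IsHom H (G.comap (cl x' x)) f)
  have h1 : #(S.filter (fun f => ∃ v, f v = x')) + #(S.filter (fun f => ¬ ∃ v, f v = x')) = #S :=
    Finset.card_filter_add_card_filter_not _
  have h2 : #((S.filter (fun f => ∃ v, f v = x')).filter (fun f => ∃ u, f u = x)) +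
      #((S.filter (fun f => ∃ v, f v = x')).filter (fun f => ¬ ∃ u, f u = x))
      = #(S.filter (fun f => ∃ v, f v = x')) :=
    Finset.card_filter_add_card_filter_not _
  have h3 : S.filter (fun f => ¬ ∃ v, f v = x') =
      univ.filter (fun f : W → V => (Function.Injective f ∧ IsHom H G f) ∧ ¬ ∃ v, f v = x') := by
    ext f
    simp only [S, mem_filter, mem_univ, true_and]
    constructor
    · rintro ⟨⟨hi, hh⟩, hn⟩
      rw [e0, cl_comp_of_not_hit hn] at hh
      exact ⟨⟨hi, hh⟩, hn⟩
    · rintro ⟨⟨hi, hh⟩, hn⟩
      refine ⟨⟨hi, ?_⟩, hn⟩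
      rw [e0, cl_comp_of_not_hit hn]; exact hh
  have h4 : (S.filter (fun f => ∃ v, f v = x')).filter (fun f => ∃ u, f u = x) =
      (both W x x').filter (fun f => IsHom H G (fun a => cl x' x (f a))) := by
    ext f
    simp only [S, both, mem_filter, mem_univ, true_and, e0]
    tauto
  have h5 : #((S.filter (fun f => ∃ v, f v = x')).filter (fun f => ¬ ∃ u, f u = x)) =
      #(univ.filter (fun f : W → V => (Function.Injective f ∧ IsHom H G f) ∧
        (∃ v, f v = x) ∧ ¬ ∃ v, f v = x')) := by
    apply Finset.card_bij' (fun f _ => fun a => Equiv.swap x x' (f a))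
      (fun f _ => fun a => Equiv.swap x x' (f a))
    · intro f hf
      simp only [S, mem_filter, mem_univ, true_and, e0, not_exists] at hf ⊢
      obtain ⟨⟨⟨hi, hh⟩, v, hv⟩, hn⟩ := hf
      have key : (fun a => Equiv.swap x x' (f a)) = (fun a => cl x' x (f a)) := by
        funext a
        by_cases ha : f a = x'
        · rw [ha, Equiv.swap_apply_right, cl_self]
        · rw [Equiv.swap_apply_of_ne_of_ne (hn a) ha, cl_of_ne ha]
      refine ⟨⟨fun a b h => hi ((Equiv.swap x x').injective h), by rw [key]; exact hh⟩,
        ⟨v, by rw [hv, Equiv.swap_apply_right]⟩, fun a ha => ?_⟩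
      have : f a = x := by
        have := congrArg (Equiv.swap x x') ha
        simpa using this
      exact hn a this
    · intro f hf
      simp only [S, mem_filter, mem_univ, true_and, e0, not_exists] at hf ⊢
      obtain ⟨⟨hi, hh⟩, ⟨v, hv⟩, hn⟩ := hf
      have key : (fun a => cl x' x (Equiv.swap x x' (f a))) = f := by
        funext a
        by_cases ha : f a = x
        · rw [ha, Equiv.swap_apply_left, cl_self]
        · rw [Equiv.swap_apply_of_ne_of_ne ha (hn a), cl_of_ne (hn a)]
      refine ⟨⟨⟨fun a b h => hi ((Equiv.swap x x').injective h), by rw [key]; exact hh⟩,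
        ⟨v, by rw [hv, Equiv.swap_apply_left]⟩⟩, fun a ha => ?_⟩
      have : f a = x' := by
        have := congrArg (Equiv.swap x x') ha
        simpa using this
      exact hn a this
    · intro f _; funext a; simp
    · intro f _; funext a; simp
  rw [h3] at h1
  rw [h4, h5] at h2
  change #S = _
  omega

open Classical in
lemma num_split (H : SimpleGraph W) (G : SimpleGraph V) (x x' : V) :
    num H G =
      #(univ.filter (fun f : W → V => (Function.Injective f ∧ IsHom H G f) ∧ ¬ ∃ v, f v = x')) +
      #(univ.filter (fun f : W → V => (Function.Injective f ∧ IsHom H G f) ∧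
        (∃ v, f v = x') ∧ ¬ ∃ v, f v = x)) +
      #((both W x x').filter (fun f => IsHom H G f)) := by
  rw [num_eq]
  let S := univ.filter (fun f : W → V => Function.Injective f ∧ IsHom H G f)
  have h1 : #(S.filter (fun f => ∃ v, f v = x')) + #(S.filter (fun f => ¬ ∃ v, f v = x')) = #S :=
    Finset.card_filter_add_card_filter_not _
  have h2 : #((S.filter (fun f => ∃ v, f v = x')).filter (fun f => ∃ u, f u = x)) +
      #((S.filter (fun f => ∃ v, f v = x')).filter (fun f => ¬ ∃ u, f u = x))
      = #(S.filter (fun f => ∃ v, f v = x')) :=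
    Finset.card_filter_add_card_filter_not _
  have h3 : S.filter (fun f => ¬ ∃ v, f v = x') =
      univ.filter (fun f : W → V => (Function.Injective f ∧ IsHom H G f) ∧ ¬ ∃ v, f v = x') := by
    ext f; simp only [S, mem_filter, mem_univ, true_and]
  have h4 : (S.filter (fun f => ∃ v, f v = x')).filter (fun f => ∃ u, f u = x) =
      (both W x x').filter (fun f => IsHom H G f) := by
    ext f
    simp only [S, both, mem_filter, mem_univ, true_and]
    tauto
  have h5 : (S.filter (fun f => ∃ v, f v = x')).filter (fun f => ¬ ∃ u, f u = x) =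
      univ.filter (fun f : W → V => (Function.Injective f ∧ IsHom H G f) ∧
        (∃ v, f v = x') ∧ ¬ ∃ v, f v = x) := by
    ext f
    simp only [S, mem_filter, mem_univ, true_and]
    tauto
  rw [h3] at h1
  rw [h4, h5] at h2
  change #S = _
  omega

lemma both_comm (x x' : V) : both W x x' = both W x' x := by
  classical
  ext f
  simp only [both, mem_filter, mem_univ, true_and]
  tauto

open Classical in
/-- extremality gives a bound on copies through both `x` and `x'` -/
lemma second_diff (H : SimpleGraph W) (G : SimpleGraph V) (hG : Ext H G) (x x' : V) :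
    #((both W x x').filter (fun f => IsHom H G (fun a => cl x' x (f a)))) +
    #((both W x x').filter (fun f => IsHom H G (fun a => cl x x' (f a)))) ≤
    2 * #((both W x x').filter (fun f => IsHom H G f)) := by
  have e1 := hG.2 _ (cliqueFree_comap G (cl x' x) hG.1)
  have e2 := hG.2 _ (cliqueFree_comap G (cl x x') hG.1)
  rw [num_clone H G x x'] at e1
  rw [num_clone H G x' x] at e2
  have s1 := num_split H G x x'
  have s2 := num_split H G x' x
  rw [both_comm x' x] at e2 s2
  omega

open Classical in
/-- the difference of the neighbourhoods -/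
noncomputable def dif (G : SimpleGraph V) (x x' : V) : Finset V :=
  univ.filter (fun y => ¬ (G.Adj x y ↔ G.Adj x' y))

lemma mem_dif {G : SimpleGraph V} {x x' y : V} : y ∈ dif G x x' ↔ ¬ (G.Adj x y ↔ G.Adj x' y) := by
  simp [dif]

lemma dif_comm (G : SimpleGraph V) (x x' : V) : dif G x x' = dif G x' x := by
  ext y; simp only [mem_dif]; tauto

def few (G : SimpleGraph V) (x x' : V) (f : W → V) : Prop :=
  ∀ a b, f a ∈ dif G x x' → f b ∈ dif G x x' → a = b

omit [Fintype V] [Fintype W] in
lemma aux1 (H : SimpleGraph W) (G : SimpleGraph V) (x x' : V) (f : W → V)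
    (hγ : IsHom H G f) (hα : ¬ IsHom H G (fun a => cl x' x (f a))) :
    ∃ a b, H.Adj a b ∧ f a = x' ∧ G.Adj x' (f b) ∧ ¬ G.Adj x (f b) := by
  unfold IsHom at hα
  push Not at hα
  obtain ⟨a, b, hab, hn⟩ := hα
  have hG := hγ a b hab
  by_cases ha : f a = x'
  · have hb : f b ≠ x' := by
      intro hb; rw [ha, hb] at hG; exact G.irrefl hG
    rw [ha, cl_self, cl_of_ne hb] at hn
    exact ⟨a, b, hab, ha, by rwa [ha] at hG, hn⟩
  · by_cases hb : f b = x'
    · rw [hb, cl_self, cl_of_ne ha] at hn
      refine ⟨b, a, hab.symm, hb, ?_, fun h => hn h.symm⟩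
      rw [hb] at hG; exact hG.symm
    · rw [cl_of_ne ha, cl_of_ne hb] at hn
      exact absurd hG hn

open Classical in
/-- the swapped map -/
lemma cl_swap (x x' y : V) (hne : x ≠ x') : cl x' x (Equiv.swap x x' y) = cl x' x y := by
  classical
  by_cases h : y = x
  · rw [h, Equiv.swap_apply_left, cl_self, cl_of_ne hne]
  · by_cases h' : y = x'
    · rw [h', Equiv.swap_apply_right, cl_self, cl_of_ne hne]
    · rw [Equiv.swap_apply_of_ne_of_ne h h']

open Classical in
lemma swap_dif (G : SimpleGraph V) (x x' y : V) (hnadj : ¬ G.Adj x x') :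
    Equiv.swap x x' y ∈ dif G x x' ↔ y ∈ dif G x x' := by
  have hx : x ∉ dif G x x' := by
    rw [mem_dif]
    have h1 : ¬ G.Adj x x := G.irrefl
    have h2 : ¬ G.Adj x' x := fun h => hnadj h.symm
    tauto
  have hx' : x' ∉ dif G x x' := by
    rw [mem_dif]; simp [hnadj]
  by_cases h : y = x
  · subst h; rw [Equiv.swap_apply_left]; simp [hx, hx']
  · by_cases h' : y = x'
    · subst h'; rw [Equiv.swap_apply_right]; simp [hx, hx']
    · rw [Equiv.swap_apply_of_ne_of_ne h h']

/-- one step: if `f` is a homomorphism and not both collapsed maps, contradiction with `few`. -/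
lemma gamma_or (H : SimpleGraph W) (G : SimpleGraph V) (x x' : V) (hnadj : ¬ G.Adj x x')
    (f : W → V) (hfew : few G x x' f) (hγ : IsHom H G f) :
    IsHom H G (fun a => cl x' x (f a)) ∨ IsHom H G (fun a => cl x x' (f a)) := by
  by_contra! hcon
  obtain ⟨a, b, _, _, h1, h2⟩ := aux1 H G x x' f hγ hcon.1
  obtain ⟨c, d, _, _, h3, h4⟩ := aux1 H G x' x f hγ hcon.2
  have hb : f b ∈ dif G x x' := by rw [mem_dif]; tauto
  have hd : f d ∈ dif G x x' := by rw [mem_dif]; tauto
  have := hfew b d hb hd
  subst this
  exact h2 h3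

open Classical in
lemma gamma_and (H : SimpleGraph W) (G : SimpleGraph V) (x x' : V)
    (hnadj : ¬ G.Adj x x')
    (f : W → V) (hγ : IsHom H G f) (hγs : IsHom H G (fun a => Equiv.swap x x' (f a))) :
    IsHom H G (fun a => cl x' x (f a)) := by
  by_contra hcon
  obtain ⟨a, b, hab, ha, h1, h2⟩ := aux1 H G x x' f hγ hcon
  have h3 := hγs a b hab
  have hbx : f b ≠ x := by
    rintro hb; rw [hb] at h1; exact hnadj h1.symm
  have hbx' : f b ≠ x' := by
    rintro hb; rw [hb] at h1; exact G.irrefl h1
  simp only [ha, Equiv.swap_apply_right, Equiv.swap_apply_of_ne_of_ne hbx hbx'] at h3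
  exact h2 h3

lemma ind_ineq (p q r s : Prop) [Decidable p] [Decidable q] [Decidable r] [Decidable s]
    (e1 : r → p ∨ q) (e2 : s → p ∨ q) (e3 : r → s → p ∧ q) :
    (if r then (1 : ℤ) else 0) + (if s then 1 else 0) + 0 ≤
      (if p then 1 else 0) + (if q then 1 else 0) + 2 * 0 := by
  by_cases hp : p <;> by_cases hq : q <;> by_cases hr : r <;> by_cases hs : s <;>
    simp_all

open Classical in
/-- the number of good maps is at most twice the number of bad maps -/
lemma good_le_bad (H : SimpleGraph W) (G : SimpleGraph V) (hG : Ext H G) (x x' : V) (hne : x ≠ x')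
    (hnadj : ¬ G.Adj x x') (Good : Finset (W → V))
    (hgood : ∀ f ∈ Good, f ∈ both W x x' ∧ few G x x' f ∧
      (IsHom H G (fun a => cl x' x (f a)) ∨ IsHom H G (fun a => cl x x' (f a))) ∧
      ¬ IsHom H G f ∧ ¬ IsHom H G (fun a => Equiv.swap x x' (f a))) :
    #Good ≤ 2 * #((both W x x').filter (fun f => ¬ few G x x' f)) := by
  have hsd := second_diff H G hG x x'
  -- symmetry of γ
  have hsym : #((both W x x').filter (fun f => IsHom H G f)) =
      #((both W x x').filter (fun f => IsHom H G (fun a => Equiv.swap x x' (f a)))) := by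
    have hb : ∀ f : W → V, f ∈ both W x x' → (fun a => Equiv.swap x x' (f a)) ∈ both W x x' := by
      intro f hf
      simp only [both, mem_filter, mem_univ, true_and] at hf ⊢
      obtain ⟨hi, ⟨u, hu⟩, ⟨v, hv⟩⟩ := hf
      exact ⟨fun a b h => hi ((Equiv.swap x x').injective h),
        ⟨v, by rw [hv, Equiv.swap_apply_right]⟩, ⟨u, by rw [hu, Equiv.swap_apply_left]⟩⟩
    apply Finset.card_bij' (fun f _ => fun a => Equiv.swap x x' (f a))
      (fun f _ => fun a => Equiv.swap x x' (f a))
    · intro f hf
      rw [mem_filter] at hf ⊢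
      refine ⟨hb f hf.1, ?_⟩
      simpa using hf.2
    · intro f hf
      rw [mem_filter] at hf ⊢
      exact ⟨hb f hf.1, hf.2⟩
    · intro f _; funext a; simp
    · intro f _; funext a; simp
  -- sums of indicators
  let iα : (W → V) → ℤ := fun f => if IsHom H G (fun a => cl x' x (f a)) then 1 else 0
  let iβ : (W → V) → ℤ := fun f => if IsHom H G (fun a => cl x x' (f a)) then 1 else 0
  let iγ : (W → V) → ℤ := fun f => if IsHom H G f then 1 else 0
  let iσ : (W → V) → ℤ := fun f => if IsHom H G (fun a => Equiv.swap x x' (f a)) then 1 else 0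
  let ig : (W → V) → ℤ := fun f => if f ∈ Good then 1 else 0
  let ib : (W → V) → ℤ := fun f => if ¬ few G x x' f then 1 else 0
  have hα : ∑ f ∈ both W x x', iα f =
      #((both W x x').filter (fun f => IsHom H G (fun a => cl x' x (f a)))) := by
    simp [iα, Finset.sum_boole]
  have hβ : ∑ f ∈ both W x x', iβ f =
      #((both W x x').filter (fun f => IsHom H G (fun a => cl x x' (f a)))) := by
    simp [iβ, Finset.sum_boole]
  have hγ : ∑ f ∈ both W x x', iγ f = #((both W x x').filter (fun f => IsHom H G f)) := by
    simp [iγ, Finset.sum_boole]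
  have hσ : ∑ f ∈ both W x x', iσ f =
      #((both W x x').filter (fun f => IsHom H G (fun a => Equiv.swap x x' (f a)))) := by
    simp [iσ, Finset.sum_boole]
  have hg : ∑ f ∈ both W x x', ig f = #Good := by
    simp only [ig, Finset.sum_boole]
    congr 2
    ext f
    simp only [mem_filter]
    exact ⟨fun h => h.2, fun h => ⟨(hgood f h).1, h⟩⟩
  have hb : ∑ f ∈ both W x x', ib f = #((both W x x').filter (fun f => ¬ few G x x' f)) := by
    simp only [ib]; rw [Finset.sum_boole]
  have hpt : ∀ f ∈ both W x x', iγ f + iσ f + ig f ≤ iα f + iβ f + 2 * ib f := by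
    intro f hf
    by_cases hfew : few G x x' f
    · by_cases hgd : f ∈ Good
      · obtain ⟨_, _, h1, h2, h3⟩ := hgood f hgd
        simp only [iα, iβ, iγ, iσ, ig, ib, hfew, hgd, h2, h3, if_true, if_false, not_true_eq_false]
        rcases h1 with h1 | h1 <;> simp only [h1, if_true]
        · split_ifs <;> norm_num
        · split_ifs <;> norm_num
      · simp only [ig, ib, hfew, hgd, if_false, not_true_eq_false]
        -- γ ≤ ...
        have e1 : IsHom H G f → (IsHom H G (fun a => cl x' x (f a)) ∨
            IsHom H G (fun a => cl x x' (f a))) := gamma_or H G x x' hnadj f hfew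
        have e2 : IsHom H G (fun a => Equiv.swap x x' (f a)) →
            (IsHom H G (fun a => cl x' x (f a)) ∨ IsHom H G (fun a => cl x x' (f a))) := by
          intro h
          have hfew' : few G x x' (fun a => Equiv.swap x x' (f a)) := by
            intro a b ha hb
            exact hfew a b ((swap_dif G x x' _ hnadj).mp ha) ((swap_dif G x x' _ hnadj).mp hb)
          have := gamma_or H G x x' hnadj _ hfew' h
          have c1 : (fun a => cl x' x (Equiv.swap x x' (f a))) = (fun a => cl x' x (f a)) := by
            funext a; exact cl_swap x x' _ hne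
          have c2 : (fun a => cl x x' (Equiv.swap x x' (f a))) = (fun a => cl x x' (f a)) := by
            funext a; rw [Equiv.swap_comm]; exact cl_swap x' x _ hne.symm
          rwa [c1, c2] at this
        have e3 : IsHom H G f → IsHom H G (fun a => Equiv.swap x x' (f a)) →
            (IsHom H G (fun a => cl x' x (f a)) ∧ IsHom H G (fun a => cl x x' (f a))) := by
          intro h h'
          refine ⟨gamma_and H G x x' hnadj f h h', ?_⟩
          apply gamma_and H G x' x (fun h => hnadj h.symm) f h
          have : (fun a => Equiv.swap x' x (f a)) = (fun a => Equiv.swap x x' (f a)) := by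
            funext a; rw [Equiv.swap_comm]
          rw [this]; exact h'
        exact ind_ineq _ _ _ _ e1 e2 e3
    · have hgd : f ∉ Good := fun h => hfew (hgood f h).2.1
      simp only [iα, iβ, iγ, iσ, ig, ib, hfew, hgd, if_false, not_false_eq_true, if_true]
      split_ifs <;> norm_num
  have hsum := Finset.sum_le_sum hpt
  simp only [Finset.sum_add_distrib, ← Finset.mul_sum] at hsum
  rw [hα, hβ, hγ, hσ, hg, hb, ← hsym] at hsum
  have hsd' : ((#((both W x x').filter (fun f => IsHom H G (fun a => cl x' x (f a)))) : ℕ) : ℤ) +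
    #((both W x x').filter (fun f => IsHom H G (fun a => cl x x' (f a)))) ≤
    2 * #((both W x x').filter (fun f => IsHom H G f)) := by exact_mod_cast hsd
  have : (#Good : ℤ) ≤ 2 * #((both W x x').filter (fun f => ¬ few G x x' f)) := by linarith
  exact_mod_cast this

end H67Blow
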