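import Pool.Agent.H67.Blow.Union
import Pool.Agent.H67.Blow.SecondDiff

open Finset Fintype

namespace H67Blow

variable {V W : Type*} [Fintype V] [Fintype W]

open Classical in
/-- number of homomorphisms with two neighbours `u, v` of `w` at `x`, and `w` at `y` -/
lemma fold_count [Nonempty V] (H : SimpleGraph W) (col : W → Bool)
    (hcol : ∀ a b, H.Adj a b → col a ≠ col b) (u v w : W) (huv : u ≠ v) (hwu : H.Adj w u)
    (hwv : H.Adj w v) (G : SimpleGraph V) (hG : G.CliqueFree 3) (τ : ℝ) (hτ0 : 0 < τ)
    (hτ1 : τ ≤ 1) (x y : V) (hxy : G.Adj x y)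
    (hcr : τ * (card V : ℝ) ^ 2 ≤ (#(cross G x y) : ℝ)) :
    τ ^ ((card W) ^ 2) * ((card V : ℝ) ^ (card W) / (card V : ℝ) ^ 3) ≤
      (#(univ.filter (fun g : W → V => g u = x ∧ g v = x ∧ g w = y ∧ IsHom H G g)) : ℝ) := by
  have hn : (0 : ℝ) < card V := by positivity
  have hcuv : col u = col v := by
    have h1 := hcol w u hwu
    have h2 := hcol w v hwv
    revert h1 h2
    cases col u <;> cases col v <;> cases col w <;> simp
  have hcwu : col w ≠ col u := hcol w u hwu
  let G' : SimpleGraph V :=
    { Adj := fun p q => G.Adj p q ∧ ((G.Adj x p ∧ G.Adj y q) ∨ (G.Adj y p ∧ G.Adj x q))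
      symm := ⟨by
        rintro p q ⟨h1, h2⟩
        exact ⟨h1.symm, by tauto⟩⟩
      loopless := ⟨by rintro p ⟨h1, _⟩; exact G.irrefl h1⟩ }
  let T : Finset V := univ.filter (fun t => G.Adj x t)
  -- density
  have hsum : (#(cross G x y) : ℝ) ≤ ∑ t ∈ T, (#(univ.filter (fun p => G'.Adj p t)) : ℝ) := by
    have h1 : cross G x y ⊆ T.biUnion (fun t => (univ.filter (fun p => G'.Adj p t)).image (fun p => (t, p))) := by
      rintro ⟨t, p⟩ hp
      simp only [cross, mem_filter, mem_univ, true_and] at hp
      obtain ⟨h1, h2, h3⟩ := hp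
      simp only [mem_biUnion, mem_image, mem_filter, mem_univ, true_and, T]
      refine ⟨t, h1, p, ?_, rfl⟩
      exact ⟨h3.symm, Or.inr ⟨h2, h1⟩⟩
    have h2 : #(cross G x y) ≤ ∑ t ∈ T, #(univ.filter (fun p => G'.Adj p t)) := by
      refine (Finset.card_le_card h1).trans (Finset.card_biUnion_le.trans ?_)
      exact Finset.sum_le_sum (fun t _ => Finset.card_image_le)
    exact_mod_cast h2
  have hTn : (#T : ℝ) ≤ card V := by
    have : #T ≤ card V := by
      refine (Finset.card_filter_le _ _).trans ?_
      rw [Finset.card_univ]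
    exact_mod_cast this
  have hTlow : τ * card V ≤ (#T : ℝ) := by
    have h1 : (#(cross G x y) : ℝ) ≤ #T * card V := by
      have h2 : cross G x y ⊆ T ×ˢ (univ : Finset V) := by
        rintro ⟨t, p⟩ hp
        simp only [cross, mem_filter, mem_univ, true_and] at hp
        simp only [mem_product, mem_univ, and_true, T, mem_filter, true_and]
        exact hp.1
      have h3 := Finset.card_le_card h2
      rw [Finset.card_product, Finset.card_univ] at h3
      exact_mod_cast h3
    have h2 : τ * card V * card V ≤ #T * card V := by nlinarith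
    exact le_of_mul_le_mul_right h2 hn
  let L := {a : W // col a = col u ∧ a ≠ u ∧ a ≠ v}
  let R := {a : W // col a ≠ col u}
  have hk := kst G' T τ hτ0.le (by
    have h1 : τ * card V * #T ≤ τ * (card V : ℝ) ^ 2 := by
      have := mul_le_mul_of_nonneg_left hTn (by positivity : (0:ℝ) ≤ τ * card V)
      nlinarith
    refine h1.trans (hcr.trans (hsum.trans (le_of_eq ?_)))
    exact Finset.sum_congr rfl (fun t _ => by congr <;> exact Subsingleton.elim _ _)) L R
  -- cardinalities
  have hLR : card L + card R + 2 = card W := by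
    have h1 := Fintype.card_subtype_compl (fun a : W => col a = col u)
    have h2 := Fintype.card_subtype_le (fun a : W => col a = col u)
    have h3 : card {a : W // col a = col u} = card L + 2 := by
      rw [Fintype.card_subtype, Fintype.card_subtype]
      have : (univ.filter (fun a : W => col a = col u ∧ a ≠ u ∧ a ≠ v))
          = ((univ.filter (fun a : W => col a = col u)).erase u).erase v := by
        ext a; simp; tauto
      have hc1 : #((univ.filter (fun a : W => col a = col u)).erase u) + 1 =
          #(univ.filter (fun a : W => col a = col u)) :=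
        Finset.card_erase_add_one (by simp)
      have hc2 : #(((univ.filter (fun a : W => col a = col u)).erase u).erase v) + 1 =
          #((univ.filter (fun a : W => col a = col u)).erase u) :=
        Finset.card_erase_add_one (by
          rw [Finset.mem_erase]; exact ⟨huv.symm, by simp [hcuv]⟩)
      rw [this]
      omega
    have h4 : card R = card {a : W // ¬ col a = col u} := rfl
    omega
  -- the map
  let w' : R := ⟨w, hcwu⟩
  let Φ : (L → V) × (R → V) → V × (W → V) := fun pt => (pt.2 w', fun a =>
    if h : col a ≠ col u then (if a = w then y else pt.2 ⟨a, h⟩)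
    else if h' : a = u ∨ a = v then x else pt.1 ⟨a, not_not.mp h, fun e => h' (Or.inl e),
      fun e => h' (Or.inr e)⟩)
  have hinj : Function.Injective Φ := by
    rintro ⟨p, t⟩ ⟨p', t'⟩ h
    have h1 : t w' = t' w' := (Prod.ext_iff.mp h).1
    have h2 := (Prod.ext_iff.mp h).2
    have ep : p = p' := by
      funext ⟨a, ha1, ha2, ha3⟩
      have := congrFun h2 a
      simpa [Φ, ha1, ha2, ha3] using this
    have et : t = t' := by
      funext ⟨a, ha⟩
      by_cases haw : a = w
      · subst haw; exact h1
      · have := congrFun h2 a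
        simpa [Φ, ha, haw] using this
    rw [ep, et]
  set P := univ.filter (fun g : W → V => g u = x ∧ g v = x ∧ g w = y ∧ IsHom H G g) with hP
  have hle : #(univ.filter (fun pt : (L → V) × (R → V) =>
        (∀ j, pt.2 j ∈ T) ∧ ∀ i j, G'.Adj (pt.1 i) (pt.2 j))) ≤ #((univ : Finset V) ×ˢ P) := by
    apply Finset.card_le_card_of_injOn Φ _ (hinj.injOn)
    rintro ⟨p, t⟩ hpt
    simp only [coe_filter, mem_univ, true_and, Set.mem_ofPred_eq] at hpt
    obtain ⟨hT, hA⟩ := hpt
    have hTm : ∀ j, G.Adj x (t j) := fun j => by
      have := hT j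
      simpa [T] using this
    have hpy : ∀ i, G.Adj y (p i) := by
      intro i
      have h1 := hA i w'
      rcases h1.2 with h2 | h2
      · exact absurd (tf_not G hG hxy (hTm w') h2.2) id
      · exact h2.1
    set g := (Φ (p, t)).2 with hg
    have gu : g u = x := by simp [hg, Φ]
    have gv : g v = x := by simp [hg, Φ, hcuv]
    have gw : g w = y := by simp [hg, Φ, hcwu]
    have key : ∀ a b, H.Adj a b → col a = col u → G.Adj (g a) (g b) := by
      intro a b hab ha
      have hb : col b ≠ col u := by
        intro h; exact hcol a b hab (ha.trans h.symm)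
      by_cases hau : a = u ∨ a = v
      · have ga : g a = x := by rcases hau with rfl | rfl <;> assumption
        by_cases hbw : b = w
        · rw [ga, hbw, gw]; exact hxy
        · have gb : g b = t ⟨b, hb⟩ := by simp [hg, Φ, hb, hbw]
          rw [ga, gb]; exact hTm _
      · have hau' : a ≠ u ∧ a ≠ v := not_or.mp hau
        have ga : g a = p ⟨a, ha, hau'.1, hau'.2⟩ := by simp [hg, Φ, ha, hau'.1, hau'.2]
        by_cases hbw : b = w
        · rw [ga, hbw, gw]; exact (hpy _).symm
        · have gb : g b = t ⟨b, hb⟩ := by simp [hg, Φ, hb, hbw]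
          rw [ga, gb]; exact (hA _ _).1
    simp only [coe_product, coe_univ, Set.mem_prod, Set.mem_univ, true_and]
    change g ∈ (P : Set (W → V))
    simp only [hP, coe_filter, mem_univ, true_and, Set.mem_ofPred_eq]
    refine ⟨gu, gv, gw, fun a b hab => ?_⟩
    by_cases ha : col a = col u
    · exact key a b hab ha
    · have hb : col b = col u := by
        have h1 := hcol a b hab
        revert ha h1
        cases col a <;> cases col b <;> cases col u <;> simp
      exact (key b a hab.symm hb).symm
  have hle' : ((#(univ.filter (fun pt : (L → V) × (R → V) =>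
        (∀ j, pt.2 j ∈ T) ∧ ∀ i j, G'.Adj (pt.1 i) (pt.2 j))) : ℕ) : ℝ) ≤ card V * #P := by
    rw [Finset.card_product, Finset.card_univ] at hle
    exact_mod_cast hle
  have hfin : τ ^ (card L * card R) * (card V : ℝ) ^ (card L) * (#T : ℝ) ^ (card R) ≤
      card V * #P := by
    refine le_trans ?_ hle'
    refine hk.trans (le_of_eq ?_)
    congr <;> exact Subsingleton.elim _ _
  have e1 : (τ * card V) ^ (card R) ≤ (#T : ℝ) ^ (card R) :=
    pow_le_pow_left₀ (by positivity) hTlow _
  have e2 : τ ^ ((card W) ^ 2) ≤ τ ^ (card L * card R + card R) := by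
    apply pow_le_pow_of_le_one hτ0.le hτ1
    calc card L * card R + card R = (card L + 1) * card R := by ring
      _ ≤ card W * card W := Nat.mul_le_mul (by omega) (by omega)
      _ = card W ^ 2 := by ring
  have e3 : (card V : ℝ) ^ (card W) / (card V : ℝ) ^ 3 * card V =
      (card V : ℝ) ^ (card L) * (card V : ℝ) ^ (card R) := by
    have : card W = card L + card R + 2 := hLR.symm
    rw [this, pow_add, pow_add]
    field_simp
  have e4 : τ ^ ((card W) ^ 2) * ((card V : ℝ) ^ (card W) / (card V : ℝ) ^ 3) * card V ≤
      #P * card V := by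
    calc τ ^ ((card W) ^ 2) * ((card V : ℝ) ^ (card W) / (card V : ℝ) ^ 3) * card V
        = τ ^ ((card W) ^ 2) * ((card V : ℝ) ^ (card L) * (card V : ℝ) ^ (card R)) := by
          rw [mul_assoc, e3]
      _ ≤ τ ^ (card L * card R + card R) * ((card V : ℝ) ^ (card L) * (card V : ℝ) ^ (card R)) :=
          mul_le_mul_of_nonneg_right e2 (by positivity)
      _ = τ ^ (card L * card R) * (card V : ℝ) ^ (card L) * (τ * card V) ^ (card R) := by
          rw [pow_add, mul_pow]; ring
      _ ≤ τ ^ (card L * card R) * (card V : ℝ) ^ (card L) * (#T : ℝ) ^ (card R) :=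
          mul_le_mul_of_nonneg_left e1 (by positivity)
      _ ≤ card V * #P := hfin
      _ = #P * card V := by ring
  exact le_of_mul_le_mul_right e4 hn

end H67Blow
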