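import Pool.Agent.H67.Blow.Clone

/-!
Graphs of maximum degree at most one: complete balanced bipartite graphs are extremal.
-/

open Finset Fintype

namespace H67Blow

open Classical in
/-- removing an isolated edge `ab` of `H` -/
lemma num_remove {W : Type*} {V : Type} [Fintype V] [Fintype W] (H : SimpleGraph W)
    (G : SimpleGraph V) (a b : W) (hab : H.Adj a b) (ha : ∀ x, H.Adj a x → x = b)
    (hb : ∀ x, H.Adj b x → x = a) :
    num H G = ∑ p ∈ univ.filter (fun p : V × V => G.Adj p.1 p.2),
      num (H.comap (Subtype.val : {x : W // x ≠ a ∧ x ≠ b} → W))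
        (G.comap (Subtype.val : {v : V // v ≠ p.1 ∧ v ≠ p.2} → V)) := by
  have hne : a ≠ b := hab.ne
  have h1 : injs H G = (univ.filter (fun p : V × V => G.Adj p.1 p.2)).biUnion
      (fun p => (injs H G).filter (fun f => f a = p.1 ∧ f b = p.2)) := by
    ext f
    simp only [mem_biUnion, mem_filter, mem_univ, true_and]
    constructor
    · intro hf
      exact ⟨(f a, f b), (mem_injs.mp hf).2 a b hab, hf, rfl, rfl⟩
    · rintro ⟨_, _, hf, _⟩; exact hf
  unfold num
  rw [h1, Finset.card_biUnion]
  · apply Finset.sum_congr rfl
    rintro ⟨p, q⟩ hpq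
    simp only [mem_filter, mem_univ, true_and] at hpq
    have hpq' : p ≠ q := hpq.ne
    apply Finset.card_bij (fun (f : W → V) (hf : f ∈ (injs H G).filter
      (fun f => f a = (p, q).1 ∧ f b = (p, q).2)) =>
      (fun x : {x : W // x ≠ a ∧ x ≠ b} => (⟨f x.1, by
        simp only [mem_filter, mem_injs] at hf
        refine ⟨fun h => x.2.1 (hf.1.1 (h.trans hf.2.1.symm)),
          fun h => x.2.2 (hf.1.1 (h.trans hf.2.2.symm))⟩⟩ : {v : V // v ≠ p ∧ v ≠ q})))
    · intro f hf
      simp only [mem_filter, mem_injs] at hf
      rw [mem_injs]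
      refine ⟨?_, ?_⟩
      · intro x y hxy
        have h2 : f x.1 = f y.1 := congrArg Subtype.val hxy
        exact Subtype.ext (hf.1.1 h2)
      · intro x y hxy
        exact hf.1.2 x.1 y.1 hxy
    · intro f hf g hg h
      simp only [mem_filter, mem_injs] at hf hg
      funext x
      by_cases hxa : x = a
      · rw [hxa, hf.2.1, hg.2.1]
      by_cases hxb : x = b
      · rw [hxb, hf.2.2, hg.2.2]
      · have := congrFun h ⟨x, hxa, hxb⟩
        exact congrArg Subtype.val this
    · intro g hg
      rw [mem_injs] at hg
      let f : W → V := fun x => if hx : x ≠ a ∧ x ≠ b then (g ⟨x, hx⟩).1 else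
        if x = a then p else q
      have fa : f a = p := by simp [f]
      have fb : f b = q := by simp [f, hne.symm]
      have fx : ∀ x (hx : x ≠ a ∧ x ≠ b), f x = (g ⟨x, hx⟩).1 := by
        intro x hx; simp [f, hx]
      refine ⟨f, ?_, ?_⟩
      · simp only [mem_filter, mem_injs]
        refine ⟨⟨?_, ?_⟩, fa, fb⟩
        · intro x y hxy
          by_cases hx : x ≠ a ∧ x ≠ b
          · by_cases hy : y ≠ a ∧ y ≠ b
            · rw [fx x hx, fx y hy] at hxy
              exact congrArg Subtype.val (hg.1 (Subtype.ext hxy))
            · rw [fx x hx] at hxy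
              have h2 := (g ⟨x, hx⟩).2
              by_cases hya : y = a
              · rw [hya, fa] at hxy; exact absurd hxy h2.1
              · have hyb : y = b := by tauto
                rw [hyb, fb] at hxy; exact absurd hxy h2.2
          · by_cases hy : y ≠ a ∧ y ≠ b
            · rw [fx y hy] at hxy
              have h2 := (g ⟨y, hy⟩).2
              by_cases hxa : x = a
              · rw [hxa, fa] at hxy; exact absurd hxy.symm h2.1
              · have hxb : x = b := by tauto
                rw [hxb, fb] at hxy; exact absurd hxy.symm h2.2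
            · have hx' : x = a ∨ x = b := by tauto
              have hy' : y = a ∨ y = b := by tauto
              rcases hx' with rfl | rfl <;> rcases hy' with rfl | rfl
              · rfl
              · rw [fa, fb] at hxy; exact absurd hxy hpq'
              · rw [fa, fb] at hxy; exact absurd hxy.symm hpq'
              · rfl
        · have key : ∀ x y, H.Adj x y → x = a → G.Adj (f x) (f y) := by
            intro x y hxy hxa
            subst hxa
            rw [ha y hxy, fa, fb]; exact hpq
          have key2 : ∀ x y, H.Adj x y → x = b → G.Adj (f x) (f y) := by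
            intro x y hxy hxb
            subst hxb
            rw [hb y hxy, fa, fb]; exact hpq.symm
          intro x y hxy
          by_cases hx : x ≠ a ∧ x ≠ b
          · by_cases hy : y ≠ a ∧ y ≠ b
            · rw [fx x hx, fx y hy]
              exact hg.2 ⟨x, hx⟩ ⟨y, hy⟩ hxy
            · by_cases hya : y = a
              · exact (key y x hxy.symm hya).symm
              · have hyb : y = b := by tauto
                exact (key2 y x hxy.symm hyb).symm
          · by_cases hxa : x = a
            · exact key x y hxy hxa
            · have hxb : x = b := by tauto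
              exact key2 x y hxy hxb
      · funext x
        apply Subtype.ext
        exact fx x.1 x.2
  · intro p _ p' _ hne'
    rw [Function.onFun, Finset.disjoint_left]
    intro f hf hf'
    simp only [mem_filter] at hf hf'
    exact hne' (Prod.ext (hf.2.1.symm.trans hf'.2.1) (hf.2.2.symm.trans hf'.2.2))

/-- the complete bipartite graph given by a 2-colouring -/
def cb {V : Type*} (c : V → Bool) : SimpleGraph V := (⊤ : SimpleGraph Bool).comap c

lemma cb_adj {V : Type*} (c : V → Bool) (x y : V) : (cb c).Adj x y ↔ c x ≠ c y := by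
  simp [cb]

open Classical in
/-- balanced 2-colourings -/
def Bal {V : Type*} [Fintype V] (c : V → Bool) : Prop :=
  #(univ.filter (fun x => c x = true)) ≤ #(univ.filter (fun x => c x = false)) + 1 ∧
  #(univ.filter (fun x => c x = false)) ≤ #(univ.filter (fun x => c x = true)) + 1

open Classical in
lemma cb_edges {V : Type*} [Fintype V] (c : V → Bool) :
    #(univ.filter (fun p : V × V => (cb c).Adj p.1 p.2)) =
      2 * (#(univ.filter (fun x => c x = true)) * #(univ.filter (fun x => c x = false))) := by
  have h1 : univ.filter (fun p : V × V => (cb c).Adj p.1 p.2) =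
      (univ.filter (fun x => c x = true)) ×ˢ (univ.filter (fun x => c x = false)) ∪
      (univ.filter (fun x => c x = false)) ×ˢ (univ.filter (fun x => c x = true)) := by
    ext ⟨p, q⟩
    simp only [cb_adj, mem_filter, mem_univ, true_and, mem_union, mem_product]
    cases c p <;> cases c q <;> simp
  rw [h1, Finset.card_union_of_disjoint, Finset.card_product, Finset.card_product]
  · ring
  · rw [Finset.disjoint_left]
    rintro ⟨p, q⟩ hp hq
    simp only [mem_product, mem_filter, mem_univ, true_and] at hp hq
    rw [hp.1] at hq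
    exact absurd hq.1 (by simp)

open Classical in
lemma mantel {V V' : Type*} [Fintype V] [Fintype V'] (hVV' : card V' = card V) (c : V → Bool)
    (hc : Bal c) (G : SimpleGraph V') (hG : G.CliqueFree 3) :
    #(univ.filter (fun p : V' × V' => G.Adj p.1 p.2)) ≤
      #(univ.filter (fun p : V × V => (cb c).Adj p.1 p.2)) := by
  have h1 : #(univ.filter (fun p : V' × V' => G.Adj p.1 p.2)) = 2 * #G.edgeFinset := by
    rw [← G.sum_degrees_eq_twice_card_edges, ← Finset.univ_product_univ]
    simp only [Finset.card_filter]
    rw [Finset.sum_product]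
    apply Finset.sum_congr rfl
    intro x _
    rw [← Finset.card_filter, ← SimpleGraph.card_neighborFinset_eq_degree]
    congr 1
    ext y
    simp
  have h2 := SimpleGraph.CliqueFree.card_edgeFinset_le (r := 2) hG
  have h3 : #(univ.filter (fun x => c x = true)) + #(univ.filter (fun x => c x = false)) = card V := by
    have := Finset.card_filter_add_card_filter_not (s := (univ : Finset V)) (p := fun x => c x = true)
    simpa using this
  rw [h1, cb_edges]
  obtain ⟨b1, b2⟩ := hc
  set A := #(univ.filter (fun x => c x = true)) with hA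
  set B := #(univ.filter (fun x => c x = false)) with hB
  have h4 : #G.edgeFinset ≤ A * B := by
    refine h2.trans ?_
    rw [hVV', ← h3]
    rcases Nat.lt_trichotomy A B with h | h | h
    · have : B = A + 1 := by omega
      rw [this]
      have e : (A + (A + 1)) % 2 = 1 := by omega
      rw [e]
      have e2 : (A + (A + 1)) ^ 2 - 1 ^ 2 = A * (A + 1) * 4 := by
        have : (A + (A + 1)) ^ 2 = A * (A + 1) * 4 + 1 := by ring
        rw [this]; simp
      rw [e2]
      simp
    · rw [h]
      have e : (B + B) % 2 = 0 := by omega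
      rw [e]
      have e2 : (B + B) ^ 2 - 0 ^ 2 = B * B * 4 := by
        have : (B + B) ^ 2 = B * B * 4 := by ring
        rw [this]; simp
      rw [e2]
      simp
    · have : A = B + 1 := by omega
      rw [this]
      have e : (B + 1 + B) % 2 = 1 := by omega
      rw [e]
      have e2 : (B + 1 + B) ^ 2 - 1 ^ 2 = (B + 1) * B * 4 := by
        have : (B + 1 + B) ^ 2 = (B + 1) * B * 4 + 1 := by ring
        rw [this]; simp
      rw [e2]
      simp
  omega

open Classical in
/-- removing an edge keeps balance -/
lemma bal_remove {V : Type} [Fintype V] (c : V → Bool) (hc : Bal c) (p q : V) (hpq : c p ≠ c q) :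
    Bal (fun x : {v : V // v ≠ p ∧ v ≠ q} => c x.1) ∧
      card {v : V // v ≠ p ∧ v ≠ q} + 2 = card V := by
  have hne : p ≠ q := fun h => hpq (by rw [h])
  have key : ∀ t : Bool, #(univ.filter (fun x : {v : V // v ≠ p ∧ v ≠ q} => c x.1 = t)) + 1 =
      #(univ.filter (fun x => c x = t)) := by
    intro t
    have h1 : #(univ.filter (fun x : {v : V // v ≠ p ∧ v ≠ q} => c x.1 = t)) =
        #((univ.filter (fun x => c x = t)).filter (fun x => x ≠ p ∧ x ≠ q)) := by
      rw [← Finset.card_map (Function.Embedding.subtype (fun v : V => v ≠ p ∧ v ≠ q))]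
      congr 1
      ext x
      simp only [mem_map, mem_filter, mem_univ, true_and, Function.Embedding.coe_subtype,
        Subtype.exists, exists_and_left, exists_prop, exists_eq_right_right]
    -- the vertex of colour `t` among `p, q`
    obtain ⟨r, hr, hrt, hr2⟩ : ∃ r, (r = p ∨ r = q) ∧ c r = t ∧
        ∀ x, c x = t → ((x ≠ p ∧ x ≠ q) ↔ x ≠ r) := by
      by_cases hp : c p = t
      · refine ⟨p, Or.inl rfl, hp, fun x hx => ⟨fun h => h.1, fun h => ⟨h, ?_⟩⟩⟩
        rintro rfl
        exact hpq (hp.trans hx.symm)
      · have hq : c q = t := by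
          revert hp hpq
          cases c p <;> cases c q <;> cases t <;> simp
        refine ⟨q, Or.inr rfl, hq, fun x hx => ⟨fun h => h.2, fun h => ⟨?_, h⟩⟩⟩
        rintro rfl
        exact hpq (hx.trans hq.symm)
    have h2 : (univ.filter (fun x => c x = t)).filter (fun x => x ≠ p ∧ x ≠ q) =
        (univ.filter (fun x => c x = t)).erase r := by
      ext x
      simp only [mem_filter, mem_univ, true_and, mem_erase]
      constructor
      · rintro ⟨h3, h4⟩; exact ⟨(hr2 x h3).mp h4, h3⟩
      · rintro ⟨h3, h4⟩; exact ⟨h4, (hr2 x h4).mpr h3⟩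
    rw [h1, h2]
    exact Finset.card_erase_add_one (by simp [hrt])
  have hcard : ∀ (U : Type) [Fintype U] (d : U → Bool),
      #(univ.filter (fun x => d x = true)) + #(univ.filter (fun x => d x = false)) = card U := by
    intro U _ d
    have := Finset.card_filter_add_card_filter_not (s := (univ : Finset U)) (p := fun x => d x = true)
    simpa using this
  have k1 := key true
  have k2 := key false
  have k3 := hcard V c
  have k4 := hcard {v : V // v ≠ p ∧ v ≠ q} (fun x => c x.1)
  obtain ⟨b1, b2⟩ := hc
  refine ⟨⟨by beta_reduce; omega, by beta_reduce; omega⟩, ?_⟩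
  have k5 : card {v : V // v ≠ p ∧ v ≠ q} =
      #(univ.filter (fun x : {v : V // v ≠ p ∧ v ≠ q} => c x.1 = true)) +
      #(univ.filter (fun x : {v : V // v ≠ p ∧ v ≠ q} => c x.1 = false)) := by
    rw [← k4]
  omega

open Classical in
lemma card_remove {V : Type} [Fintype V] (p q : V) (hpq : p ≠ q) :
    card {v : V // v ≠ p ∧ v ≠ q} + 2 = card V := by
  rw [Fintype.card_subtype]
  have : univ.filter (fun v : V => v ≠ p ∧ v ≠ q) = (univ.erase p).erase q := by
    ext x; simp; tauto
  rw [this]
  have h1 : #((univ : Finset V).erase p) + 1 = #(univ : Finset V) :=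
    Finset.card_erase_add_one (mem_univ _)
  have h2 : #(((univ : Finset V).erase p).erase q) + 1 = #((univ : Finset V).erase p) :=
    Finset.card_erase_add_one (by simp [hpq.symm])
  rw [Finset.card_univ] at h1
  omega

open Classical in
/-- graphs with at most one edge at every vertex: balanced complete bipartite graphs maximise -/
lemma matching_le (k : ℕ) : ∀ (W : Type) [Fintype W] (H : SimpleGraph W), card W = k →
    (∀ w u v, H.Adj w u → H.Adj w v → u = v) →
    ∀ (V V' : Type) [Fintype V] [Fintype V'], card V' = card V → ∀ (c : V → Bool), Bal c →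
    ∀ (G : SimpleGraph V'), G.CliqueFree 3 → num H G ≤ num H (cb c) := by
  induction k using Nat.strong_induction_on with
  | _ k ih =>
  intro W _ H hk hH V V' _ _ hVV' c hc G hG
  by_cases hE : ∃ a b, H.Adj a b
  swap
  · -- no edges
    push Not at hE
    let e : V' ≃ V := Fintype.equivOfCardEq hVV'
    unfold num
    apply Finset.card_le_card_of_injOn (fun (f : W → V') => fun x => e (f x))
    · intro f hf
      rw [Finset.mem_coe, mem_injs] at hf
      rw [Finset.mem_coe, mem_injs]
      exact ⟨e.injective.comp hf.1, fun a b hab => absurd hab (hE a b)⟩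
    · intro f _ g _ h
      funext x
      exact e.injective (congrFun h x)
  obtain ⟨a, b, hab⟩ := hE
  have ha : ∀ x, H.Adj a x → x = b := fun x hx => hH a x b hx hab
  have hb : ∀ x, H.Adj b x → x = a := fun x hx => hH b x a hx hab.symm
  set H' := H.comap (Subtype.val : {x : W // x ≠ a ∧ x ≠ b} → W) with hH'
  have hH'm : ∀ w u v, H'.Adj w u → H'.Adj w v → u = v := by
    intro w u v hu hv
    exact Subtype.ext (hH w.1 u.1 v.1 hu hv)
  have hcardW : card {x : W // x ≠ a ∧ x ≠ b} < k := by
    have := card_remove a b hab.ne
    omega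
  have IH := ih _ hcardW {x : W // x ≠ a ∧ x ≠ b} H' rfl hH'm
  have eG := num_remove H G a b hab ha hb
  have ec := num_remove H (cb c) a b hab ha hb
  rw [← hH'] at eG ec
  by_cases hne : ∃ p q, G.Adj p q
  swap
  · push Not at hne
    have : num H G = 0 := by
      rw [eG]
      apply Finset.sum_eq_zero
      rintro ⟨p, q⟩ hpq
      simp only [mem_filter, mem_univ, true_and] at hpq
      exact absurd hpq (hne p q)
    omega
  obtain ⟨p₁, q₁, hpq₁⟩ := hne
  -- an edge of `cb c`
  obtain ⟨p₀, q₀, hpq₀⟩ : ∃ p₀ q₀, c p₀ ≠ c q₀ := by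
    have h2 : 2 ≤ card V := by
      rw [← hVV']
      have := card_remove p₁ q₁ hpq₁.ne
      omega
    have h3 : #(univ.filter (fun x => c x = true)) + #(univ.filter (fun x => c x = false)) = card V := by
      have := Finset.card_filter_add_card_filter_not (s := (univ : Finset V)) (p := fun x => c x = true)
      simpa using this
    obtain ⟨b1, b2⟩ := hc
    have h4 : 0 < #(univ.filter (fun x => c x = true)) := by omega
    have h5 : 0 < #(univ.filter (fun x => c x = false)) := by omega
    obtain ⟨p, hp⟩ := Finset.card_pos.mp h4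
    obtain ⟨q, hq⟩ := Finset.card_pos.mp h5
    simp only [mem_filter, mem_univ, true_and] at hp hq
    exact ⟨p, q, by rw [hp, hq]; simp⟩
  obtain ⟨hbal₀, hcard₀⟩ := bal_remove c hc p₀ q₀ hpq₀
  set M := num H' (cb (fun x : {v : V // v ≠ p₀ ∧ v ≠ q₀} => c x.1)) with hM
  have hcomap : ∀ p q : V, (cb c).comap (Subtype.val : {v : V // v ≠ p ∧ v ≠ q} → V) =
      cb (fun x : {v : V // v ≠ p ∧ v ≠ q} => c x.1) := fun p q => rfl
  have up : ∀ p q : V', G.Adj p q →
      num H' (G.comap (Subtype.val : {v : V' // v ≠ p ∧ v ≠ q} → V')) ≤ M := by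
    intro p q hpq
    apply IH
    · have := card_remove p q hpq.ne
      omega
    · exact hbal₀
    · exact cliqueFree_comap _ _ hG
  have lo : ∀ p q : V, c p ≠ c q →
      M ≤ num H' ((cb c).comap (Subtype.val : {v : V // v ≠ p ∧ v ≠ q} → V)) := by
    intro p q hpq
    rw [hcomap]
    obtain ⟨hbal, hcard⟩ := bal_remove c hc p q hpq
    apply IH
    · omega
    · exact hbal
    · apply cliqueFree_comap
      intro t ht
      have h1 := ht.card_eq
      have h2 : #t ≤ card Bool := Finset.card_le_univ t
      simp at h2
      omega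
  calc num H G = ∑ p ∈ univ.filter (fun p : V' × V' => G.Adj p.1 p.2),
        num H' (G.comap (Subtype.val : {v : V' // v ≠ p.1 ∧ v ≠ p.2} → V')) := eG
    _ ≤ ∑ p ∈ univ.filter (fun p : V' × V' => G.Adj p.1 p.2), M := by
        apply Finset.sum_le_sum
        rintro ⟨p, q⟩ hpq
        simp only [mem_filter, mem_univ, true_and] at hpq
        exact up p q hpq
    _ = #(univ.filter (fun p : V' × V' => G.Adj p.1 p.2)) * M := by
        rw [Finset.sum_const, smul_eq_mul]
    _ ≤ #(univ.filter (fun p : V × V => (cb c).Adj p.1 p.2)) * M :=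
        Nat.mul_le_mul_right _ (mantel hVV' c hc G hG)
    _ = ∑ p ∈ univ.filter (fun p : V × V => (cb c).Adj p.1 p.2), M := by
        rw [Finset.sum_const, smul_eq_mul]
    _ ≤ ∑ p ∈ univ.filter (fun p : V × V => (cb c).Adj p.1 p.2),
        num H' ((cb c).comap (Subtype.val : {v : V // v ≠ p.1 ∧ v ≠ p.2} → V)) := by
        apply Finset.sum_le_sum
        rintro ⟨p, q⟩ hpq
        simp only [mem_filter, mem_univ, true_and, cb_adj] at hpq
        exact lo p q hpq
    _ = num H (cb c) := ec.symm

end H67Blow
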