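import Pool.Agent.H67.Blow.Basic

open Finset Fintype

namespace H67Blow

variable {V W : Type*} [Fintype V] [Fintype W]

open Classical in
/-- functions with prescribed sets on a set `P` of coordinates. -/
noncomputable def pin (P : Finset W) (A : W → Finset V) : Finset (W → V) :=
  univ.filter (fun f => ∀ a ∈ P, f a ∈ A a)

lemma pin_card [Nonempty V] (P : Finset W) (A : W → Finset V) :
    (#(pin P A) : ℝ) = (∏ a ∈ P, ((#(A a) : ℝ) / card V)) * (card V : ℝ) ^ (card W) := by
  classical
  have hn : (card V : ℝ) ≠ 0 := by positivity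
  have h1 : pin P A = Fintype.piFinset (fun a => if a ∈ P then A a else univ) := by
    ext f
    simp only [pin, mem_filter, mem_univ, true_and, Fintype.mem_piFinset]
    constructor
    · intro h a
      by_cases ha : a ∈ P <;> simp [ha, h]
    · intro h a ha
      have := h a
      simpa [ha] using this
  rw [h1, Fintype.card_piFinset]
  push_cast
  have h2 : ∀ a ∈ (univ : Finset W), ((#(if a ∈ P then A a else univ) : ℕ) : ℝ)
      = (if a ∈ P then ((#(A a) : ℝ) / card V) else 1) * card V := by
    intro a _
    by_cases ha : a ∈ P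
    · simp only [ha, if_true]
      field_simp
    · simp [ha, Finset.card_univ]
  rw [Finset.prod_congr rfl h2, Finset.prod_mul_distrib, Finset.prod_const, Finset.card_univ]
  congr 1
  rw [Finset.prod_ite_mem, Finset.univ_inter]

open Classical in
lemma pin_eq (P : Finset W) (A : W → Finset V) (a b : W) (ha : a ∉ P) (hab : a ≠ b) :
    card V * #((pin P A).filter (fun f => f a = f b)) ≤ #(pin P A) := by
  rw [← Finset.card_univ, ← Finset.card_product]
  apply Finset.card_le_card_of_injOn (fun p : V × (W → V) => Function.update p.2 a p.1)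
  · rintro ⟨y, f⟩ hf
    simp only [coe_product, coe_univ, coe_filter, Set.mem_prod, Set.mem_univ, true_and,
      Set.mem_ofPred_eq, pin, mem_filter, mem_univ] at hf
    simp only [pin, coe_filter, mem_univ, true_and, Set.mem_ofPred_eq]
    intro c hc
    have hca : c ≠ a := fun h => ha (h ▸ hc)
    rw [Function.update_of_ne hca]
    exact hf.1 c hc
  · rintro ⟨y, f⟩ hf ⟨y', f'⟩ hf' h
    simp only [coe_product, coe_univ, coe_filter, Set.mem_prod, Set.mem_univ, true_and,
      Set.mem_ofPred_eq, pin, mem_filter, mem_univ] at hf hf' h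
    have h1 : y = y' := by
      have := congrFun h a
      simpa using this
    have h2 : ∀ c, c ≠ a → f c = f' c := by
      intro c hc
      have := congrFun h c
      simpa [Function.update_of_ne hc] using this
    have h3 : f = f' := by
      funext c
      by_cases hc : c = a
      · subst hc
        rw [hf.2, hf'.2, h2 b hab.symm]
      · exact h2 c hc
    rw [h1, h3]

lemma pin_mono (P : Finset W) (A : W → Finset V) : pin P A ⊆ pin ∅ (fun _ => univ) := by
  intro f _
  simp [pin]

open Classical in
/-- number of functions with a coincidence `f a = f b` -/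
lemma eq_card_le [Nonempty V] (a b : W) (hab : a ≠ b) :
    (#(univ.filter (fun f : W → V => f a = f b)) : ℝ) ≤ (card V : ℝ) ^ (card W) / card V := by
  have h := pin_eq (V := V) (∅ : Finset W) (fun _ => univ) a b (by simp) hab
  have hn : (0 : ℝ) < card V := by positivity
  have h1 : (pin (∅ : Finset W) (fun _ => (univ : Finset V))) = univ := by
    ext f; simp [pin]
  rw [h1] at h
  rw [le_div_iff₀ hn]
  have h2 : ((card V * #(univ.filter (fun f : W → V => f a = f b)) : ℕ) : ℝ)
      ≤ ((#(univ : Finset (W → V)) : ℕ) : ℝ) := by exact_mod_cast h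
  rw [Finset.card_univ, Fintype.card_fun] at h2
  push_cast at h2
  linarith

open Classical in
lemma noninj_card_le [Nonempty V] :
    (#(univ.filter (fun f : W → V => ¬ Function.Injective f)) : ℝ)
      ≤ (card W : ℝ) ^ 2 * ((card V : ℝ) ^ (card W) / card V) := by
  have h1 : univ.filter (fun f : W → V => ¬ Function.Injective f) ⊆
      (univ.filter (fun p : W × W => p.1 ≠ p.2)).biUnion
        (fun p => univ.filter (fun f : W → V => f p.1 = f p.2)) := by
    intro f hf
    simp only [mem_filter, mem_univ, true_and, Function.Injective, not_forall] at hf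
    obtain ⟨a, b, hab, hne⟩ := hf
    simp only [mem_biUnion, mem_filter, mem_univ, true_and]
    exact ⟨(a, b), hne, hab⟩
  have h2 : (#(univ.filter (fun f : W → V => ¬ Function.Injective f)) : ℝ) ≤
      ∑ p ∈ univ.filter (fun p : W × W => p.1 ≠ p.2),
        (#(univ.filter (fun f : W → V => f p.1 = f p.2)) : ℝ) := by
    have := (Finset.card_le_card h1).trans Finset.card_biUnion_le
    exact_mod_cast this
  refine h2.trans ((Finset.sum_le_sum (fun p hp => eq_card_le p.1 p.2 (by simpa using hp))).trans ?_)
  rw [Finset.sum_const, nsmul_eq_mul]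
  apply mul_le_mul_of_nonneg_right _ (by positivity)
  have : #(univ.filter (fun p : W × W => p.1 ≠ p.2)) ≤ card W ^ 2 := by
    refine (Finset.card_filter_le _ _).trans ?_
    rw [Finset.card_univ, Fintype.card_prod]; nlinarith
  exact_mod_cast this

/-- two pins -/
lemma pin2 [Nonempty V] (u v : W) (huv : u ≠ v) (A B : Finset V) (S : Finset (W → V))
    (hS : ∀ f ∈ S, f u ∈ A ∧ f v ∈ B) :
    (#S : ℝ) ≤ (#A : ℝ) * #B * ((card V : ℝ) ^ (card W) / (card V : ℝ) ^ 2) := by
  classical
  have hn : (card V : ℝ) ≠ 0 := by positivity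
  have h1 : S ⊆ pin {u, v} (fun a => if a = u then A else B) := by
    intro f hf
    have := hS f hf
    simp only [pin, mem_filter, mem_univ, true_and, mem_insert, mem_singleton]
    rintro a (rfl | rfl)
    · simpa using this.1
    · rw [if_neg (Ne.symm huv)]; exact this.2
  have h2 : (#S : ℝ) ≤ #(pin {u, v} (fun a => if a = u then A else B)) := by
    exact_mod_cast Finset.card_le_card h1
  rw [pin_card, Finset.prod_pair huv] at h2
  simp only [if_true, if_neg (Ne.symm huv)] at h2
  refine h2.trans (le_of_eq ?_)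
  field_simp

/-- three pins -/
lemma pin3 [Nonempty V] (u v w : W) (huv : u ≠ v) (huw : u ≠ w) (hvw : v ≠ w)
    (A B C : Finset V) (S : Finset (W → V))
    (hS : ∀ f ∈ S, f u ∈ A ∧ f v ∈ B ∧ f w ∈ C) :
    (#S : ℝ) ≤ (#A : ℝ) * #B * #C * ((card V : ℝ) ^ (card W) / (card V : ℝ) ^ 3) := by
  classical
  have hn : (card V : ℝ) ≠ 0 := by positivity
  have h1 : S ⊆ pin {u, v, w} (fun a => if a = u then A else if a = v then B else C) := by
    intro f hf
    have := hS f hf
    simp only [pin, mem_filter, mem_univ, true_and, mem_insert, mem_singleton]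
    rintro a (rfl | rfl | rfl)
    · simpa using this.1
    · rw [if_neg (Ne.symm huv), if_pos rfl]; exact this.2.1
    · rw [if_neg (Ne.symm huw), if_neg (Ne.symm hvw)]; exact this.2.2
  have h2 : (#S : ℝ) ≤ #(pin {u, v, w} (fun a => if a = u then A else if a = v then B else C)) := by
    exact_mod_cast Finset.card_le_card h1
  rw [pin_card, Finset.prod_insert (by simp [huv, huw]), Finset.prod_pair hvw] at h2
  simp only [if_true, if_neg (Ne.symm huv), if_neg (Ne.symm huw), if_neg (Ne.symm hvw)] at h2
  refine h2.trans (le_of_eq ?_)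
  field_simp

/-- four pins -/
lemma pin4 [Nonempty V] (u v w z : W) (huv : u ≠ v) (huw : u ≠ w) (huz : u ≠ z) (hvw : v ≠ w)
    (hvz : v ≠ z) (hwz : w ≠ z)
    (A B C D : Finset V) (S : Finset (W → V))
    (hS : ∀ f ∈ S, f u ∈ A ∧ f v ∈ B ∧ f w ∈ C ∧ f z ∈ D) :
    (#S : ℝ) ≤ (#A : ℝ) * #B * #C * #D * ((card V : ℝ) ^ (card W) / (card V : ℝ) ^ 4) := by
  classical
  have hn : (card V : ℝ) ≠ 0 := by positivity
  have h1 : S ⊆ pin {u, v, w, z}
      (fun a => if a = u then A else if a = v then B else if a = w then C else D) := by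
    intro f hf
    have := hS f hf
    simp only [pin, mem_filter, mem_univ, true_and, mem_insert, mem_singleton]
    rintro a (rfl | rfl | rfl | rfl)
    · simpa using this.1
    · rw [if_neg (Ne.symm huv), if_pos rfl]; exact this.2.1
    · rw [if_neg (Ne.symm huw), if_neg (Ne.symm hvw), if_pos rfl]; exact this.2.2.1
    · rw [if_neg (Ne.symm huz), if_neg (Ne.symm hvz), if_neg (Ne.symm hwz)]; exact this.2.2.2
  have h2 : (#S : ℝ) ≤ #(pin {u, v, w, z}
      (fun a => if a = u then A else if a = v then B else if a = w then C else D)) := by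
    exact_mod_cast Finset.card_le_card h1
  rw [pin_card, Finset.prod_insert (by simp [huv, huw, huz]),
    Finset.prod_insert (by simp [hvw, hvz]), Finset.prod_pair hwz] at h2
  simp only [if_true, if_neg (Ne.symm huv), if_neg (Ne.symm huw), if_neg (Ne.symm huz),
    if_neg (Ne.symm hvw), if_neg (Ne.symm hvz), if_neg (Ne.symm hwz)] at h2
  refine h2.trans (le_of_eq ?_)
  field_simp

open Classical in
/-- three pins and a coincidence outside the pins -/
lemma pin3_eq [Nonempty V] (u v w : W) (huv : u ≠ v) (huw : u ≠ w) (hvw : v ≠ w)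
    (A B C : Finset V) (a b : W) (hau : a ≠ u) (hav : a ≠ v) (haw : a ≠ w) (hab : a ≠ b)
    (S : Finset (W → V))
    (hS : ∀ f ∈ S, (f u ∈ A ∧ f v ∈ B ∧ f w ∈ C) ∧ f a = f b) :
    (#S : ℝ) ≤ (#A : ℝ) * #B * #C * ((card V : ℝ) ^ (card W) / (card V : ℝ) ^ 4) := by
  have hn : (0 : ℝ) < card V := by positivity
  let AA : W → Finset V := fun a => if a = u then A else if a = v then B else C
  have h1 : S ⊆ (pin {u, v, w} AA).filter (fun f => f a = f b) := by
    intro f hf
    have := hS f hf
    simp only [pin, mem_filter, mem_univ, true_and, mem_insert, mem_singleton, AA]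
    refine ⟨?_, this.2⟩
    rintro a (rfl | rfl | rfl)
    · simpa using this.1.1
    · rw [if_neg (Ne.symm huv), if_pos rfl]; exact this.1.2.1
    · rw [if_neg (Ne.symm huw), if_neg (Ne.symm hvw)]; exact this.1.2.2
  have h2 := pin_eq (V := V) {u, v, w} AA a b (by simp [hau, hav, haw]) hab
  have h3 : (#(pin {u, v, w} AA) : ℝ) ≤
      (#A : ℝ) * #B * #C * ((card V : ℝ) ^ (card W) / (card V : ℝ) ^ 3) := by
    apply pin3 u v w huv huw hvw
    intro f hf
    simp only [pin, mem_filter, mem_univ, true_and, mem_insert, mem_singleton, AA] at hf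
    refine ⟨by simpa using hf u (by simp), ?_, ?_⟩
    · have := hf v (by simp)
      rwa [if_neg (Ne.symm huv), if_pos rfl] at this
    · have := hf w (by simp)
      rwa [if_neg (Ne.symm huw), if_neg (Ne.symm hvw)] at this
  have h4 : (#S : ℝ) ≤ #((pin {u, v, w} AA).filter (fun f => f a = f b)) := by
    exact_mod_cast Finset.card_le_card h1
  have h5 : (card V : ℝ) * #((pin {u, v, w} AA).filter (fun f => f a = f b)) ≤
      #(pin {u, v, w} AA) := by exact_mod_cast h2
  have h6 : (#S : ℝ) * card V ≤ (#A : ℝ) * #B * #C * ((card V : ℝ) ^ (card W) / (card V : ℝ) ^ 3) := by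
    nlinarith
  rw [← le_div_iff₀ hn] at h6
  refine h6.trans (le_of_eq ?_)
  field_simp

end H67Blow
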