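import Pool.Agent.H67.Blow.Close

open Finset Fintype

namespace H67Blow

open Classical in
/-- the regularity lemma, packaged: a triangle-free graph is close to a triangle-free graph
defined on boundedly many parts. -/
lemma exists_reduced {V : Type*} [Fintype V] [Nonempty V] (G : SimpleGraph V)
    (hG : G.CliqueFree 3) (ε : ℝ) (hε0 : 0 < ε) (hε1 : ε ≤ 1) (hn : ⌈4 / ε⌉₊ ≤ card V) :
    ∃ (P : Finpartition (univ : Finset V)) (G' : SimpleGraph V),
      #P.parts ≤ SzemerediRegularity.bound (ε / 8) ⌈4 / ε⌉₊ ∧ G'.CliqueFree 3 ∧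
      (∀ U ∈ P.parts, ∀ a ∈ U, ∀ a' ∈ U, ∀ b, G'.Adj a b ↔ G'.Adj a' b) ∧
      (#(univ.filter (fun p : V × V => G.Adj p.1 p.2 ∧ ¬ G'.Adj p.1 p.2)) : ℝ)
        ≤ 2 * ε * (card V : ℝ) ^ 2 := by
  obtain ⟨P, hP1, hP2, hP3, hP4⟩ := szemeredi_regularity G (by positivity : 0 < ε / 8) hn
  let G' : SimpleGraph V :=
    { Adj := fun a b => ∃ U ∈ P.parts, ∃ U' ∈ P.parts, a ∈ U ∧ b ∈ U' ∧ U ≠ U' ∧
        G.IsUniform (ε / 8) U U' ∧ (ε / 4) ≤ G.edgeDensity U U'
      symm := ⟨by
        rintro a b ⟨U, hU, U', hU', ha, hb, hne, hunif, hd⟩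
        refine ⟨U', hU', U, hU, hb, ha, hne.symm, hunif.symm, ?_⟩
        rwa [SimpleGraph.edgeDensity_comm]⟩
      loopless := ⟨by
        rintro a ⟨U, hU, U', hU', ha, ha', hne, _⟩
        exact hne (P.disjoint.elim hU hU' (Finset.not_disjoint_iff.mpr ⟨a, ha, ha'⟩))⟩ }
  refine ⟨P, G', hP3, ?_, ?_, ?_⟩
  · -- triangle-free
    intro t ht
    rw [SimpleGraph.is3Clique_iff] at ht
    obtain ⟨x, y, z, ⟨X, hX, Y, hY, xX, yY, nXY, uXY, dXY⟩,
                   ⟨X', hX', Z, hZ, xX', zZ, nXZ, uXZ, dXZ⟩,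
                   ⟨Y', hY', Z', hZ', yY', zZ', nYZ, uYZ, dYZ⟩, rfl⟩ := ht
    cases P.disjoint.elim hX hX' (Finset.not_disjoint_iff.mpr ⟨x, xX, xX'⟩)
    cases P.disjoint.elim hY hY' (Finset.not_disjoint_iff.mpr ⟨y, yY, yY'⟩)
    cases P.disjoint.elim hZ hZ' (Finset.not_disjoint_iff.mpr ⟨z, zZ, zZ'⟩)
    have that : 2 * (ε / 8) = ε / 4 := by ring
    have hcount := SimpleGraph.triangle_counting' G (by rwa [that]) uXY (by rwa [that]) uXZ
      (by rwa [that]) uYZ
    have hempty : ((X ×ˢ Y ×ˢ Z).filter fun (a, b, c) ↦ G.Adj a b ∧ G.Adj a c ∧ G.Adj b c) = ∅ := by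
      rw [Finset.filter_eq_empty_iff]
      rintro ⟨a, b, c⟩ _ ⟨h1, h2, h3⟩
      exact tf_not G hG h1 h2 h3
    rw [hempty] at hcount
    simp only [Finset.card_empty, Nat.cast_zero] at hcount
    have p1 : (0 : ℝ) < #X := by exact_mod_cast Finset.card_pos.mpr ⟨x, xX⟩
    have p2 : (0 : ℝ) < #Y := by exact_mod_cast Finset.card_pos.mpr ⟨y, yY⟩
    have p3 : (0 : ℝ) < #Z := by exact_mod_cast Finset.card_pos.mpr ⟨z, zZ⟩
    have p4 : (0 : ℝ) < 1 - 2 * (ε / 8) := by linarith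
    have : 0 < (1 - 2 * (ε / 8)) * (ε / 8) ^ 3 * #X * #Y * #Z := by positivity
    linarith
  · intro U hU a ha a' ha' b
    constructor
    · rintro ⟨X, hX, Y, hY, xX, yY, rest⟩
      have : U = X := P.disjoint.elim hU hX (Finset.not_disjoint_iff.mpr ⟨a, ha, xX⟩)
      subst this
      exact ⟨U, hX, Y, hY, ha', yY, rest⟩
    · rintro ⟨X, hX, Y, hY, xX, yY, rest⟩
      have : U = X := P.disjoint.elim hU hX (Finset.not_disjoint_iff.mpr ⟨a', ha', xX⟩)
      subst this
      exact ⟨U, hX, Y, hY, ha, yY, rest⟩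
  · have hl : 4 / ε ≤ (#P.parts : ℝ) := (Nat.le_ceil (4 / ε)).trans (by exact_mod_cast hP2)
    have key := SimpleGraph.regularityReduced_edges_card_aux hε0 hP1 hP4 hl
    let Rd := G.regularityReduced P (ε / 8) (ε / 4)
    have e1 : 2 * #G.edgeFinset = #(univ.filter (fun p : V × V => G.Adj p.1 p.2)) := by
      rw [SimpleGraph.two_mul_card_edgeFinset]
    have e2 : 2 * #(G.regularityReduced P (ε / 8) (ε / 4)).edgeFinset =
        #(univ.filter (fun p : V × V => (G.regularityReduced P (ε / 8) (ε / 4)).Adj p.1 p.2)) := by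
      rw [SimpleGraph.two_mul_card_edgeFinset]
    have e3 : #(univ.filter (fun p : V × V => G.Adj p.1 p.2 ∧ ¬ G'.Adj p.1 p.2)) +
        #(univ.filter (fun p : V × V => (G.regularityReduced P (ε / 8) (ε / 4)).Adj p.1 p.2)) ≤
        #(univ.filter (fun p : V × V => G.Adj p.1 p.2)) := by
      rw [← Finset.card_union_of_disjoint]
      · apply Finset.card_le_card
        intro p hp
        simp only [mem_union, mem_filter, mem_univ, true_and] at hp ⊢
        rcases hp with hp | hp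
        · exact hp.1
        · exact SimpleGraph.regularityReduced_le hp
      · rw [Finset.disjoint_left]
        intro p hp hp'
        simp only [mem_filter, mem_univ, true_and] at hp hp'
        apply hp.2
        rw [SimpleGraph.regularityReduced_adj] at hp'
        exact hp'.2
    rw [← e1, ← e2] at e3
    have e3' : (#(univ.filter (fun p : V × V => G.Adj p.1 p.2 ∧ ¬ G'.Adj p.1 p.2)) : ℝ) +
        2 * #(G.regularityReduced P (ε / 8) (ε / 4)).edgeFinset ≤ 2 * #G.edgeFinset := by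
      exact_mod_cast e3
    push_cast at key
    have key' : (2 * #G.edgeFinset : ℝ) - 2 * #(G.regularityReduced P (ε / 8) (ε / 4)).edgeFinset
        < 2 * ε * (card V : ℝ) ^ 2 := by
      rw [← mul_sub]; exact key
    have fin : (#(univ.filter (fun p : V × V => G.Adj p.1 p.2 ∧ ¬ G'.Adj p.1 p.2)) : ℝ) ≤
        2 * ε * (card V : ℝ) ^ 2 := by
      linarith
    exact le_of_eq_of_le (by congr <;> exact Subsingleton.elim _ _) fin

end H67Blow
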