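import Pool.Agent.H67.Blow.Assemble
import Pool.Agent.H67.Blow.CopyCount
import Pool.Agent.H67.Blow.Matching

set_option autoImplicit false

/-!
# `ex(n, H, K₃)` is attained by blow-ups of a fixed graph

For every bipartite graph `H` there is a fixed graph `G₀` such that for all large `n` the maximum
number of copies of `H` in a triangle-free graph on `n` vertices is attained by a blow-up of `G₀`.

Proof idea. Let `G` be an extremal graph and let `H` have a vertex of degree at least two (graphs
`H` of maximum degree one are treated by Mantel's theorem and induction).

1. For every edge `xy` of `G` the number of edges between `N(x)` and `N(y)` is at least `τ n²`: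
   otherwise delete these edges and replace a small linear number of vertices by vertices attached
   to the independent set `N(x) ∪ N(y)`; such a vertex lies in (almost) twice as many copies of `H`
   as every vertex of `G`.
2. Hence by the Kővári–Sós–Turán argument there are at least `κ n^(h-3)` homomorphisms `H → G` with
   two neighbours of a vertex `w` at `x` and `w` at `y`, for every edge `xy` of `G`.
3. Comparing `G` with the two graphs in which one of two nonadjacent vertices is replaced by a clone
   of the other one, this shows that nonadjacent vertices are twins or their neighbourhoods differ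
   in at least `η n` vertices.
4. By the regularity lemma `G` is close to a blow-up of a graph with boundedly many vertices, so `G`
   has boundedly many classes of twins.
-/

namespace Pool.Agent.H67.Blow.TriangleFree

/-- `G` attains `ex(n, H, K₃)`: it is triangle-free, and no triangle-free graph on the same vertex
set has more copies of `H`. -/
def IsExtremal {W : Type} [Fintype W] (H : SimpleGraph W) {n : ℕ} (G : SimpleGraph (Fin n)) :
    Prop :=
  G.CliqueFree 3 ∧ ∀ G' : SimpleGraph (Fin n), G'.CliqueFree 3 → G'.copyCount H ≤ G.copyCount H

/-- Let `H` be a finite bipartite graph. There is a fixed finite graph `G₀` such that for all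
sufficiently large `n` some blow-up of `G₀` on `n` vertices (`φ` tells which part a vertex lies in)
attains `ex(n, H, K₃)`. -/
theorem result {W : Type} [Fintype W] (H : SimpleGraph W) (hbip : H.Colorable 2) :
    ∃ (m : ℕ) (G₀ : SimpleGraph (Fin m)) (n₀ : ℕ), ∀ n ≥ n₀, ∃ φ : Fin n → Fin m,
      IsExtremal H (G₀.comap φ) := by
  by_cases hdeg : ∃ w u v, u ≠ v ∧ H.Adj w u ∧ H.Adj w v
  · obtain ⟨w, u, v, huv, hwu, hwv⟩ := hdeg
    obtain ⟨c⟩ := hbip
    have hcol : ∀ a b, H.Adj a b → (decide (c a = 0)) ≠ (decide (c b = 0)) := by
      intro a b hab
      have h := c.valid hab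
      have h1 : ∀ i j : Fin 2, i ≠ j → decide (i = 0) ≠ decide (j = 0) := by decide
      exact h1 _ _ h
    obtain ⟨m, G₀, n₀, h⟩ := H67Blow.blowup_num H (fun a => decide (c a = 0)) hcol
      u v w huv hwu hwv
    refine ⟨m, G₀, n₀, fun n hn => ?_⟩
    obtain ⟨φ, h1, h2⟩ := h n hn
    exact ⟨φ, h1, fun G' hG' => H67Blow.copyCount_le_of_num H G' (G₀.comap φ) (h2 G' hG')⟩
  · classical
    refine ⟨2, ⊤, 0, fun n _ => ?_⟩
    obtain ⟨A, _, hA⟩ := Finset.exists_subset_card_eq (s := (Finset.univ : Finset (Fin n)))
      (n := n / 2) (by rw [Finset.card_univ, Fintype.card_fin]; omega)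
    let c : Fin n → Bool := fun x => decide (x ∈ A)
    let φ : Fin n → Fin 2 := fun x => if x ∈ A then 0 else 1
    have hφ : (⊤ : SimpleGraph (Fin 2)).comap φ = H67Blow.cb c := by
      ext x y
      rw [H67Blow.cb_adj, SimpleGraph.comap_adj, SimpleGraph.top_adj]
      by_cases hx : x ∈ A <;> by_cases hy : y ∈ A <;> simp [φ, c, hx, hy]
    have hbal : H67Blow.Bal c := by
      have h1 : (Finset.univ.filter (fun x => c x = true)).card = n / 2 := by
        rw [← hA]; congr 1; ext x; simp [c]
      have h2 : (Finset.univ.filter (fun x => c x = true)).card +
          (Finset.univ.filter (fun x => c x = false)).card = n := by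
        have := Finset.card_filter_add_card_filter_not (s := (Finset.univ : Finset (Fin n)))
          (p := fun x => c x = true)
        simpa using this
      unfold H67Blow.Bal
      constructor
      · convert_to (Finset.univ.filter (fun x => c x = true)).card ≤
          (Finset.univ.filter (fun x => c x = false)).card + 1
        omega
      · convert_to (Finset.univ.filter (fun x => c x = false)).card ≤
          (Finset.univ.filter (fun x => c x = true)).card + 1
        omega
    refine ⟨φ, ?_, ?_⟩
    · apply H67Blow.cliqueFree_comap
      intro t ht
      have h1 := ht.card_eq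
      have h2 : t.card ≤ Fintype.card (Fin 2) := Finset.card_le_univ t
      simp at h2
      omega
    · intro G' hG'
      apply H67Blow.copyCount_le_of_num
      rw [hφ]
      apply H67Blow.matching_le (Fintype.card W) W H rfl _ (Fin n) (Fin n) rfl c hbal G' hG'
      intro w u v hu hv
      by_contra hne
      exact hdeg ⟨w, u, v, hne, hu, hv⟩

end Pool.Agent.H67.Blow.TriangleFree
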