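import Pool.Agent.H67.Blow.Close

/-!
In an extremal graph every edge `xy` has positive edge density between `N(x)` and `N(y)`.
-/

open Finset Fintype

namespace H67Blow

variable {V W : Type*} [Fintype V] [Fintype W]

open Classical in
/-- all vertices have nearly the same usage -/
lemma hits_le [Nonempty V] (H : SimpleGraph W) (G : SimpleGraph V) (hG : Ext H G) (x z : V) :
    (#(hits H G z) : ℝ) ≤ #(hits H G x) +
      (card W : ℝ) ^ 2 * ((card V : ℝ) ^ (card W) / (card V : ℝ) ^ 2) := by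
  by_cases hxz : x = z
  · subst hxz
    have : 0 ≤ (card W : ℝ) ^ 2 * ((card V : ℝ) ^ (card W) / (card V : ℝ) ^ 2) := by positivity
    linarith
  have h1 := clone_ineq H G hG x z hxz
  have h2 : #((hits H G z).filter (fun f => ∃ a, (∃ b, H.Adj a b) ∧ f a = x)) +
      #((hits H G z).filter (fun f => ¬ ∃ a, (∃ b, H.Adj a b) ∧ f a = x)) = #(hits H G z) :=
    Finset.card_filter_add_card_filter_not _
  have h3 : (hits H G z).filter (fun f => ∃ a, (∃ b, H.Adj a b) ∧ f a = x) ⊆
      (univ.filter (fun p : W × W => p.1 ≠ p.2)).biUnion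
        (fun p => univ.filter (fun f : W → V => f p.1 = z ∧ f p.2 = x)) := by
    intro f hf
    simp only [hits, mem_filter] at hf
    obtain ⟨⟨_, a, _, ha⟩, b, _, hb⟩ := hf
    simp only [mem_biUnion, mem_filter, mem_univ, true_and]
    refine ⟨(a, b), ?_, ha, hb⟩
    intro hab
    have hab' : a = b := hab
    rw [hab', hb] at ha
    exact hxz ha
  have h4 : (#((hits H G z).filter (fun f => ∃ a, (∃ b, H.Adj a b) ∧ f a = x)) : ℝ) ≤
      ∑ p ∈ univ.filter (fun p : W × W => p.1 ≠ p.2),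
        (#(univ.filter (fun f : W → V => f p.1 = z ∧ f p.2 = x)) : ℝ) := by
    exact_mod_cast (Finset.card_le_card h3).trans Finset.card_biUnion_le
  have h5 : (#((hits H G z).filter (fun f => ∃ a, (∃ b, H.Adj a b) ∧ f a = x)) : ℝ) ≤
      (card W : ℝ) ^ 2 * ((card V : ℝ) ^ (card W) / (card V : ℝ) ^ 2) := by
    refine h4.trans ((Finset.sum_le_sum (fun p hp => pin2 p.1 p.2 (by simpa using hp) {z} {x} _
      (fun f hf => by simpa using hf))).trans ?_)
    rw [Finset.sum_const, nsmul_eq_mul]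
    simp only [card_singleton, Nat.cast_one, one_mul]
    apply mul_le_mul_of_nonneg_right _ (by positivity)
    have : #(univ.filter (fun p : W × W => p.1 ≠ p.2)) ≤ card W ^ 2 := by
      refine (Finset.card_filter_le _ _).trans ?_
      rw [Finset.card_univ, Fintype.card_prod]; nlinarith
    exact_mod_cast this
  have h6 : (#(hits H G z) : ℝ) =
      #((hits H G z).filter (fun f => ∃ a, (∃ b, H.Adj a b) ∧ f a = x)) +
      #((hits H G z).filter (fun f => ¬ ∃ a, (∃ b, H.Adj a b) ∧ f a = x)) := by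
    exact_mod_cast h2.symm
  have h7 : (#((hits H G z).filter (fun f => ¬ ∃ a, (∃ b, H.Adj a b) ∧ f a = x)) : ℝ) ≤
      #(hits H G x) := by exact_mod_cast h1
  linarith

open Classical in
/-- some vertex has at least the average usage -/
lemma exists_hits [Nonempty V] (H : SimpleGraph W) (hH : ∃ a b, H.Adj a b) (G : SimpleGraph V) :
    ∃ z : V, (num H G : ℝ) / card V ≤ #(hits H G z) := by
  have hn : (0 : ℝ) < card V := by positivity
  obtain ⟨z, hz⟩ : ∃ z : V, num H G ≤ card V * #(hits H G z) := by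
    by_contra! hcon
    have h1 : num H G ≤ ∑ z : V, #(hits H G z) := by
      have : num H G = ∑ f ∈ injs H G, 1 := by simp [num]
      rw [this]
      have h2 : ∑ z : V, #(hits H G z) =
          ∑ f ∈ injs H G, #(univ.filter (fun z => ∃ a, (∃ b, H.Adj a b) ∧ f a = z)) := by
        simp only [hits, Finset.card_filter]
        rw [Finset.sum_comm]
      rw [h2]
      apply Finset.sum_le_sum
      intro f _
      obtain ⟨a, b, hab⟩ := hH
      exact Finset.card_pos.mpr ⟨f a, by simp only [mem_filter, mem_univ, true_and]; exact ⟨a, ⟨b, hab⟩, rfl⟩⟩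
    have h3 : card V * ∑ z : V, #(hits H G z) < card V * num H G := by
      rw [Finset.mul_sum]
      calc ∑ z : V, card V * #(hits H G z) < ∑ _z : V, num H G :=
            Finset.sum_lt_sum_of_nonempty univ_nonempty (fun z _ => hcon z)
        _ = card V * num H G := by simp [Finset.card_univ]
    have := Nat.mul_le_mul_left (card V) h1
    omega
  refine ⟨z, ?_⟩
  rw [div_le_iff₀ hn]
  have : (num H G : ℝ) ≤ (card V : ℝ) * #(hits H G z) := by exact_mod_cast hz
  linarith

/-- the modified graph: vertices of `Q` are attached to `N(x) ∪ N(y)`, edges between `N(x)` and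
`N(y)` are deleted. -/
def union {V : Type*} (G : SimpleGraph V) (x y : V) (Q : Finset V) : SimpleGraph V where
  Adj p q := (p ∉ Q ∧ q ∉ Q ∧ G.Adj p q ∧ ¬ (G.Adj x p ∧ G.Adj y q) ∧ ¬ (G.Adj x q ∧ G.Adj y p)) ∨
    (p ∈ Q ∧ q ∉ Q ∧ (G.Adj x q ∨ G.Adj y q)) ∨ (q ∈ Q ∧ p ∉ Q ∧ (G.Adj x p ∨ G.Adj y p))
  symm := ⟨by
    rintro p q (⟨h1, h2, h3, h4, h5⟩ | ⟨h1, h2, h3⟩ | ⟨h1, h2, h3⟩)
    · exact Or.inl ⟨h2, h1, h3.symm, h5, h4⟩
    · exact Or.inr (Or.inr ⟨h1, h2, h3⟩)
    · exact Or.inr (Or.inl ⟨h1, h2, h3⟩)⟩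
  loopless := ⟨by
    rintro p (⟨_, _, h3, _, _⟩ | ⟨h1, h2, _⟩ | ⟨h1, h2, _⟩)
    · exact G.irrefl h3
    · exact h2 h1
    · exact h2 h1⟩

lemma union_cliqueFree {V : Type*} (G : SimpleGraph V) (hG : G.CliqueFree 3) (x y : V)
    (Q : Finset V) : (union G x y Q).CliqueFree 3 := by
  classical
  intro t ht
  rw [SimpleGraph.is3Clique_iff] at ht
  obtain ⟨a, b, c, hab, hac, hbc, rfl⟩ := ht
  -- one vertex in `Q`, the other two outside
  have key : ∀ a b c : V, a ∈ Q → (union G x y Q).Adj a b → (union G x y Q).Adj a c →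
      (union G x y Q).Adj b c → False := by
    intro a b c ha hab hac hbc
    simp only [union] at hab hac hbc
    have hb : b ∉ Q ∧ (G.Adj x b ∨ G.Adj y b) := by tauto
    have hc : c ∉ Q ∧ (G.Adj x c ∨ G.Adj y c) := by tauto
    have hbc' : G.Adj b c ∧ ¬ (G.Adj x b ∧ G.Adj y c) ∧ ¬ (G.Adj x c ∧ G.Adj y b) := by tauto
    obtain ⟨h1, h2, h3⟩ := hbc'
    rcases hb.2 with hb' | hb' <;> rcases hc.2 with hc' | hc'
    · exact tf_not G hG hb' hc' h1
    · exact h2 ⟨hb', hc'⟩
    · exact h3 ⟨hc', hb'⟩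
    · exact tf_not G hG hb' hc' h1
  by_cases ha : a ∈ Q
  · exact key a b c ha hab hac hbc
  by_cases hb : b ∈ Q
  · exact key b a c hb hab.symm hbc hac
  by_cases hc : c ∈ Q
  · exact key c a b hc hac.symm hbc.symm hab
  simp only [union] at hab hac hbc
  exact tf_not G hG (a := a) (b := b) (c := c) (by tauto) (by tauto) (by tauto)

open Classical in
/-- copies hitting `z` in a good way -/
noncomputable def pre (H : SimpleGraph W) (G : SimpleGraph V) (x y : V) (Q : Finset V) (z : V) :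
    Finset (W → V) :=
  (injs H G).filter (fun f => ∃ i, (∃ b, H.Adj i b) ∧ f i = z ∧
    (∀ a, (∃ b, H.Adj a b) → a ≠ i → f a ∉ Q) ∧
    (∀ a b, H.Adj a b → a ≠ i → b ≠ i → ¬ (G.Adj x (f a) ∧ G.Adj y (f b))))

open Classical in
/-- the edges between `N(x)` and `N(y)` -/
noncomputable def cross (G : SimpleGraph V) (x y : V) : Finset (V × V) :=
  univ.filter (fun p => G.Adj x p.1 ∧ G.Adj y p.2 ∧ G.Adj p.1 p.2)

open Classical in
lemma pre_count [Nonempty V] (H : SimpleGraph W) (G : SimpleGraph V) (x y : V) (Q : Finset V)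
    (z : V) :
    (#(hits H G z) : ℝ) ≤ #(pre H G x y Q z) +
      (card W : ℝ) ^ 2 * (#Q * ((card V : ℝ) ^ (card W) / (card V : ℝ) ^ 2)) +
      (card W : ℝ) ^ 3 * (#(cross G x y) * ((card V : ℝ) ^ (card W) / (card V : ℝ) ^ 3)) := by
  set X2 : ℝ := (card V : ℝ) ^ (card W) / (card V : ℝ) ^ 2 with hX2
  set X3 : ℝ := (card V : ℝ) ^ (card W) / (card V : ℝ) ^ 3 with hX3
  have hX2' : 0 ≤ X2 := by positivity
  have hX3' : 0 ≤ X3 := by positivity
  let P2 : Finset (W × W) := univ.filter (fun p => p.1 ≠ p.2)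
  let P3 : Finset (W × W × W) := univ.filter (fun p => p.1 ≠ p.2.1 ∧ p.1 ≠ p.2.2 ∧ p.2.1 ≠ p.2.2)
  let E1 : Finset (W → V) := P2.biUnion (fun p => univ.filter (fun f : W → V => f p.1 = z ∧ f p.2 ∈ Q))
  let E2 : Finset (W → V) := P3.biUnion (fun p => univ.filter (fun f : W → V => f p.1 = z ∧
    (f p.2.1, f p.2.2) ∈ cross G x y))
  have hcover : hits H G z ⊆ (pre H G x y Q z ∪ E1) ∪ E2 := by
    intro f hf
    simp only [hits, mem_filter, mem_injs] at hf
    obtain ⟨⟨hi, hh⟩, i, hib, hfi⟩ := hf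
    by_cases h1 : ∀ a, (∃ b, H.Adj a b) → a ≠ i → f a ∉ Q
    · by_cases h2 : ∀ a b, H.Adj a b → a ≠ i → b ≠ i → ¬ (G.Adj x (f a) ∧ G.Adj y (f b))
      · rw [mem_union, mem_union]
        left; left
        simp only [pre, mem_filter, mem_injs]
        exact ⟨⟨hi, hh⟩, i, hib, hfi, h1, h2⟩
      · rw [mem_union]
        right
        push Not at h2
        obtain ⟨a, b, hab, ha, hb, hxa, hyb⟩ := h2
        simp only [E2, P3, mem_biUnion, mem_filter, mem_univ, true_and, cross]
        exact ⟨(i, a, b), ⟨ha.symm, hb.symm, hab.ne⟩, hfi, hxa, hyb, hh a b hab⟩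
    · rw [mem_union, mem_union]
      left; right
      push Not at h1
      obtain ⟨a, _, hai, haQ⟩ := h1
      simp only [E1, P2, mem_biUnion, mem_filter, mem_univ, true_and]
      exact ⟨(i, a), hai.symm, hfi, haQ⟩
  have b1 : (#E1 : ℝ) ≤ (card W : ℝ) ^ 2 * (#Q * X2) := by
    have h1 : (#E1 : ℝ) ≤ ∑ p ∈ P2, (#(univ.filter (fun f : W → V => f p.1 = z ∧ f p.2 ∈ Q)) : ℝ) := by
      exact_mod_cast Finset.card_biUnion_le
    refine h1.trans ((Finset.sum_le_sum (g := fun _ => (#Q : ℝ) * X2) ?_).trans ?_)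
    · intro p hp
      have := pin2 (V := V) p.1 p.2 (by simpa [P2] using hp) {z} Q
        (univ.filter (fun f : W → V => f p.1 = z ∧ f p.2 ∈ Q)) (by intro f hf; simpa using hf)
      simpa using this
    · rw [Finset.sum_const, nsmul_eq_mul]
      apply mul_le_mul_of_nonneg_right _ (by positivity)
      have : #P2 ≤ card W ^ 2 := by
        refine (Finset.card_filter_le _ _).trans ?_
        rw [Finset.card_univ, Fintype.card_prod]; nlinarith
      exact_mod_cast this
  have b2 : (#E2 : ℝ) ≤ (card W : ℝ) ^ 3 * (#(cross G x y) * X3) := by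
    have h1 : (#E2 : ℝ) ≤ ∑ p ∈ P3, (#(univ.filter (fun f : W → V => f p.1 = z ∧
        (f p.2.1, f p.2.2) ∈ cross G x y)) : ℝ) := by
      exact_mod_cast Finset.card_biUnion_le
    refine h1.trans ((Finset.sum_le_sum (g := fun _ => (#(cross G x y) : ℝ) * X3) ?_).trans ?_)
    · rintro ⟨i, a, b⟩ hp
      simp only [P3, mem_filter, mem_univ, true_and] at hp
      obtain ⟨n1, n2, n3⟩ := hp
      have h1 : univ.filter (fun f : W → V => f i = z ∧ (f a, f b) ∈ cross G x y) ⊆
          (cross G x y).biUnion (fun q => univ.filter (fun f : W → V => f i = z ∧ f a = q.1 ∧ f b = q.2)) := by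
        intro f hf
        simp only [mem_filter, mem_univ, true_and] at hf
        simp only [mem_biUnion, mem_filter, mem_univ, true_and]
        exact ⟨_, hf.2, hf.1, rfl, rfl⟩
      have h2 : (#(univ.filter (fun f : W → V => f i = z ∧ (f a, f b) ∈ cross G x y)) : ℝ) ≤
          ∑ q ∈ cross G x y, (#(univ.filter (fun f : W → V => f i = z ∧ f a = q.1 ∧ f b = q.2)) : ℝ) := by
        exact_mod_cast (Finset.card_le_card h1).trans Finset.card_biUnion_le
      refine h2.trans ((Finset.sum_le_sum (g := fun _ => X3) ?_).trans ?_)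
      · intro q _
        have := pin3 (V := V) i a b n1 n2 n3 {z} {q.1} {q.2}
          (univ.filter (fun f : W → V => f i = z ∧ f a = q.1 ∧ f b = q.2))
          (by intro f hf; simpa using hf)
        simpa using this
      · rw [Finset.sum_const, nsmul_eq_mul]
    · rw [Finset.sum_const, nsmul_eq_mul]
      apply mul_le_mul_of_nonneg_right _ (by positivity)
      have : #P3 ≤ card W ^ 3 := by
        refine (Finset.card_filter_le _ _).trans ?_
        rw [Finset.card_univ]
        simp only [Fintype.card_prod]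
        apply le_of_eq; ring
      exact_mod_cast this
  have htot : (#(hits H G z) : ℝ) ≤ #(pre H G x y Q z) + #E1 + #E2 := by
    have h1 := Finset.card_le_card hcover
    have h2 := Finset.card_union_le (pre H G x y Q z ∪ E1) E2
    have h3 := Finset.card_union_le (pre H G x y Q z) E1
    have : #(hits H G z) ≤ #(pre H G x y Q z) + #E1 + #E2 := by omega
    exact_mod_cast this
  linarith

open Classical in
/-- copies that survive -/
noncomputable def surv (H : SimpleGraph W) (G : SimpleGraph V) (x y : V) (Q : Finset V) :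
    Finset (W → V) :=
  (injs H G).filter (fun f => (∀ a, (∃ b, H.Adj a b) → f a ∉ Q) ∧
    (∀ a b, H.Adj a b → ¬ (G.Adj x (f a) ∧ G.Adj y (f b))))

open Classical in
lemma surv_count [Nonempty V] (H : SimpleGraph W) (G : SimpleGraph V) (x y : V) (Q : Finset V) :
    (num H G : ℝ) ≤ #(surv H G x y Q) + ∑ q ∈ Q, (#(hits H G q) : ℝ) +
      (card W : ℝ) ^ 2 * (#(cross G x y) * ((card V : ℝ) ^ (card W) / (card V : ℝ) ^ 2)) := by
  set X2 : ℝ := (card V : ℝ) ^ (card W) / (card V : ℝ) ^ 2 with hX2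
  have hX2' : 0 ≤ X2 := by positivity
  let P2 : Finset (W × W) := univ.filter (fun p => p.1 ≠ p.2)
  let E1 : Finset (W → V) := Q.biUnion (fun q => hits H G q)
  let E2 : Finset (W → V) := P2.biUnion (fun p => univ.filter (fun f : W → V =>
    (f p.1, f p.2) ∈ cross G x y))
  have hcover : injs H G ⊆ (surv H G x y Q ∪ E1) ∪ E2 := by
    intro f hf
    have hf' := hf
    rw [mem_injs] at hf
    obtain ⟨hi, hh⟩ := hf
    by_cases h1 : ∀ a, (∃ b, H.Adj a b) → f a ∉ Q
    · by_cases h2 : ∀ a b, H.Adj a b → ¬ (G.Adj x (f a) ∧ G.Adj y (f b))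
      · rw [mem_union, mem_union]
        left; left
        simp only [surv, mem_filter]
        exact ⟨hf', h1, h2⟩
      · rw [mem_union]
        right
        push Not at h2
        obtain ⟨a, b, hab, hxa, hyb⟩ := h2
        simp only [E2, P2, mem_biUnion, mem_filter, mem_univ, true_and, cross]
        exact ⟨(a, b), hab.ne, hxa, hyb, hh a b hab⟩
    · rw [mem_union, mem_union]
      left; right
      push Not at h1
      obtain ⟨a, ha, haQ⟩ := h1
      simp only [E1, mem_biUnion, hits, mem_filter]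
      exact ⟨f a, haQ, hf', a, ha, rfl⟩
  have b1 : (#E1 : ℝ) ≤ ∑ q ∈ Q, (#(hits H G q) : ℝ) := by
    exact_mod_cast Finset.card_biUnion_le
  have b2 : (#E2 : ℝ) ≤ (card W : ℝ) ^ 2 * (#(cross G x y) * X2) := by
    have h1 : (#E2 : ℝ) ≤ ∑ p ∈ P2, (#(univ.filter (fun f : W → V =>
        (f p.1, f p.2) ∈ cross G x y)) : ℝ) := by
      exact_mod_cast Finset.card_biUnion_le
    refine h1.trans ((Finset.sum_le_sum (g := fun _ => (#(cross G x y) : ℝ) * X2) ?_).trans ?_)
    · intro p hp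
      exact pinrel (W := W) (cross G x y) p.1 p.2 (by simpa [P2] using hp)
    · rw [Finset.sum_const, nsmul_eq_mul]
      apply mul_le_mul_of_nonneg_right _ (by positivity)
      have : #P2 ≤ card W ^ 2 := by
        refine (Finset.card_filter_le _ _).trans ?_
        rw [Finset.card_univ, Fintype.card_prod]; nlinarith
      exact_mod_cast this
  have htot : (num H G : ℝ) ≤ #(surv H G x y Q) + #E1 + #E2 := by
    have h1 := Finset.card_le_card hcover
    have h2 := Finset.card_union_le (surv H G x y Q ∪ E1) E2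
    have h3 := Finset.card_union_le (surv H G x y Q) E1
    have : num H G ≤ #(surv H G x y Q) + #E1 + #E2 := by
      unfold num; omega
    exact_mod_cast this
  linarith

open Classical in
/-- transported good copies -/
noncomputable def tr (H : SimpleGraph W) (G : SimpleGraph V) (x y : V) (Q : Finset V) (z q : V) :
    Finset (W → V) :=
  (pre H G x y Q z).image (fun f a => Equiv.swap z q (f a))

open Classical in
lemma tr_card (H : SimpleGraph W) (G : SimpleGraph V) (x y : V) (Q : Finset V) (z q : V) :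
    #(tr H G x y Q z q) = #(pre H G x y Q z) := by
  unfold tr
  apply Finset.card_image_of_injective
  intro f g h
  funext a
  exact (Equiv.swap z q).injective (congrFun h a)

open Classical in
/-- description of transported copies -/
lemma mem_tr (H : SimpleGraph W) (G : SimpleGraph V) (x y : V) (Q : Finset V) (z q : V)
    (hq : q ∈ Q) (f : W → V) (hf : f ∈ tr H G x y Q z q) :
    Function.Injective f ∧ ∃ i, (∃ b, H.Adj i b) ∧ f i = q ∧
      (∀ a, (∃ b, H.Adj a b) → a ≠ i → f a ∉ Q) ∧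
      (∀ b, H.Adj i b → G.Adj z (f b)) ∧
      (∀ a b, H.Adj a b → a ≠ i → b ≠ i →
        G.Adj (f a) (f b) ∧ ¬ (G.Adj x (f a) ∧ G.Adj y (f b))) := by
  simp only [tr, mem_image] at hf
  obtain ⟨g, hg, rfl⟩ := hf
  simp only [pre, mem_filter, mem_injs] at hg
  obtain ⟨⟨hi, hh⟩, i, hib, hgi, h1, h2⟩ := hg
  refine ⟨fun a b h => hi ((Equiv.swap z q).injective h), i, hib, by simp [hgi], ?_⟩
  have key : ∀ a, (∃ b, H.Adj a b) → a ≠ i → Equiv.swap z q (g a) = g a := by
    intro a ha hai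
    apply Equiv.swap_apply_of_ne_of_ne
    · intro h; exact hai (hi (h.trans hgi.symm))
    · intro h; exact h1 a ha hai (h ▸ hq)
  refine ⟨?_, ?_, ?_⟩
  · intro a ha hai
    change Equiv.swap z q (g a) ∉ Q
    rw [key a ha hai]; exact h1 a ha hai
  · intro b hb
    change G.Adj z (Equiv.swap z q (g b))
    rw [key b ⟨i, hb.symm⟩ hb.ne', ← hgi]
    exact hh i b hb
  · intro a b hab ha hb
    change G.Adj (Equiv.swap z q (g a)) (Equiv.swap z q (g b)) ∧
      ¬ (G.Adj x (Equiv.swap z q (g a)) ∧ G.Adj y (Equiv.swap z q (g b)))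
    rw [key a ⟨b, hab⟩ ha, key b ⟨a, hab.symm⟩ hb]
    exact ⟨hh a b hab, h2 a b hab ha hb⟩

open Classical in
lemma union_count (H : SimpleGraph W) (G : SimpleGraph V) (hG : Ext H G) (x y : V)
    (hxy : G.Adj x y) (Q : Finset V) :
    #(surv H G x y Q) + ∑ _q ∈ Q, (#(pre H G x y Q x) + #(pre H G x y Q y)) ≤ num H G := by
  have hext := hG.2 (union G x y Q) (union_cliqueFree G hG.1 x y Q)
  refine le_trans ?_ hext
  let T : V → Finset (W → V) := fun q => tr H G x y Q x q ∪ tr H G x y Q y q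
  have hA : ∀ z, z = x ∨ z = y → ∀ q ∈ Q, ∀ f ∈ tr H G x y Q z q,
      f ∈ injs H (union G x y Q) := by
    intro z hz q hq f hf
    obtain ⟨hi, i, hib, hfi, h1, h2, h3⟩ := mem_tr H G x y Q z q hq f hf
    rw [mem_injs]
    refine ⟨hi, ?_⟩
    have hz' : ∀ b, H.Adj i b → (union G x y Q).Adj (f i) (f b) := by
      intro b hb
      refine Or.inr (Or.inl ⟨hfi ▸ hq, h1 b ⟨i, hb.symm⟩ hb.ne', ?_⟩)
      rcases hz with rfl | rfl
      · exact Or.inl (h2 b hb)
      · exact Or.inr (h2 b hb)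
    intro a b hab
    by_cases ha : a = i
    · subst ha; exact hz' b hab
    by_cases hb : b = i
    · subst hb; exact (hz' a hab.symm).symm
    obtain ⟨h4, h5⟩ := h3 a b hab ha hb
    obtain ⟨_, h6⟩ := h3 b a hab.symm hb ha
    refine Or.inl ⟨h1 a ⟨b, hab⟩ ha, h1 b ⟨a, hab.symm⟩ hb, h4, h5, ?_⟩
    rintro ⟨h7, h8⟩
    exact h6 ⟨h7, h8⟩
  have hB : surv H G x y Q ⊆ injs H (union G x y Q) := by
    intro f hf
    simp only [surv, mem_filter, mem_injs] at hf
    obtain ⟨⟨hi, hh⟩, h1, h2⟩ := hf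
    rw [mem_injs]
    refine ⟨hi, fun a b hab => Or.inl ⟨h1 a ⟨b, hab⟩, h1 b ⟨a, hab.symm⟩, hh a b hab, h2 a b hab, ?_⟩⟩
    rintro ⟨h7, h8⟩
    exact h2 b a hab.symm ⟨h7, h8⟩
  have hxyT : ∀ q ∈ Q, Disjoint (tr H G x y Q x q) (tr H G x y Q y q) := by
    intro q hq
    rw [Finset.disjoint_left]
    intro f hf hf'
    obtain ⟨hi, i, ⟨b, hib⟩, hfi, h1, h2, h3⟩ := mem_tr H G x y Q x q hq f hf
    obtain ⟨_, j, _, hfj, k1, k2, k3⟩ := mem_tr H G x y Q y q hq f hf'
    have hij : i = j := hi (hfi.trans hfj.symm)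
    subst hij
    exact tf_not G hG.1 hxy (h2 b hib) (k2 b hib)
  have hTcard : ∀ q ∈ Q, #(T q) = #(pre H G x y Q x) + #(pre H G x y Q y) := by
    intro q hq
    simp only [T]
    rw [Finset.card_union_of_disjoint (hxyT q hq), tr_card, tr_card]
  have hTval : ∀ q ∈ Q, ∀ f ∈ T q, Function.Injective f ∧ ∃ i, (∃ b, H.Adj i b) ∧ f i = q ∧
      (∀ a, (∃ b, H.Adj a b) → a ≠ i → f a ∉ Q) := by
    intro q hq f hf
    simp only [T, mem_union] at hf
    rcases hf with hf | hf
    · obtain ⟨hi, i, hib, hfi, h1, _⟩ := mem_tr H G x y Q x q hq f hf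
      exact ⟨hi, i, hib, hfi, h1⟩
    · obtain ⟨hi, i, hib, hfi, h1, _⟩ := mem_tr H G x y Q y q hq f hf
      exact ⟨hi, i, hib, hfi, h1⟩
  have hTdisj : ∀ q ∈ Q, ∀ q' ∈ Q, q ≠ q' → Disjoint (T q) (T q') := by
    intro q hq q' hq' hne
    rw [Finset.disjoint_left]
    intro f hf hf'
    obtain ⟨hi, i, hib, hfi, h1⟩ := hTval q hq f hf
    obtain ⟨_, j, hjb, hfj, k1⟩ := hTval q' hq' f hf'
    by_cases hij : i = j
    · subst hij; exact hne (hfi.symm.trans hfj)
    · exact k1 i hib hij (hfi ▸ hq)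
  have hST : Disjoint (surv H G x y Q) (Q.biUnion T) := by
    rw [Finset.disjoint_left]
    intro f hf hf'
    simp only [surv, mem_filter] at hf
    rw [mem_biUnion] at hf'
    obtain ⟨q, hq, hf'⟩ := hf'
    obtain ⟨_, i, hib, hfi, _⟩ := hTval q hq f hf'
    exact hf.2.1 i hib (hfi ▸ hq)
  calc #(surv H G x y Q) + ∑ _q ∈ Q, (#(pre H G x y Q x) + #(pre H G x y Q y))
      = #(surv H G x y Q) + ∑ q ∈ Q, #(T q) := by
        congr 1; exact Finset.sum_congr rfl (fun q hq => (hTcard q hq).symm)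
    _ = #(surv H G x y Q) + #(Q.biUnion T) := by
        rw [Finset.card_biUnion]
        intro q hq q' hq' hne
        exact hTdisj q hq q' hq' hne
    _ = #(surv H G x y Q ∪ Q.biUnion T) := (Finset.card_union_of_disjoint hST).symm
    _ ≤ num H (union G x y Q) := by
        unfold num
        apply Finset.card_le_card
        intro f hf
        rw [mem_union, mem_biUnion] at hf
        rcases hf with hf | ⟨q, hq, hf⟩
        · exact hB hf
        · simp only [T, mem_union] at hf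
          rcases hf with hf | hf
          · exact hA x (Or.inl rfl) q hq f hf
          · exact hA y (Or.inr rfl) q hq f hf

open Classical in
/-- **Key lemma**: in an extremal graph every edge `xy` has positive edge density between `N(x)`
and `N(y)`. -/
lemma cross_lower (H : SimpleGraph W) (hH : ∃ a b, H.Adj a b) (col : W → Bool)
    (hcol : ∀ a b, H.Adj a b → col a ≠ col b) (G : SimpleGraph V) (hG : Ext H G)
    (hV : 2 ≤ card V)
    (hlarge : 16 * (card W : ℝ) ^ 2 ≤ (1 / 3 : ℝ) ^ ((card W) ^ 2) * card V) (x y : V)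
    (hxy : G.Adj x y) :
    ((1 / 3 : ℝ) ^ ((card W) ^ 2)) ^ 2 / (384 * (card W : ℝ) ^ 5) * (card V : ℝ) ^ 2 ≤
      (#(cross G x y) : ℝ) := by
  have : Nonempty V := Fintype.card_pos_iff.mp (by omega)
  have hWne : Nonempty W := by obtain ⟨a, _⟩ := hH; exact ⟨a⟩
  have hn : (0 : ℝ) < card V := by positivity
  have hh : (1 : ℝ) ≤ card W := by
    have : 1 ≤ card W := Fintype.card_pos
    exact_mod_cast this
  set h : ℝ := (card W : ℝ) with hhdef
  set n : ℝ := (card V : ℝ) with hndef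
  set c : ℝ := (1 / 3 : ℝ) ^ ((card W) ^ 2) with hc
  have hcpos : 0 < c := by positivity
  have hc1 : c ≤ 1 := pow_le_one₀ (by norm_num) (by norm_num)
  -- the set `Q`
  set t : ℝ := c * n / (16 * h ^ 2) with ht
  have ht1 : 1 ≤ t := by
    rw [ht, le_div_iff₀ (by positivity)]; linarith
  set m : ℕ := ⌊t⌋₊ with hm
  have hm1 : (m : ℝ) ≤ t := Nat.floor_le (by linarith)
  have hm2 : t / 2 ≤ m := by
    have := Nat.lt_floor_add_one t
    have h1 : (1 : ℝ) ≤ m := by
      have : 1 ≤ m := Nat.le_floor (by exact_mod_cast ht1)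
      exact_mod_cast this
    linarith
  have hmn : (m : ℝ) ≤ n := by
    refine hm1.trans ?_
    rw [ht, div_le_iff₀ (by positivity)]
    nlinarith [mul_le_mul hc1 (le_refl n) hn.le (by norm_num : (0:ℝ) ≤ 1), sq_nonneg h,
      mul_le_mul hh hh (by norm_num) (by linarith : (0:ℝ) ≤ h)]
  have hmn' : m ≤ card V := by
    rw [hndef] at hmn
    exact_mod_cast hmn
  obtain ⟨Q, _, hQ⟩ := Finset.exists_subset_card_eq (s := (univ : Finset V)) (n := m)
    (by rw [Finset.card_univ]; exact hmn')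
  -- counts
  set X2 : ℝ := n ^ (card W) / n ^ 2 with hX2
  set X3 : ℝ := n ^ (card W) / n ^ 3 with hX3
  have hX2pos : 0 < X2 := by positivity
  have hX3pos : 0 < X3 := by positivity
  have hX23 : X2 = n * X3 := by rw [hX2, hX3]; field_simp
  set e : ℝ := (#(cross G x y) : ℝ) with he
  have he0 : 0 ≤ e := by positivity
  have k1 := union_count H G hG x y hxy Q
  have k2 := surv_count H G x y Q
  have k3 := pre_count H G x y Q x
  have k4 := pre_count H G x y Q y
  rw [Finset.sum_const, hQ, smul_eq_mul] at k1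
  have k1' : (#(surv H G x y Q) : ℝ) + m * ((#(pre H G x y Q x) : ℝ) + #(pre H G x y Q y)) ≤
      (num H G : ℝ) := by exact_mod_cast k1
  rw [hQ] at k3 k4
  -- usage of the vertices of `Q`
  have k5 : ∑ q ∈ Q, (#(hits H G q) : ℝ) ≤ m * ((#(hits H G x) : ℝ) + h ^ 2 * X2) := by
    calc ∑ q ∈ Q, (#(hits H G q) : ℝ) ≤ ∑ _q ∈ Q, ((#(hits H G x) : ℝ) + h ^ 2 * X2) :=
          Finset.sum_le_sum (fun q _ => hits_le H G hG x q)
      _ = _ := by rw [Finset.sum_const, hQ, nsmul_eq_mul]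
  obtain ⟨z, hz⟩ := exists_hits H hH G
  have k6 := hits_le H G hG y z
  have k7 := ext_lower hV H col hcol G hG
  have e1 : n ^ (card W) = n * n * X2 := by rw [hX2]; field_simp
  have e2 : n ^ (card W) / n = n * X2 := by rw [hX2]; field_simp
  have k8 : c * n * X2 - h ^ 2 * X2 ≤ (num H G : ℝ) / n := by
    rw [le_div_iff₀ hn]
    have k7' : c * n ^ (card W) - h ^ 2 * (n ^ (card W) / n) ≤ (num H G : ℝ) := k7
    rw [e2, e1] at k7'
    nlinarith
  have hyuse : c * n * X2 - 2 * (h ^ 2 * X2) ≤ (#(hits H G y) : ℝ) := by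
    have hz' : (num H G : ℝ) / n ≤ (#(hits H G z) : ℝ) := hz
    have k6' : (#(hits H G z) : ℝ) ≤ #(hits H G y) + h ^ 2 * X2 := k6
    linarith
  -- combine
  have hm0 : (0 : ℝ) ≤ m := by positivity
  have c1 : (m : ℝ) * (#(hits H G x) : ℝ) ≤ m * ((#(pre H G x y Q x) : ℝ) + h ^ 2 * (m * X2) +
      h ^ 3 * (e * X3)) := mul_le_mul_of_nonneg_left k3 hm0
  have c2 : (m : ℝ) * (#(hits H G y) : ℝ) ≤ m * ((#(pre H G x y Q y) : ℝ) + h ^ 2 * (m * X2) +
      h ^ 3 * (e * X3)) := mul_le_mul_of_nonneg_left k4 hm0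
  have c3 : (m : ℝ) * (c * n * X2 - 2 * (h ^ 2 * X2)) ≤ m * (#(hits H G y) : ℝ) :=
    mul_le_mul_of_nonneg_left hyuse hm0
  have c4 : (m : ℝ) * (c * n * X2 - 2 * (h ^ 2 * X2)) ≤ m * (h ^ 2 * X2) + h ^ 2 * (e * X2) +
      m * (2 * (h ^ 2 * (m * X2))) + m * (2 * (h ^ 3 * (e * X3))) := by
    have k2' : (num H G : ℝ) ≤ #(surv H G x y Q) + ∑ q ∈ Q, (#(hits H G q) : ℝ) +
      h ^ 2 * (e * X2) := k2
    linarith
  have c5 : (m : ℝ) * (2 * (h ^ 3 * (e * X3))) ≤ 2 * h ^ 3 * e * X2 := by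
    rw [hX23]
    have : (m : ℝ) * (2 * (h ^ 3 * (e * X3))) = m * (2 * h ^ 3 * e * X3) := by ring
    rw [this]
    calc (m : ℝ) * (2 * h ^ 3 * e * X3) ≤ n * (2 * h ^ 3 * e * X3) :=
          mul_le_mul_of_nonneg_right hmn
            (mul_nonneg (mul_nonneg (by linarith [pow_nonneg (by linarith : (0:ℝ) ≤ h) 3]) he0)
              hX3pos.le)
      _ = 2 * h ^ 3 * e * (n * X3) := by ring
  have c6 : X2 * (m * (c * n)) ≤ X2 * (m * (3 * h ^ 2) + 2 * h ^ 2 * m * m + (h ^ 2 + 2 * h ^ 3) * e) := by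
    nlinarith
  have c7 : m * (c * n) ≤ m * (3 * h ^ 2) + 2 * h ^ 2 * m * m + (h ^ 2 + 2 * h ^ 3) * e :=
    le_of_mul_le_mul_left c6 hX2pos
  have c8 : 2 * h ^ 2 * m * m ≤ m * (c * n / 8) := by
    have : 2 * h ^ 2 * m ≤ c * n / 8 := by
      have := mul_le_mul_of_nonneg_left hm1 (by positivity : (0:ℝ) ≤ 2 * h ^ 2)
      refine this.trans (le_of_eq ?_)
      rw [ht]; field_simp; ring
    nlinarith
  have c9 : m * (3 * h ^ 2) ≤ m * (3 * (c * n) / 16) := by
    apply mul_le_mul_of_nonneg_left _ hm0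
    linarith
  have c10 : h ^ 2 + 2 * h ^ 3 ≤ 3 * h ^ 3 := by nlinarith [sq_nonneg h]
  have c11 : (h ^ 2 + 2 * h ^ 3) * e ≤ 3 * h ^ 3 * e := mul_le_mul_of_nonneg_right c10 he0
  have c12 : m * (c * n) * (11 / 16) ≤ 3 * h ^ 3 * e := by nlinarith
  have c13 : t / 2 * (c * n) * (11 / 16) ≤ 3 * h ^ 3 * e := by
    refine le_trans ?_ c12
    apply mul_le_mul_of_nonneg_right _ (by norm_num)
    exact mul_le_mul_of_nonneg_right hm2 (by positivity)
  have c14 : t / 2 * (c * n) * (11 / 16) = 11 * c ^ 2 * n ^ 2 / (512 * h ^ 2) := by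
    rw [ht]; field_simp; ring
  rw [c14, div_le_iff₀ (by positivity)] at c13
  rw [div_mul_eq_mul_div, div_le_iff₀ (by positivity)]
  have : 3 * h ^ 3 * e * (512 * h ^ 2) = 4 * (e * (384 * h ^ 5)) := by ring
  nlinarith [mul_pos (mul_pos hcpos hcpos) (mul_pos hn hn)]

end H67Blow
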